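import Pool.Agent.Lib.SW.TS.TS7
import Pool.Agent.Lib.SW.TS.TS5
import Pool.Agent.Lib.MP_7b7e48_nt.GT.RobustLowerB
import Pool.Agent.Lib.MP_7b7e48_nt.GT.ConvL2
import Pool.Agent.Lib.MP_7b7e48_nt.GT.FundLemma

/-!
# RU-0: definitions for the uniform robust Goldbach law

`SpAt B η y`: at most the proportion `η` of the primes up to `y` lie in `B`.  `FW w z f X N`: the sum of `f s` over the `s ≤ X`
with `N - s` free of primes in `(w, z]`.  `PL W a N`: weighted number of pairs `x + y = N` of primes with `x ≡ a` modulo `W`;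
`PZ z W a N`: the same for the model `rz z/Vz z` of the primes; `MT z z' N`: the local factors of the primes in `(z, z']`
(and the normalisation at all primes up to `z'`).
-/

set_option autoImplicit false

open Finset Pool.Agent.Lib.GT Pool.Agent.Lib.GT.LA Pool.Agent.Lib.GT.Robust

namespace Pool.Agent.Lib.MP_7b7e48_nt.RU

/-- at most the proportion `η` of the primes up to `y` lie in `B` -/
def SpAt (B : Set ℕ) (η : ℝ) (y : ℕ) : Prop :=
  open Classical in
    (((Finset.Icc 1 y).filter (fun p => p.Prime ∧ p ∈ B)).card : ℝ) ≤ η * Nat.primeCounting y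

open Classical in
/-- the sum of `f s` over the `s ≤ X` with `N - s` free of primes in `(w, z]` -/
noncomputable def FW (w z : ℕ) (f : ℕ → ℝ) (X N : ℕ) : ℝ :=
  ∑ s ∈ Icc 1 X, f s * (if SW.Rough w z {s} N then 1 else 0)

/-- weighted pairs of primes with the first one in a residue class -/
noncomputable def PL (W a N : ℕ) : ℝ :=
  ∑ x ∈ range (N + 1), (if x % W = a then lam x else 0) * lam (N - x)

/-- the same for rough numbers -/
noncomputable def PZ (z W a N : ℕ) : ℝ :=
  (∑ x ∈ range (N + 1), (if x % W = a then SW.rz z x else 0) * SW.rz z (N - x)) / (SW.Vz z) ^ 2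

/-- local factors -/
noncomputable def MT (z z' N : ℕ) : ℝ :=
  (∏ r ∈ SW.pr z z', (1 - (if r ∣ N then (1 : ℝ) else 2) / r)) / (SW.Vz z') ^ 2

end Pool.Agent.Lib.MP_7b7e48_nt.RU
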