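import Pool.Agent.Lib.MP_7b7e48_nt.RU.RU0
import Pool.Agent.Lib.SW.SWFinal

/-!
# RU-1: exponential moment over the primes of the number of collisions

PROOF.  Copy of `ts7_moment` (SW/TS/TS7.lean) with the weight `lam`.  `P = SW.pr w z`, `c_p = exp (w/(p-1)) - 1`,
`Ω p = σ.image (· % p)`, `exp (w YY) = ∑_{D ⊆ P} ∏_{p ∈ D} c_p 1[s % p ∈ Ω p]`.  For `D ⊆ P`, `d = ∏ D`, put
`Q D = ∑_{s ≤ X, s % p ∈ Ω p (p ∈ D)} lam s`.
(i) `d ≤ (log X)^M`: `Q D ≤ (∏ #Ω p) (2X/φ(d) + log X)`: the condition is a union of `∏ #Ω p` classes modulo `d`; a class coprime to `d` has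
`∑ lam ≤ 2X/φ(d)` by `SW.theta_ap` (savings `(log X)^(2M+1)`), a class not coprime to `d` contains at most one prime.
(ii) `d > (log X)^M`: `Q D ≤ log X · (∏ #Ω p) (X/d + 1)` (`abs_card_sub_le` as in `ts7_moment`).
Part (i): `2 X ∏ (1 + c_p k/(p-1)) ≤ 2 X exp (∑_{p > w} e w k/(p-1)^2) ≤ 2 X e^(6k)`.
Part (ii), `X/d`: `X log X (log X)^(-M δ) ∏ (1 + c_p k p^δ/p) ≤ X (log X)^(1 - M δ + 12 C)`.
Part (ii), `1`: `log X ∏ (1 + c_p k) ≤ log X exp (k w e (1 + log z)) ≤ X` (as in `bad_new`).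
`exp_lam_big`: `lam s ≤ log X` and `ts7_moment`.
-/

set_option autoImplicit false

open Finset Pool.Agent.Lib.GT

namespace Pool.Agent.Lib.MP_7b7e48_nt.RU

theorem ru1_lam_nonneg (s : ℕ) : 0 ≤ lam s := by
  unfold lam
  split_ifs with h
  · exact Real.log_nonneg (by exact_mod_cast h.one_lt.le)
  · exact le_rfl

theorem ru1_lam_le {X s : ℕ} (hs : s ∈ Icc 1 X) : lam s ≤ Real.log X := by
  obtain ⟨h1, h2⟩ := mem_Icc.1 hs
  have h3 : (1 : ℝ) ≤ s := by exact_mod_cast h1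
  have h4 : (s : ℝ) ≤ X := by exact_mod_cast h2
  have h5 : Real.log s ≤ Real.log X := Real.log_le_log (by linarith) h4
  unfold lam
  split_ifs with h
  · exact h5
  · exact (Real.log_nonneg h3).trans h5

/-- a class not coprime to the modulus contains at most one prime -/
theorem ru1_class (X d a : ℕ) (ha : ¬ Nat.Coprime a d) (hX : 1 ≤ X) :
    ∑ s ∈ (Icc 1 X).filter (fun s => s % d = a), lam s ≤ Real.log X := by
  have hl : 0 ≤ Real.log X := Real.log_nonneg (by exact_mod_cast hX)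
  have h1 : ∀ s ∈ (Icc 1 X).filter (fun s => s % d = a), lam s ≤
      if s = Nat.gcd a d then Real.log X else 0 := by
    intro s hs
    obtain ⟨hs1, hs2⟩ := mem_filter.1 hs
    by_cases hp : s.Prime
    · have h2 : Nat.gcd a d ∣ s := by
        rw [← hs2]
        have h3 : Nat.gcd (s % d) d = Nat.gcd s d := by
          rw [← Nat.gcd_rec, Nat.gcd_comm]
        rw [h3]
        exact Nat.gcd_dvd_left s d
      have h3 : Nat.gcd a d = s := by
        rcases (Nat.dvd_prime hp).1 h2 with h4 | h4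
        · exact absurd h4 ha
        · exact h4
      rw [if_pos h3.symm]
      exact ru1_lam_le hs1
    · have h2 : lam s = 0 := by
        unfold lam
        rw [if_neg hp]
      rw [h2]
      split_ifs
      · exact hl
      · exact le_rfl
  refine (sum_le_sum h1).trans ?_
  rw [sum_ite_eq']
  split_ifs
  · exact le_rfl
  · exact hl

/-- classes to small moduli -/
theorem ru1_small (M : ℕ) : ∃ X₀ : ℕ, ∀ X : ℕ, X₀ ≤ X → ∀ d a : ℕ, 1 ≤ d → a < d →
    (d : ℝ) ≤ Real.log X ^ M →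
      ∑ s ∈ (Icc 1 X).filter (fun s => s % d = a), lam s ≤ 2 * X / d.totient + Real.log X := by
  obtain ⟨C, hC, h⟩ := SW.theta_ap (2 * M + 1) 1 one_pos
  obtain ⟨X₁, hX₁⟩ := Filter.eventually_atTop.1
    ((Real.tendsto_log_atTop.comp tendsto_natCast_atTop_atTop).eventually_ge_atTop (max C 1))
  refine ⟨X₁ + 2, fun X hX d a hd had hdM => ?_⟩
  have hlog : max C 1 ≤ Real.log (X : ℝ) := hX₁ X (by omega)
  have hlC : C ≤ Real.log (X : ℝ) := (le_max_left _ _).trans hlog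
  have hl1 : 1 ≤ Real.log (X : ℝ) := (le_max_right _ _).trans hlog
  have hX0 : (0 : ℝ) < X := by exact_mod_cast (by omega : 0 < X)
  have htot : (0 : ℝ) < (d.totient : ℝ) := by exact_mod_cast Nat.totient_pos.2 hd
  by_cases hc : Nat.Coprime a d
  · have h1 := h d a hd hc X (by exact_mod_cast (by omega : 2 ≤ X))
    rw [Nat.floor_natCast] at h1
    have h2 : ∑ s ∈ (Icc 1 X).filter (fun s => s % d = a), lam s =
        ∑ n ∈ (Icc 1 X).filter (fun n => n.Prime ∧ n ≡ a [MOD d]), Real.log n := by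
      rw [sum_filter, sum_filter]
      refine sum_congr rfl fun s _ => ?_
      have h3 : (s % d = a) ↔ (s ≡ a [MOD d]) := by
        unfold Nat.ModEq
        rw [Nat.mod_eq_of_lt had]
      unfold lam
      by_cases hp : s.Prime
      · simp only [hp, true_and, if_true, h3]
      · simp only [hp, false_and, if_false, ite_self]
    rw [h2]
    have h3 := (abs_le.1 h1).2
    have h4 : C * (d : ℝ) ^ (1 : ℝ) * X / Real.log X ^ (2 * M + 1) ≤ X / d.totient := by
      rw [Real.rpow_one, div_le_div_iff₀ (by positivity) htot]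
      have h5 : (d.totient : ℝ) ≤ d := by exact_mod_cast Nat.totient_le d
      have hd0 : (0 : ℝ) ≤ d := Nat.cast_nonneg _
      calc C * d * X * d.totient ≤ Real.log X * Real.log X ^ M * X * Real.log X ^ M := by
            have h6 : C * (d : ℝ) ≤ Real.log X * Real.log X ^ M :=
              mul_le_mul hlC hdM hd0 (by linarith)
            have h7 : C * (d : ℝ) * X ≤ Real.log X * Real.log X ^ M * X :=
              mul_le_mul_of_nonneg_right h6 hX0.le
            exact mul_le_mul h7 (h5.trans hdM) htot.le (by positivity)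
        _ = X * Real.log X ^ (2 * M + 1) := by ring
    have h5 : (X : ℝ) / d.totient + X / d.totient = 2 * X / d.totient := by ring
    linarith
  · have h1 := ru1_class X d a hc (by omega)
    have h2 : 0 ≤ 2 * (X : ℝ) / d.totient := by positivity
    linarith

/-- splitting a condition modulo the primes of `D` into residue classes -/
theorem ru1_fiber (D : Finset ℕ) (hD : ∀ r ∈ D, r.Prime) (Ω : ℕ → Finset ℕ)
    (hΩ : ∀ r ∈ D, ∀ x ∈ Ω r, x < r) (X : ℕ) (f : ℕ → ℝ) (V : ℝ)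
    (h : ∀ a < ∏ r ∈ D, r, ∑ s ∈ (Icc 1 X).filter (fun s => s % (∏ r ∈ D, r) = a), f s ≤ V) :
    ∑ s ∈ (Icc 1 X).filter (fun s => ∀ r ∈ D, s % r ∈ Ω r), f s ≤
      (∏ r ∈ D, ((Ω r).card : ℝ)) * V := by
  classical
  set m := ∏ r ∈ D, r with hm
  have hm0 : 0 < m := Finset.prod_pos fun r hr => (hD r hr).pos
  have hdvd : ∀ r ∈ D, r ∣ m := fun r hr => Finset.dvd_prod_of_mem _ hr
  set T := (range m).filter (fun n => ∀ r ∈ D, n % r ∈ Ω r) with hT
  have hTc : T.card = ∏ r ∈ D, (Ω r).card := card_crt D hD Ω hΩ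
  have h1 : ∑ s ∈ (Icc 1 X).filter (fun s => ∀ r ∈ D, s % r ∈ Ω r), f s =
      ∑ c ∈ T, ∑ s ∈ (Icc 1 X).filter (fun s => s % m = c), f s := by
    rw [← Finset.sum_fiberwise_of_maps_to (g := fun n => n % m) (t := T)]
    · refine Finset.sum_congr rfl fun c hc => ?_
      refine Finset.sum_congr ?_ fun _ _ => rfl
      ext n
      simp only [mem_filter]
      constructor
      · rintro ⟨⟨h1, -⟩, h3⟩
        exact ⟨h1, h3⟩
      · rintro ⟨h1, h3⟩
        refine ⟨⟨h1, fun r hr => ?_⟩, h3⟩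
        have := (mem_filter.mp hc).2 r hr
        rw [← h3, Nat.mod_mod_of_dvd n (hdvd r hr)] at this
        exact this
    · intro n hn
      rw [mem_filter] at hn
      rw [hT, mem_filter, mem_range]
      refine ⟨Nat.mod_lt _ hm0, fun r hr => ?_⟩
      rw [Nat.mod_mod_of_dvd n (hdvd r hr)]
      exact hn.2 r hr
  rw [h1]
  refine (sum_le_sum fun c hc => h c (mem_range.mp (mem_filter.mp hc).1)).trans ?_
  rw [sum_const, nsmul_eq_mul, hTc]
  push_cast
  exact le_rfl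

/-- `∏ (1 + c_p a_p) ≤ exp (∑ c_p a_p)` -/
theorem ru1_prod (P : Finset ℕ) (u : ℕ → ℝ) (hu : ∀ p ∈ P, 0 ≤ u p) (G : ℝ)
    (hG : ∑ p ∈ P, u p ≤ G) : ∏ p ∈ P, (1 + u p) ≤ Real.exp G := by
  have h5 : ∏ p ∈ P, (1 + u p) ≤ ∏ p ∈ P, Real.exp (u p) := by
    refine prod_le_prod (fun p hp => ?_) fun p _ => ?_
    · have := hu p hp
      positivity
    · have := Real.add_one_le_exp (u p)
      linarith
  refine h5.trans ?_
  rw [← Real.exp_sum]
  exact Real.exp_le_exp.2 hG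

/-- the `c_p` -/
theorem ru1_cp {w p : ℕ} (hw : 1 ≤ w) (hp : w < p) :
    0 ≤ Real.exp (w / ((p : ℝ) - 1)) - 1 ∧
      Real.exp (w / ((p : ℝ) - 1)) - 1 ≤ w * Real.exp 1 * (1 / ((p : ℝ) - 1)) := by
  have h := SW.sp1_cp hw hp one_pos
  rw [one_mul] at h
  refine ⟨h.1, ?_⟩
  have hw' : (1 : ℝ) ≤ w := by exact_mod_cast hw
  have hp' : (w : ℝ) + 1 ≤ p := by exact_mod_cast hp
  have h1 : 0 < (p : ℝ) - 1 := by linarith
  have hp0 : (0 : ℝ) < p := by linarith
  have h6 := h.2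
  rw [div_le_iff₀ hp0] at h6
  refine h6.trans (le_of_eq ?_)
  have := h1.ne'
  field_simp

theorem ru1_sumsq (w z : ℕ) (hw : 1 ≤ w) :
    ∑ p ∈ SW.pr w z, 1 / ((p : ℝ) - 1) * (1 / ((p : ℝ) - 1)) ≤ 2 * (1 / (w : ℝ)) := by
  have h1 := SW.sp1_sum w z hw
  have h2 : ∑ p ∈ SW.pr w z, 1 / ((p : ℝ) - 1) * (1 / ((p : ℝ) - 1)) ≤
      ∑ p ∈ SW.pr w z, 2 * (1 / ((p : ℝ) * ((p : ℝ) - 1))) := by
    refine sum_le_sum fun p hp => ?_
    have h3 := (SW.mem_pr.1 hp).1
    have hp2 : (2 : ℝ) ≤ p := by exact_mod_cast (by omega : 2 ≤ p)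
    have hp1 : 0 < (p : ℝ) - 1 := by linarith
    have hp0 : 0 < (p : ℝ) := by linarith
    rw [div_mul_div_comm, one_mul, mul_one_div, div_le_div_iff₀ (by positivity) (by positivity)]
    nlinarith
  refine h2.trans ?_
  rw [← mul_sum]
  refine mul_le_mul_of_nonneg_left ?_ (by norm_num)
  refine le_trans ?_ h1
  refine sum_le_sum_of_subset_of_nonneg ?_ fun p hp _ => ?_
  · intro p hp
    have := SW.mem_pr.1 hp
    rw [mem_Icc]
    omega
  · have h6 : (1 : ℝ) < p := by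
      have := (mem_Icc.1 hp).1
      exact_mod_cast (by omega : 1 < p)
    have h7 : 0 < (p : ℝ) - 1 := by linarith
    positivity

theorem ru1_sqrt_tele (w n : ℕ) (hw : 1 ≤ w) :
    ∑ p ∈ Ioc w (w + n), 1 / ((p : ℝ) * Real.sqrt p) ≤
      2 / Real.sqrt w - 2 / Real.sqrt ((w + n : ℕ) : ℝ) := by
  induction n with
  | zero => simp
  | succ n ih =>
    rw [show w + (n + 1) = (w + n) + 1 by ring, Finset.sum_Ioc_succ_top (by omega)]
    have h1 : 1 / (((w + n + 1 : ℕ) : ℝ) * Real.sqrt ((w + n + 1 : ℕ) : ℝ)) ≤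
        2 / Real.sqrt ((w + n : ℕ) : ℝ) - 2 / Real.sqrt ((w + n + 1 : ℕ) : ℝ) := by
      have hm : (1 : ℝ) ≤ ((w + n : ℕ) : ℝ) := by exact_mod_cast (by omega : 1 ≤ w + n)
      have hm' : ((w + n + 1 : ℕ) : ℝ) = ((w + n : ℕ) : ℝ) + 1 := by push_cast; ring
      rw [hm']
      set m : ℝ := ((w + n : ℕ) : ℝ) with hmdef
      have ha : 0 < Real.sqrt m := Real.sqrt_pos.2 (by linarith)
      have hb : 0 < Real.sqrt (m + 1) := Real.sqrt_pos.2 (by linarith)
      have ha2 : Real.sqrt m ^ 2 = m := Real.sq_sqrt (by linarith)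
      have hb2 : Real.sqrt (m + 1) ^ 2 = m + 1 := Real.sq_sqrt (by linarith)
      have hab : Real.sqrt m ≤ Real.sqrt (m + 1) := Real.sqrt_le_sqrt (by linarith)
      set a := Real.sqrt m
      set b := Real.sqrt (m + 1)
      have hm1 : m + 1 = b ^ 2 := hb2.symm
      rw [hm1, div_sub_div _ _ ha.ne' hb.ne', div_le_div_iff₀ (by positivity) (by positivity)]
      have h2 : (b - a) * (b + a) = 1 := by nlinarith
      have h3 : 0 ≤ b - a := by linarith
      have h4 : a * b * 1 ≤ 2 * (b - a) * b ^ 3 := by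
        calc a * b * 1 = a * b * ((b - a) * (b + a)) := by rw [h2]
          _ ≤ b * b * ((b - a) * (b + b)) := by
              refine mul_le_mul (mul_le_mul_of_nonneg_right hab hb.le) ?_ (by positivity) (by positivity)
              exact mul_le_mul_of_nonneg_left (by linarith) h3
          _ = 2 * (b - a) * b ^ 3 := by ring
      calc 1 * (a * b) = a * b * 1 := by ring
        _ ≤ 2 * (b - a) * b ^ 3 := h4
        _ = (2 * b - a * 2) * (b ^ 2 * b) := by ring
    linarith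

theorem ru1_sumdel (w z : ℕ) (hw : 1 ≤ w) (δ : ℝ) (hδ1 : δ ≤ 1 / 2) :
    ∑ p ∈ SW.pr w z, (p : ℝ) ^ δ / p * (1 / ((p : ℝ) - 1)) ≤ 4 * ((w : ℝ) ^ δ / w) := by
  have hw' : (1 : ℝ) ≤ w := by exact_mod_cast hw
  have hw0 : (0 : ℝ) < w := by linarith
  have hs0 : 0 < Real.sqrt w := Real.sqrt_pos.2 hw0
  have h2 : ∑ p ∈ SW.pr w z, (p : ℝ) ^ δ / p * (1 / ((p : ℝ) - 1)) ≤
      ∑ p ∈ SW.pr w z, 2 * ((w : ℝ) ^ δ / Real.sqrt w) * (1 / ((p : ℝ) * Real.sqrt p)) := by
    refine sum_le_sum fun p hp => ?_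
    have h3 := (SW.mem_pr.1 hp).1
    have hp2 : (2 : ℝ) ≤ p := by exact_mod_cast (by omega : 2 ≤ p)
    have hp1 : 0 < (p : ℝ) - 1 := by linarith
    have hp0 : 0 < (p : ℝ) := by linarith
    have hwp : (w : ℝ) ≤ p := by exact_mod_cast h3.le
    have hsp : 0 < Real.sqrt p := Real.sqrt_pos.2 hp0
    have e1 : (p : ℝ) ^ δ ≤ (w : ℝ) ^ δ * (Real.sqrt p / Real.sqrt w) := by
      have e2 : (p : ℝ) ^ δ = (w : ℝ) ^ δ * ((p : ℝ) / w) ^ δ := by
        rw [← Real.mul_rpow hw0.le (by positivity)]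
        congr 1
        field_simp
      rw [e2, ← Real.sqrt_div' _ hw0.le, Real.sqrt_eq_rpow]
      refine mul_le_mul_of_nonneg_left ?_ (by positivity)
      exact Real.rpow_le_rpow_of_exponent_le (by rw [le_div_iff₀ hw0]; linarith) hδ1
    have e3 : 1 / ((p : ℝ) - 1) ≤ 2 / p := by
      rw [div_le_div_iff₀ hp1 hp0]
      linarith
    calc (p : ℝ) ^ δ / p * (1 / ((p : ℝ) - 1)) ≤
          ((w : ℝ) ^ δ * (Real.sqrt p / Real.sqrt w)) / p * (2 / p) := by
          refine mul_le_mul (div_le_div_of_nonneg_right e1 hp0.le) e3 (by positivity) (by positivity)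
      _ = 2 * ((w : ℝ) ^ δ / Real.sqrt w) * (1 / ((p : ℝ) * Real.sqrt p)) := by
          have e4 : (p : ℝ) = Real.sqrt p * Real.sqrt p := (Real.mul_self_sqrt hp0.le).symm
          have e5 : Real.sqrt p / (p : ℝ) = 1 / Real.sqrt p := by
            rw [div_eq_div_iff hp0.ne' hsp.ne', one_mul]
            exact e4.symm
          calc ((w : ℝ) ^ δ * (Real.sqrt p / Real.sqrt w)) / p * (2 / p) =
                2 * ((w : ℝ) ^ δ / Real.sqrt w) * ((Real.sqrt p / p) / p) := by ring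
            _ = 2 * ((w : ℝ) ^ δ / Real.sqrt w) * ((1 / Real.sqrt p) / p) := by rw [e5]
            _ = _ := by
                congr 1
                rw [div_div, mul_comm]
  refine h2.trans ?_
  rw [← mul_sum]
  have h3 : ∑ p ∈ SW.pr w z, 1 / ((p : ℝ) * Real.sqrt p) ≤ 2 / Real.sqrt w := by
    have h4 : ∑ p ∈ SW.pr w z, 1 / ((p : ℝ) * Real.sqrt p) ≤
        ∑ p ∈ Ioc w (w + z), 1 / ((p : ℝ) * Real.sqrt p) := by
      refine sum_le_sum_of_subset_of_nonneg ?_ fun p _ _ => by positivity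
      intro p hp
      have := SW.mem_pr.1 hp
      rw [mem_Ioc]
      omega
    have h5 := ru1_sqrt_tele w z hw
    have h6 : 0 ≤ 2 / Real.sqrt ((w + z : ℕ) : ℝ) := by positivity
    linarith
  calc 2 * ((w : ℝ) ^ δ / Real.sqrt w) * ∑ p ∈ SW.pr w z, 1 / ((p : ℝ) * Real.sqrt p) ≤
        2 * ((w : ℝ) ^ δ / Real.sqrt w) * (2 / Real.sqrt w) :=
        mul_le_mul_of_nonneg_left h3 (by positivity)
    _ = 4 * ((w : ℝ) ^ δ / (Real.sqrt w * Real.sqrt w)) := by
        field_simp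
        ring
    _ = _ := by rw [Real.mul_self_sqrt hw0.le]

/-- expansion of the exponential over the sets of primes -/
theorem ru1_expand (w z : ℕ) (σ : Finset ℕ) (s : ℕ) :
    Real.exp (w * SW.YY w z σ s) =
      ∑ D ∈ (SW.pr w z).powerset, (∏ p ∈ D, (Real.exp (w / ((p : ℝ) - 1)) - 1)) *
        (if ∀ p ∈ D, s % p ∈ σ.image (fun s => s % p) then 1 else 0) := by
  classical
  set P : Finset ℕ := SW.pr w z with hP
  have e1 : P.filter (fun p => ∃ t ∈ σ, s % p = t % p) =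
      P.filter (fun p => s % p ∈ σ.image (fun s => s % p)) := by
    refine filter_congr fun p _ => ?_
    simp only [mem_image]
    constructor
    · rintro ⟨t, ht, he⟩
      exact ⟨t, ht, he.symm⟩
    · rintro ⟨t, ht, he⟩
      exact ⟨t, ht, he.symm⟩
  have e2 : Real.exp (w * SW.YY w z σ s) = ∏ p ∈ P, (1 + (Real.exp (w / ((p : ℝ) - 1)) - 1) *
      (if s % p ∈ σ.image (fun s => s % p) then 1 else 0)) := by
    unfold SW.YY
    rw [← hP, e1, mul_sum, Real.exp_sum, prod_filter]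
    refine prod_congr rfl fun p _ => ?_
    by_cases h3 : s % p ∈ σ.image (fun s => s % p)
    · rw [if_pos h3, if_pos h3]
      rw [mul_one, mul_one_div]
      ring
    · rw [if_neg h3, if_neg h3, mul_zero, add_zero]
  rw [e2, prod_one_add]
  refine sum_congr rfl fun D _ => ?_
  rw [prod_mul_distrib]
  congr 1
  by_cases h3 : ∀ p ∈ D, s % p ∈ σ.image (fun s => s % p)
  · rw [if_pos h3]
    exact prod_eq_one fun p hp => if_pos (h3 p hp)
  · rw [if_neg h3]
    push Not at h3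
    obtain ⟨p, hp, h5⟩ := h3
    exact prod_eq_zero hp (if_neg h5)

theorem ru1_totient (D : Finset ℕ) (hD : ∀ r ∈ D, r.Prime) :
    ((∏ r ∈ D, r).totient : ℝ) = ∏ r ∈ D, ((r : ℝ) - 1) := by
  classical
  induction D using Finset.induction_on with
  | empty => simp
  | insert p d hp ih =>
    have hpp := hD p (mem_insert_self p d)
    have hd' : ∀ r ∈ d, r.Prime := fun r hr => hD r (mem_insert_of_mem hr)
    have hcop : p.Coprime (∏ r ∈ d, r) := by
      refine Nat.Coprime.prod_right fun r hr => ?_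
      rw [Nat.coprime_primes hpp (hd' r hr)]
      rintro rfl
      exact hp hr
    rw [prod_insert hp, prod_insert hp, Nat.totient_mul hcop, Nat.cast_mul, ih hd',
      Nat.totient_prime hpp, Nat.cast_sub hpp.one_lt.le, Nat.cast_one]

/-- bound for one set of primes -/
theorem ru1_one (M : ℕ) (δ : ℝ) (hδ : 0 < δ) : ∃ X₀ : ℕ, ∀ X : ℕ, X₀ ≤ X →
    ∀ D : Finset ℕ, (∀ r ∈ D, r.Prime) → ∀ Ω : ℕ → Finset ℕ, (∀ r ∈ D, ∀ x ∈ Ω r, x < r) →
      ∑ s ∈ (Icc 1 X).filter (fun s => ∀ r ∈ D, s % r ∈ Ω r), lam s ≤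
        (∏ r ∈ D, ((Ω r).card : ℝ)) * (2 * X * ∏ r ∈ D, (1 / ((r : ℝ) - 1)) +
          X * (Real.log X / (Real.log X ^ M) ^ δ) * ∏ r ∈ D, ((r : ℝ) ^ δ / r) + Real.log X) := by
  obtain ⟨X₁, hX₁⟩ := ru1_small M
  obtain ⟨X₂, hX₂⟩ := Filter.eventually_atTop.1
    ((Real.tendsto_log_atTop.comp tendsto_natCast_atTop_atTop).eventually_ge_atTop 1)
  refine ⟨X₁ + X₂ + 1, fun X hX D hD Ω hΩ => ?_⟩
  have hl1 : 1 ≤ Real.log (X : ℝ) := hX₂ X (by omega)
  have hX0 : (0 : ℝ) < X := by exact_mod_cast (by omega : 0 < X)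
  have hD1 : ∀ r ∈ D, (1 : ℝ) ≤ (r : ℝ) - 1 := fun r hr => by
    have h1 := (hD r hr).two_le
    have h2 : (2 : ℝ) ≤ r := by exact_mod_cast h1
    linarith
  have hA : 0 ≤ 2 * (X : ℝ) * ∏ r ∈ D, (1 / ((r : ℝ) - 1)) := by
    refine mul_nonneg (by positivity) (prod_nonneg fun r hr => ?_)
    have := hD1 r hr
    positivity
  have hB : 0 ≤ X * (Real.log X / (Real.log X ^ M) ^ δ) * ∏ r ∈ D, ((r : ℝ) ^ δ / r) := by
    refine mul_nonneg (by positivity) (prod_nonneg fun r hr => by positivity)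
  set d := ∏ r ∈ D, r with hd
  have hd0 : 0 < d := Finset.prod_pos fun r hr => (hD r hr).pos
  have hd0' : (0 : ℝ) < d := by exact_mod_cast hd0
  rcases le_or_gt (d : ℝ) (Real.log X ^ M) with hc | hc
  · -- small modulus
    refine ru1_fiber D hD Ω hΩ X lam _ fun a ha => ?_
    have h1 := hX₁ X (by omega) d a hd0 ha hc
    have h2 : (d.totient : ℝ) = ∏ r ∈ D, ((r : ℝ) - 1) := ru1_totient D hD
    rw [h2] at h1
    have h3 : 2 * (X : ℝ) * ∏ r ∈ D, (1 / ((r : ℝ) - 1)) = 2 * X / ∏ r ∈ D, ((r : ℝ) - 1) := by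
      rw [prod_div_distrib, prod_const_one, mul_one_div]
    rw [← hd, h3]
    linarith
  · -- large modulus
    have h3 := abs_card_sub_le D hD Ω hΩ 1 X
    have h0 : Icc 1 X = Ico 1 (1 + X) := by
      ext n
      rw [mem_Icc, mem_Ico]
      omega
    have h4 : ∑ s ∈ (Icc 1 X).filter (fun s => ∀ r ∈ D, s % r ∈ Ω r), lam s ≤
        (((Ico 1 (1 + X)).filter (fun N => ∀ r ∈ D, N % r ∈ Ω r)).card : ℝ) * Real.log X := by
      calc ∑ s ∈ (Icc 1 X).filter (fun s => ∀ r ∈ D, s % r ∈ Ω r), lam s ≤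
            ∑ s ∈ (Icc 1 X).filter (fun s => ∀ r ∈ D, s % r ∈ Ω r), Real.log X :=
            sum_le_sum fun s hs => ru1_lam_le (mem_filter.1 hs).1
        _ = _ := by rw [sum_const, nsmul_eq_mul, h0]
    refine h4.trans ?_
    have h5 := (abs_le.1 h3).2
    have h6 : (X : ℝ) * ∏ r ∈ D, ((Ω r).card : ℝ) / r = (∏ r ∈ D, ((Ω r).card : ℝ)) * (X / d) := by
      rw [prod_div_distrib, hd]
      push_cast
      ring
    have hK : 0 ≤ ∏ r ∈ D, ((Ω r).card : ℝ) := prod_nonneg fun r _ => Nat.cast_nonneg _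
    have h7 : (((Ico 1 (1 + X)).filter (fun N => ∀ r ∈ D, N % r ∈ Ω r)).card : ℝ) ≤
        (∏ r ∈ D, ((Ω r).card : ℝ)) * (X / d + 1) := by
      rw [h6] at h5
      linarith
    have h8 : (X : ℝ) / d * Real.log X ≤
        X * (Real.log X / (Real.log X ^ M) ^ δ) * ∏ r ∈ D, ((r : ℝ) ^ δ / r) := by
      have h9 : ∏ r ∈ D, ((r : ℝ) ^ δ / r) = (d : ℝ) ^ δ / d := by
        rw [prod_div_distrib, hd]
        push_cast
        rw [Real.finsetProd_rpow _ _ fun r _ => Nat.cast_nonneg _]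
      rw [h9]
      have h10 : 0 < (Real.log X ^ M) ^ δ := by positivity
      have h11 : (Real.log X ^ M) ^ δ ≤ (d : ℝ) ^ δ := Real.rpow_le_rpow (by positivity) hc.le hδ.le
      have h12 : X * (Real.log X / (Real.log X ^ M) ^ δ) * ((d : ℝ) ^ δ / d) =
          X / d * Real.log X * ((d : ℝ) ^ δ / (Real.log X ^ M) ^ δ) := by ring
      rw [h12]
      have h13 : 1 ≤ (d : ℝ) ^ δ / (Real.log X ^ M) ^ δ := by rwa [le_div_iff₀ h10, one_mul]
      have h14 : 0 ≤ (X : ℝ) / d * Real.log X := by positivity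
      calc (X : ℝ) / d * Real.log X = X / d * Real.log X * 1 := (mul_one _).symm
        _ ≤ _ := mul_le_mul_of_nonneg_left h13 h14
    calc (((Ico 1 (1 + X)).filter (fun N => ∀ r ∈ D, N % r ∈ Ω r)).card : ℝ) * Real.log X ≤
          (∏ r ∈ D, ((Ω r).card : ℝ)) * (X / d + 1) * Real.log X :=
          mul_le_mul_of_nonneg_right h7 (by linarith)
      _ = (∏ r ∈ D, ((Ω r).card : ℝ)) * (X / d * Real.log X + Real.log X) := by ring
      _ ≤ _ := mul_le_mul_of_nonneg_left (by linarith) hK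

theorem exp_lam (B C : ℕ) (δ : ℝ) (hδ : 0 < δ) (hδ1 : δ ≤ 1 / 2) : ∃ X₀ : ℕ, ∀ X : ℕ, X₀ ≤ X →
    ∀ w k : ℕ, 1 ≤ w → (w : ℝ) ≤ C * Real.log (Real.log X) →
      (k : ℝ) * (w : ℝ) ^ δ ≤ C * Real.log (Real.log X) → ∀ σ : Finset ℕ, σ.card ≤ k →
        ∑ s ∈ Icc 1 X, lam s * Real.exp (w * SW.YY w (SW.zB B X) σ s) ≤ X * Real.exp (8 * k + 8) := by
  classical
  set M : ℕ := ⌈(12 * C + 1 : ℝ) / δ⌉₊ with hM
  have hMδ : 12 * C + 1 ≤ M * δ := by
    have h1 := Nat.le_ceil ((12 * C + 1 : ℝ) / δ)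
    rw [← hM, div_le_iff₀ hδ] at h1
    exact h1
  obtain ⟨X₁, hX₁⟩ := ru1_one M δ hδ
  obtain ⟨X₂, hX₂⟩ := SW.ts6_ev (3 * C * C * (1 + B) + 1) 3
  refine ⟨X₁ + X₂ + 1, fun X hX w k hw hwC hkC σ hσ => ?_⟩
  obtain ⟨hL1, hl1, hexp, hA⟩ := hX₂ X (by omega)
  have hone := hX₁ X (by omega)
  set L : ℝ := Real.log (Real.log X) with hL
  obtain ⟨hz1, hzl⟩ := SW.ts6_zB B X hl1
  set z := SW.zB B X with hz
  set l : ℝ := Real.log X with hl
  have hX0 : (0 : ℝ) < X := by exact_mod_cast (by omega : 0 < X)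
  have hw' : (1 : ℝ) ≤ w := by exact_mod_cast hw
  have hw0 : (0 : ℝ) < w := by linarith
  have he3 : Real.exp 1 ≤ 11 / 4 := by linarith [Real.exp_one_lt_d9]
  set P : Finset ℕ := SW.pr w z with hP
  set c : ℕ → ℝ := fun p => Real.exp (w / ((p : ℝ) - 1)) - 1 with hc
  set Ω : ℕ → Finset ℕ := fun p => σ.image (fun s => s % p) with hΩ
  have hPw : ∀ p ∈ P, w < p := fun p hp => (SW.mem_pr.1 hp).1
  have hPp : ∀ p ∈ P, p.Prime := fun p hp => (SW.mem_pr.1 hp).2.2
  have hc0 : ∀ p ∈ P, 0 ≤ c p := fun p hp => (ru1_cp hw (hPw p hp)).1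
  have hc1 : ∀ p ∈ P, c p ≤ w * Real.exp 1 * (1 / ((p : ℝ) - 1)) :=
    fun p hp => (ru1_cp hw (hPw p hp)).2
  have hp1 : ∀ p ∈ P, 0 < (p : ℝ) - 1 := fun p hp => by
    have h1 := (hPp p hp).one_lt
    have h2 : (1 : ℝ) < p := by exact_mod_cast h1
    linarith
  have hΩlt : ∀ r ∈ P, ∀ x ∈ Ω r, x < r := by
    intro r hr x hx
    obtain ⟨s, _, hs⟩ := mem_image.1 hx
    rw [← hs]
    exact Nat.mod_lt _ (hPp r hr).pos
  have hk0 : (0 : ℝ) ≤ k := Nat.cast_nonneg _
  have hcard : ∀ r, ((Ω r).card : ℝ) ≤ k := fun r => by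
    have h1 : (Ω r).card ≤ k := card_image_le.trans hσ
    exact_mod_cast h1
  -- expansion
  have h1 : ∑ s ∈ Icc 1 X, lam s * Real.exp (w * SW.YY w z σ s) =
      ∑ D ∈ P.powerset, (∏ p ∈ D, c p) *
        ∑ s ∈ (Icc 1 X).filter (fun s => ∀ r ∈ D, s % r ∈ Ω r), lam s := by
    calc ∑ s ∈ Icc 1 X, lam s * Real.exp (w * SW.YY w z σ s) =
          ∑ s ∈ Icc 1 X, ∑ D ∈ P.powerset, (∏ p ∈ D, c p) *
            (if ∀ p ∈ D, s % p ∈ Ω p then lam s else 0) := by
          refine sum_congr rfl fun s _ => ?_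
          rw [ru1_expand w z σ s, mul_sum]
          refine sum_congr rfl fun D _ => ?_
          by_cases h3 : ∀ p ∈ D, s % p ∈ Ω p
          · rw [if_pos h3, if_pos h3]
            ring
          · rw [if_neg h3, if_neg h3]
            ring
      _ = _ := by
          rw [sum_comm]
          refine sum_congr rfl fun D _ => ?_
          rw [← mul_sum, sum_filter]
  rw [h1]
  have h2 : ∀ D ∈ P.powerset, (∏ p ∈ D, c p) *
      ∑ s ∈ (Icc 1 X).filter (fun s => ∀ r ∈ D, s % r ∈ Ω r), lam s ≤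
      2 * X * ∏ p ∈ D, (c p * ((Ω p).card * (1 / ((p : ℝ) - 1)))) +
        X * (l / (l ^ M) ^ δ) * ∏ p ∈ D, (c p * ((Ω p).card * ((p : ℝ) ^ δ / p))) +
          l * ∏ p ∈ D, (c p * (Ω p).card) := by
    intro D hD
    have hD' := mem_powerset.1 hD
    have h3 := hone D (fun r hr => hPp r (hD' hr)) Ω (fun r hr => hΩlt r (hD' hr))
    have h5 : 0 ≤ ∏ p ∈ D, c p := prod_nonneg fun p hp => hc0 p (hD' hp)
    refine (mul_le_mul_of_nonneg_left h3 h5).trans (le_of_eq ?_)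
    rw [prod_mul_distrib, prod_mul_distrib, prod_mul_distrib, prod_mul_distrib, prod_mul_distrib]
    ring
  refine (sum_le_sum h2).trans ?_
  rw [sum_add_distrib, sum_add_distrib, ← mul_sum, ← mul_sum, ← mul_sum, ← prod_one_add,
    ← prod_one_add, ← prod_one_add]
  -- first product
  have t1 : ∏ p ∈ P, (1 + c p * ((Ω p).card * (1 / ((p : ℝ) - 1)))) ≤ Real.exp (6 * k) := by
    refine ru1_prod P _ (fun p hp => ?_) _ ?_
    · have := hc0 p hp
      have := hp1 p hp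
      positivity
    calc ∑ p ∈ P, c p * ((Ω p).card * (1 / ((p : ℝ) - 1))) ≤
          ∑ p ∈ P, k * (w * Real.exp 1) * (1 / ((p : ℝ) - 1) * (1 / ((p : ℝ) - 1))) := by
          refine sum_le_sum fun p hp => ?_
          have e1 := hp1 p hp
          calc c p * ((Ω p).card * (1 / ((p : ℝ) - 1))) ≤
                (w * Real.exp 1 * (1 / ((p : ℝ) - 1))) * (k * (1 / ((p : ℝ) - 1))) := by
                refine mul_le_mul (hc1 p hp) ?_ (by positivity) (by positivity)
                exact mul_le_mul_of_nonneg_right (hcard p) (by positivity)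
            _ = _ := by ring
      _ = k * (w * Real.exp 1) * ∑ p ∈ P, (1 / ((p : ℝ) - 1) * (1 / ((p : ℝ) - 1))) := by
          rw [mul_sum]
      _ ≤ k * (w * Real.exp 1) * (2 * (1 / (w : ℝ))) :=
          mul_le_mul_of_nonneg_left (ru1_sumsq w z hw) (by positivity)
      _ = k * (2 * Real.exp 1) := by
          field_simp
      _ ≤ k * 6 := mul_le_mul_of_nonneg_left (by linarith) hk0
      _ = 6 * k := by ring
  -- second product
  have t2 : ∏ p ∈ P, (1 + c p * ((Ω p).card * ((p : ℝ) ^ δ / p))) ≤ Real.exp (12 * C * L) := by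
    refine ru1_prod P _ (fun p hp => ?_) _ ?_
    · have := hc0 p hp
      positivity
    calc ∑ p ∈ P, c p * ((Ω p).card * ((p : ℝ) ^ δ / p)) ≤
          ∑ p ∈ P, k * (w * Real.exp 1) * ((p : ℝ) ^ δ / p * (1 / ((p : ℝ) - 1))) := by
          refine sum_le_sum fun p hp => ?_
          have e1 := hp1 p hp
          calc c p * ((Ω p).card * ((p : ℝ) ^ δ / p)) ≤
                (w * Real.exp 1 * (1 / ((p : ℝ) - 1))) * (k * ((p : ℝ) ^ δ / p)) := by
                refine mul_le_mul (hc1 p hp) ?_ (by positivity) (by positivity)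
                exact mul_le_mul_of_nonneg_right (hcard p) (by positivity)
            _ = _ := by ring
      _ = k * (w * Real.exp 1) * ∑ p ∈ P, ((p : ℝ) ^ δ / p * (1 / ((p : ℝ) - 1))) := by
          rw [mul_sum]
      _ ≤ k * (w * Real.exp 1) * (4 * ((w : ℝ) ^ δ / w)) :=
          mul_le_mul_of_nonneg_left (ru1_sumdel w z hw δ hδ1) (by positivity)
      _ = (4 * Real.exp 1) * (k * (w : ℝ) ^ δ) := by
          field_simp
      _ ≤ 12 * (C * L) := mul_le_mul (by linarith) hkC (by positivity) (by norm_num)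
      _ = _ := by ring
  -- third product
  have hkCL : (k : ℝ) ≤ C * L := by
    refine le_trans ?_ hkC
    have : (1 : ℝ) ≤ (w : ℝ) ^ δ := Real.one_le_rpow hw' hδ.le
    nlinarith
  have hCL : 0 ≤ (C : ℝ) * L := by positivity
  have hlogz : 0 ≤ 1 + Real.log z := by
    have := Real.log_nonneg (show (1 : ℝ) ≤ z by exact_mod_cast hz1)
    linarith
  have t3 : ∏ p ∈ P, (1 + c p * ((Ω p).card : ℝ)) ≤ Real.exp (3 * C * C * (1 + B) * L ^ 3) := by
    refine ru1_prod P _ (fun p hp => ?_) _ ?_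
    · have := hc0 p hp
      positivity
    calc ∑ p ∈ P, c p * ((Ω p).card : ℝ) ≤
          ∑ p ∈ P, k * (w * Real.exp 1) * (1 / ((p : ℝ) - 1)) := by
          refine sum_le_sum fun p hp => ?_
          have e1 := hp1 p hp
          calc c p * ((Ω p).card : ℝ) ≤ (w * Real.exp 1 * (1 / ((p : ℝ) - 1))) * k :=
                mul_le_mul (hc1 p hp) (hcard p) (by positivity) (by positivity)
            _ = _ := by ring
      _ = k * (w * Real.exp 1) * ∑ p ∈ P, (1 / ((p : ℝ) - 1)) := by rw [mul_sum]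
      _ ≤ k * (w * Real.exp 1) * (1 + Real.log z) :=
          mul_le_mul_of_nonneg_left (SW.ts7_recip w z hw) (by positivity)
      _ ≤ (C * L) * ((C * L) * 3) * ((1 + B) * L) := by
          refine mul_le_mul ?_ (by linarith) hlogz (by positivity)
          refine mul_le_mul hkCL ?_ (by positivity) hCL
          exact mul_le_mul hwC (by linarith) (by positivity) hCL
      _ = _ := by ring
  -- assembly
  have a2 : X * (l / (l ^ M) ^ δ) * Real.exp (12 * C * L) ≤ X := by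
    have b1 : (l ^ M) ^ δ = Real.exp (M * δ * L) := by
      rw [← hexp, ← Real.exp_nat_mul, Real.rpow_def_of_pos (Real.exp_pos _), Real.log_exp]
      congr 1
      ring
    have b2 : l = Real.exp L := hexp.symm
    have b3 : l / (l ^ M) ^ δ * Real.exp (12 * C * L) ≤ 1 := by
      rw [b1, div_mul_eq_mul_div, div_le_one (Real.exp_pos _), b2, ← Real.exp_add]
      refine Real.exp_le_exp.2 ?_
      nlinarith
    calc X * (l / (l ^ M) ^ δ) * Real.exp (12 * C * L) =
          X * (l / (l ^ M) ^ δ * Real.exp (12 * C * L)) := by ring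
      _ ≤ X * 1 := mul_le_mul_of_nonneg_left b3 hX0.le
      _ = X := mul_one _
  have a3 : l * Real.exp (3 * C * C * (1 + B) * L ^ 3) ≤ X := by
    have b2 : l = Real.exp L := hexp.symm
    have b4 : L ≤ L ^ 3 := by nlinarith [sq_nonneg L, sq_nonneg (L - 1)]
    calc l * Real.exp (3 * C * C * (1 + B) * L ^ 3) =
          Real.exp (L + 3 * C * C * (1 + B) * L ^ 3) := by rw [Real.exp_add, ← b2]
      _ ≤ Real.exp (Real.log X) := by
          refine Real.exp_le_exp.2 (le_trans ?_ hA)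
          linarith
      _ = X := Real.exp_log hX0
  have e8 : 4 * Real.exp (6 * k) ≤ Real.exp (8 * k + 8) := by
    rw [show (8 : ℝ) * k + 8 = 6 * k + (2 * k + 8) by ring, Real.exp_add, mul_comm]
    refine mul_le_mul_of_nonneg_left ?_ (Real.exp_pos _).le
    have := Real.add_one_le_exp (2 * (k : ℝ) + 8)
    linarith
  have e9 : (1 : ℝ) ≤ Real.exp (6 * k) := Real.one_le_exp (by positivity)
  have f1 := mul_le_mul_of_nonneg_left t1 (show 0 ≤ 2 * (X : ℝ) by positivity)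
  have f2 := mul_le_mul_of_nonneg_left t2 (show 0 ≤ X * (l / (l ^ M) ^ δ) by positivity)
  have f3 := mul_le_mul_of_nonneg_left t3 (show 0 ≤ l by linarith)
  have f4 := mul_le_mul_of_nonneg_left e8 hX0.le
  have f5 := mul_le_mul_of_nonneg_left e9 hX0.le
  linarith

theorem exp_lam_big (B C : ℕ) : ∃ X₀ : ℕ, ∀ X : ℕ, X₀ ≤ X →
    ∀ w k : ℕ, 1 ≤ w → (w : ℝ) ≤ C * Real.log (Real.log X) →
      (k : ℝ) ≤ C * Real.log (Real.log X) → ∀ σ : Finset ℕ, σ.card ≤ k →
        ∑ s ∈ Icc 1 X, lam s * Real.exp (w * SW.YY w (SW.zB B X) σ s) ≤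
          X * Real.exp (8 * k + 8 + Real.log (Real.log X)) := by
  obtain ⟨X₂, hX₂⟩ := SW.ts6_ev (3 * C * C * (1 + B) + 1) 3
  refine ⟨X₂ + 1, fun X hX w k hw hwC hkC σ hσ => ?_⟩
  obtain ⟨hL1, hl1, hexp, hA⟩ := hX₂ X (by omega)
  set L : ℝ := Real.log (Real.log X) with hL
  obtain ⟨hz1, hzl⟩ := SW.ts6_zB B X hl1
  set z := SW.zB B X with hz
  have hX0 : (0 : ℝ) < X := by exact_mod_cast (by omega : 0 < X)
  have hk0 : (0 : ℝ) ≤ k := Nat.cast_nonneg _
  have hw' : (1 : ℝ) ≤ w := by exact_mod_cast hw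
  have he3 : Real.exp 1 ≤ 3 := by linarith [Real.exp_one_lt_d9]
  have hCL : 0 ≤ (C : ℝ) * L := by positivity
  have hmom := SW.ts7_moment w z X hw σ k (by exact_mod_cast hσ)
  have h1 : ∑ s ∈ Icc 1 X, lam s * Real.exp (w * SW.YY w z σ s) ≤
      Real.log X * ∑ s ∈ Icc 1 X, Real.exp (w * SW.YY w z σ s) := by
    rw [mul_sum]
    refine sum_le_sum fun s hs => ?_
    exact mul_le_mul_of_nonneg_right (ru1_lam_le hs) (Real.exp_pos _).le
  have hlogz : 0 ≤ 1 + Real.log z := by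
    have := Real.log_nonneg (show (1 : ℝ) ≤ z by exact_mod_cast hz1)
    linarith
  have h2 : Real.exp (k * (w * Real.exp 1 * (1 + Real.log z))) ≤ X := by
    have h3 : k * (w * Real.exp 1 * (1 + Real.log z)) ≤ Real.log X := by
      refine le_trans ?_ hA
      calc k * (w * Real.exp 1 * (1 + Real.log z)) ≤
            (C * L) * (((C * L) * 3) * ((1 + B) * L)) := by
            refine mul_le_mul hkC ?_ (by positivity) hCL
            refine mul_le_mul ?_ (by linarith) hlogz (by positivity)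
            exact mul_le_mul hwC (by linarith) (by positivity) hCL
        _ ≤ (3 * C * C * (1 + B) + 1) * L ^ 3 := by
            have : 0 ≤ L ^ 3 := by positivity
            linarith
    calc _ ≤ Real.exp (Real.log X) := Real.exp_le_exp.2 h3
      _ = X := Real.exp_log hX0
  have h3 : X * Real.exp (k * Real.exp 1) ≤ X * Real.exp (6 * k) := by
    refine mul_le_mul_of_nonneg_left (Real.exp_le_exp.2 ?_) hX0.le
    have := mul_le_mul_of_nonneg_left he3 hk0
    linarith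
  have e9 : (1 : ℝ) ≤ Real.exp (6 * k) := Real.one_le_exp (by positivity)
  have e8 : 2 * Real.exp (6 * k) ≤ Real.exp (8 * k + 8) := by
    rw [show (8 : ℝ) * k + 8 = 6 * k + (2 * k + 8) by ring, Real.exp_add, mul_comm]
    refine mul_le_mul_of_nonneg_left ?_ (Real.exp_pos _).le
    have := Real.add_one_le_exp (2 * (k : ℝ) + 8)
    linarith
  have f4 := mul_le_mul_of_nonneg_left e8 hX0.le
  have f5 := mul_le_mul_of_nonneg_left e9 hX0.le
  have h4 : ∑ s ∈ Icc 1 X, Real.exp (w * SW.YY w z σ s) ≤ X * Real.exp (8 * k + 8) := by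
    linarith
  rw [Real.exp_add _ L, hexp]
  calc _ ≤ Real.log X * ∑ s ∈ Icc 1 X, Real.exp (w * SW.YY w z σ s) := h1
    _ ≤ Real.log X * (X * Real.exp (8 * k + 8)) := mul_le_mul_of_nonneg_left h4 (by linarith)
    _ = _ := by ring

end Pool.Agent.Lib.MP_7b7e48_nt.RU
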