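import Pool.Agent.Lib.MP_7b7e48_nt.RU.RU6b

/-!
# RU-6: pairs of rough numbers in an admissible residue class

The `x ≤ N`, `x ≡ a mod W`, with `x` and `N - x` coprime to `primorial z'` are the `x = a + W j`, `j < L`,
`L = (N - a)/W + 1`, with `x % r ≠ 0`, `x % r ≠ N % r` for the primes `r ∈ (z, z']`; they are
counted by the Brun-Hooley sieve `GT.fund_lemma`.
-/

set_option autoImplicit false

open Finset Pool.Agent.Lib.GT Pool.Agent.Lib.GT.LA Pool.Agent.Lib.GT.Robust

namespace Pool.Agent.Lib.MP_7b7e48_nt.RU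

/-- the classes of `j` modulo `r` for which `r` divides `a + W j` or `N - (a + W j)` -/
def ru6Om (W a N r : ℕ) : Finset ℕ :=
  (range r).filter (fun j => (a + W * j) % r = 0 ∨ (a + W * j) % r = N % r)

theorem ru6_bij {W a r c : ℕ} (hr : r.Prime) (hW : W.Coprime r) (hc : c < r) :
    ((range r).filter (fun j => (a + W * j) % r = c)).card = 1 := by
  have : NeZero r := ⟨hr.pos.ne'⟩
  rw [Finset.card_eq_one]
  obtain ⟨u, hu⟩ : ∃ u : ZMod r, (W : ZMod r) * u = 1 := by
    have h := (ZMod.isUnit_iff_coprime W r).mpr hW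
    obtain ⟨v, hv⟩ := h
    exact ⟨↑v⁻¹, by rw [← hv]; exact v.mul_inv⟩
  refine ⟨((u * ((c : ZMod r) - (a : ZMod r)))).val, ?_⟩
  ext j
  rw [Finset.mem_filter, Finset.mem_range, Finset.mem_singleton]
  have hiff : (a + W * j) % r = c ↔ ((a + W * j : ℕ) : ZMod r) = (c : ZMod r) := by
    rw [ZMod.natCast_eq_natCast_iff', Nat.mod_eq_of_lt hc]
  constructor
  · rintro ⟨hj, h⟩
    rw [hiff] at h
    push_cast at h
    have h1 : (j : ZMod r) = u * ((c : ZMod r) - (a : ZMod r)) := by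
      rw [← h]
      calc (j : ZMod r) = (W * u) * j := by rw [hu, one_mul]
        _ = _ := by ring
    rw [← h1, ZMod.val_natCast, Nat.mod_eq_of_lt hj]
  · intro h
    refine ⟨by rw [h]; exact ZMod.val_lt _, ?_⟩
    rw [hiff]
    push_cast
    rw [h, ZMod.natCast_val, ZMod.cast_id']
    simp only [id]
    calc (a : ZMod r) + W * (u * ((c : ZMod r) - a)) = a + (W * u) * (c - a) := by ring
      _ = c := by rw [hu]; ring

theorem ru6_card {W a N r : ℕ} (hr : r.Prime) (hW : W.Coprime r) :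
    ((ru6Om W a N r).card : ℝ) = if r ∣ N then (1 : ℝ) else 2 := by
  classical
  unfold ru6Om
  have h0 := ru6_bij (a := a) hr hW hr.pos
  by_cases hN : r ∣ N
  · rw [if_pos hN, Nat.mod_eq_zero_of_dvd hN]
    simp only [or_self]
    rw [h0]
    norm_num
  · rw [if_neg hN]
    have hN' : N % r ≠ 0 := fun h => hN (Nat.dvd_of_mod_eq_zero h)
    have h1 := ru6_bij (a := a) hr hW (Nat.mod_lt N hr.pos)
    rw [Finset.filter_or, Finset.card_union_of_disjoint, h0, h1]
    · norm_num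
    · rw [Finset.disjoint_filter]
      intro j _ h2 h3
      rw [h2] at h3
      exact hN' h3.symm

theorem ru6_coprime_iff {n z : ℕ} : n.Coprime (primorial z) ↔ ∀ r, r.Prime → r ≤ z → n % r ≠ 0 := by
  constructor
  · intro h r hr hrz h0
    exact Nat.not_coprime_of_dvd_of_dvd hr.one_lt (Nat.dvd_of_mod_eq_zero h0)
      (hr.dvd_primorial_iff.mpr hrz) h
  · intro h
    by_contra hn
    obtain ⟨r, hr, h1, h2⟩ := Nat.Prime.not_coprime_iff_dvd.mp hn
    exact h r hr (hr.dvd_primorial_iff.mp h2) (Nat.mod_eq_zero_of_dvd h1)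

theorem ru6_sub_mod {N x r : ℕ} (hx : x ≤ N) : (N - x) % r = 0 ↔ x % r = N % r := by
  constructor
  · intro h
    exact ((Nat.modEq_iff_dvd' hx).mpr (Nat.dvd_of_mod_eq_zero h))
  · intro h
    exact Nat.mod_eq_zero_of_dvd ((Nat.modEq_iff_dvd' hx).mp h)

/-- the number of pairs as a sifted set -/
theorem ru6_count {z z' N a : ℕ} (hN : N % Wp z = 2 % Wp z) (ha : a ∈ adm z)
    (haN : a ≤ N) :
    ∑ x ∈ range (N + 1), (if x % Wp z = a then SW.rz z' x else 0) * SW.rz z' (N - x) =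
      (((range ((N - a) / Wp z + 1)).filter (fun j => ∀ r ∈ SW.pr z z',
        (0 + j) % r ∉ ru6Om (Wp z) a N r)).card : ℝ) := by
  classical
  have hWpos := Wp_pos z
  rw [mem_adm] at ha
  obtain ⟨haW, har⟩ := ha
  have h1 : ∑ x ∈ range (N + 1), (if x % Wp z = a then SW.rz z' x else 0) * SW.rz z' (N - x) =
      (((range (N + 1)).filter (fun x => x % Wp z = a ∧ x.Coprime (primorial z') ∧
        (N - x).Coprime (primorial z'))).card : ℝ) := by
    rw [Finset.card_filter]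
    push_cast
    refine Finset.sum_congr rfl fun x _ => ?_
    unfold SW.rz
    by_cases h1 : x % Wp z = a
    · by_cases h2 : x.Coprime (primorial z')
      · by_cases h3 : (N - x).Coprime (primorial z')
        · rw [if_pos h1, if_pos h2, if_pos h3, if_pos ⟨h1, h2, h3⟩, mul_one]
        · rw [if_pos h1, if_pos h2, if_neg h3, if_neg (fun h => h3 h.2.2), mul_zero]
      · rw [if_pos h1, if_neg h2, zero_mul, if_neg (fun h => h2 h.2.1)]
    · rw [if_neg h1, zero_mul, if_neg (fun h => h1 h.1)]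
  rw [h1]
  congr 1
  symm
  refine Finset.card_bij (fun j _ => a + Wp z * j) ?_ ?_ ?_
  · intro j hj
    rw [Finset.mem_filter, Finset.mem_range] at hj
    rw [Finset.mem_filter, Finset.mem_range]
    have hle : a + Wp z * j ≤ N := by
      have h2 : j ≤ (N - a) / Wp z := by omega
      have h3 : Wp z * j ≤ N - a := by
        calc Wp z * j ≤ Wp z * ((N - a) / Wp z) := Nat.mul_le_mul_left _ h2
          _ ≤ N - a := Nat.mul_div_le _ _
      omega
    refine ⟨by omega, ?_, ?_, ?_⟩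
    · rw [Nat.add_mul_mod_self_left, Nat.mod_eq_of_lt haW]
    · rw [ru6_coprime_iff]
      intro r hr hrz
      by_cases hrz' : r ≤ z
      · have h2 : r ∈ GT.pr z := mem_pr.mpr ⟨hrz', hr⟩
        obtain ⟨k, hk⟩ := dvd_Wp h2
        rw [hk, mul_assoc, Nat.add_mul_mod_self_left]
        exact (har r h2).1
      · have h2 := hj.2 r (SW.mem_pr.mpr ⟨by omega, hrz, hr⟩)
        intro h3
        apply h2
        unfold ru6Om
        rw [Finset.mem_filter, Finset.mem_range, zero_add]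
        refine ⟨Nat.mod_lt _ hr.pos, Or.inl ?_⟩
        rw [← h3]
        exact Nat.ModEq.add_left a ((Nat.mod_modEq j r).mul_left (Wp z))
    · rw [ru6_coprime_iff]
      intro r hr hrz
      rw [Ne, ru6_sub_mod hle]
      by_cases hrz' : r ≤ z
      · have h2 : r ∈ GT.pr z := mem_pr.mpr ⟨hrz', hr⟩
        have h4 : N % r = 2 % r := by
          have h7 := congrArg (· % r) hN
          simp only [Nat.mod_mod_of_dvd _ (dvd_Wp h2)] at h7
          exact h7
        obtain ⟨k, hk⟩ := dvd_Wp h2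
        rw [hk, mul_assoc, Nat.add_mul_mod_self_left, h4]
        exact (har r h2).2
      · have h2 := hj.2 r (SW.mem_pr.mpr ⟨by omega, hrz, hr⟩)
        intro h3
        apply h2
        unfold ru6Om
        rw [Finset.mem_filter, Finset.mem_range, zero_add]
        refine ⟨Nat.mod_lt _ hr.pos, Or.inr ?_⟩
        rw [← h3]
        exact Nat.ModEq.add_left a ((Nat.mod_modEq j r).mul_left (Wp z))
  · intro j _ j' _ h
    exact Nat.eq_of_mul_eq_mul_left hWpos (Nat.add_left_cancel h)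
  · intro x hx
    rw [Finset.mem_filter, Finset.mem_range] at hx
    obtain ⟨hxN, hxa, hx1, hx2⟩ := hx
    have hdec : a + Wp z * (x / Wp z) = x := by
      have := Nat.mod_add_div x (Wp z)
      rw [hxa] at this
      exact this
    refine ⟨x / Wp z, ?_, hdec⟩
    rw [Finset.mem_filter, Finset.mem_range]
    constructor
    · have h2 : Wp z * (x / Wp z) ≤ N - a := by omega
      have h3 : x / Wp z ≤ (N - a) / Wp z := by
        rw [Nat.le_div_iff_mul_le hWpos, mul_comm]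
        exact h2
      omega
    · intro r hr h2
      obtain ⟨_, hrz, hrp⟩ := SW.mem_pr.mp hr
      unfold ru6Om at h2
      rw [Finset.mem_filter, Finset.mem_range, zero_add] at h2
      have h3 : (a + Wp z * (x / Wp z % r)) % r = x % r := by
        conv_rhs => rw [← hdec]
        exact Nat.ModEq.add_left a ((Nat.mod_modEq (x / Wp z) r).mul_left (Wp z))
      rw [h3] at h2
      rcases h2.2 with h4 | h4
      · exact ru6_coprime_iff.mp hx1 r hrp hrz h4
      · exact ru6_coprime_iff.mp hx2 r hrp hrz ((ru6_sub_mod (by omega)).mpr h4)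

/-- a crude lower bound for the sieve product -/
theorem ru6_prod_lower {z z' N : ℕ} (hz : 2 ≤ z) (hz' : 2 ≤ z') :
    1 / (z' : ℝ) ^ 2 ≤ ∏ r ∈ SW.pr z z', (1 - (if r ∣ N then (1 : ℝ) else 2) / r) := by
  have h1 : ∏ r ∈ Icc 3 z', (1 - 2 / (r : ℝ)) ≤
      ∏ r ∈ SW.pr z z', (1 - (if r ∣ N then (1 : ℝ) else 2) / r) := by
    have hsub : SW.pr z z' ⊆ Icc 3 z' := by
      intro r hr
      obtain ⟨h1, h2, _⟩ := SW.mem_pr.mp hr
      rw [Finset.mem_Icc]
      omega
    have h2 : ∏ r ∈ Icc 3 z', (1 - 2 / (r : ℝ)) ≤ ∏ r ∈ SW.pr z z', (1 - 2 / (r : ℝ)) := by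
      rw [← Finset.prod_sdiff hsub]
      have h3 : ∏ r ∈ Icc 3 z' \ SW.pr z z', (1 - 2 / (r : ℝ)) ≤ 1 := by
        refine Finset.prod_le_one (fun r hr => ?_) (fun r hr => ?_)
        · rw [Finset.mem_sdiff, Finset.mem_Icc] at hr
          have h4 : (3 : ℝ) ≤ r := by exact_mod_cast hr.1.1
          rw [sub_nonneg, div_le_one (by linarith)]
          linarith
        · have : 0 ≤ 2 / (r : ℝ) := by positivity
          linarith
      refine mul_le_of_le_one_left (Finset.prod_nonneg fun r hr => ?_) h3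
      have h4 : (3 : ℝ) ≤ r := by exact_mod_cast (Finset.mem_Icc.mp (hsub hr)).1
      rw [sub_nonneg, div_le_one (by linarith)]
      linarith
    refine h2.trans (Finset.prod_le_prod (fun r hr => ?_) (fun r hr => ?_))
    · have h4 : (3 : ℝ) ≤ r := by exact_mod_cast (Finset.mem_Icc.mp (hsub hr)).1
      rw [sub_nonneg, div_le_one (by linarith)]
      linarith
    · have h4 : (3 : ℝ) ≤ r := by exact_mod_cast (Finset.mem_Icc.mp (hsub hr)).1
      split_ifs
      · have : 1 / (r : ℝ) ≤ 2 / r := by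
          apply div_le_div_of_nonneg_right _ (by linarith)
          norm_num
        linarith
      · exact le_rfl
  refine le_trans ?_ h1
  have h2 : ∀ n : ℕ, 2 ≤ n → ∏ r ∈ Icc 3 n, (1 - 2 / (r : ℝ)) = 2 / (n * (n - 1)) := by
    intro n hn
    induction n, hn using Nat.le_induction with
    | base => norm_num
    | succ n hn2 ih =>
      rw [← Finset.insert_Icc_right_eq_Icc_add_one (by omega), Finset.prod_insert (by
        rw [Finset.mem_Icc]; omega), ih]
      have hnR : (2 : ℝ) ≤ n := by exact_mod_cast hn2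
      have h3 : (n : ℝ) - 1 ≠ 0 := by linarith
      push_cast
      rw [add_sub_cancel_right]
      field_simp
      ring
  rw [h2 z' hz']
  have hzR : (2 : ℝ) ≤ z' := by exact_mod_cast hz'
  rw [div_le_div_iff₀ (by positivity) (mul_pos (by linarith) (by linarith))]
  nlinarith

/-- a power of the logarithm against the square root -/
theorem ru6_log (m : ℕ) {c : ℝ} (hc : 0 < c) : ∃ X₀ : ℕ, ∀ X : ℕ, X₀ ≤ X →
    2 ≤ Real.log X ∧ (Real.log X) ^ m ≤ c * Real.sqrt X := by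
  have h1 := ((isLittleO_log_rpow_rpow_atTop (m : ℝ) (show (0 : ℝ) < 1 / 2 by norm_num)).bound
    hc).and ((Real.tendsto_log_atTop.eventually_ge_atTop 2).and (Filter.eventually_ge_atTop 1))
  obtain ⟨X₀, hX₀⟩ := Filter.eventually_atTop.mp (tendsto_natCast_atTop_atTop.eventually h1)
  refine ⟨X₀, fun X hX => ?_⟩
  obtain ⟨h2, h3, h4⟩ := hX₀ X hX
  refine ⟨h3, ?_⟩
  rw [Real.rpow_natCast, Real.norm_of_nonneg (by positivity), ← Real.sqrt_eq_rpow,
    Real.norm_of_nonneg (Real.sqrt_nonneg _)] at h2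
  exact h2

theorem sieve_pairs (B : ℕ) (hB : 1 ≤ B) (κ : ℝ) (hκ : 0 < κ) : ∃ X₀ : ℕ, ∀ X : ℕ, X₀ ≤ X →
    ∀ z : ℕ, 2 ≤ z → (Wp z : ℝ) ≤ Real.log X → ∀ N : ℕ, X ≤ N ^ 2 →
      N % Wp z = 2 % Wp z → ∀ a ∈ adm z,
        |PZ (SW.zB B X) (Wp z) a N - N / Wp z * MT z (SW.zB B X) N| ≤
          κ * (N / Wp z * MT z (SW.zB B X) N) := by
  obtain ⟨K, hK1, hK⟩ := fund_lemma
  obtain ⟨b, hb1, hb⟩ : ∃ b : ℕ, 1 ≤ b ∧ (K : ℝ) * (1 / 2) ^ b * 2 ≤ κ / 4 := by
    have h1 : Filter.Tendsto (fun b : ℕ => (K : ℝ) * (1 / 2) ^ b * 2) Filter.atTop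
        (nhds (K * 0 * 2)) :=
      ((tendsto_pow_atTop_nhds_zero_of_lt_one (by norm_num) (by norm_num)).const_mul _).mul_const _
    rw [mul_zero, zero_mul] at h1
    obtain ⟨b, hb⟩ := Filter.eventually_atTop.mp
      (h1.eventually_le_const (show (0 : ℝ) < κ / 4 by positivity))
    exact ⟨max b 1, le_max_right _ _, hb _ (le_max_left _ _)⟩
  obtain ⟨X₁, hX₁⟩ := ru6_log (B * (K * b + 2) + 1) (show (0 : ℝ) < κ / 4 by positivity)
  obtain ⟨X₂, hX₂⟩ := ru6_log 1 (show (0 : ℝ) < 1 by norm_num)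
  refine ⟨max X₁ X₂, fun X hX z hz hW N hN hNmod a ha => ?_⟩
  obtain ⟨hL2, hXa⟩ := hX₁ X ((le_max_left _ _).trans hX)
  obtain ⟨_, hXb⟩ := hX₂ X ((le_max_right _ _).trans hX)
  rw [pow_one, one_mul] at hXb
  obtain ⟨L, hLdef⟩ : ∃ L : ℝ, L = Real.log X := ⟨_, rfl⟩
  rw [← hLdef] at hL2 hXa hXb hW
  have hWpos := Wp_pos z
  have hWR : (0 : ℝ) < Wp z := by exact_mod_cast hWpos
  have hNs : Real.sqrt X ≤ N := by
    rw [Real.sqrt_le_left (Nat.cast_nonneg _)]
    exact_mod_cast hN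
  -- `z ≤ z'`
  obtain ⟨z', hz'def⟩ : ∃ z' : ℕ, z' = SW.zB B X := ⟨_, rfl⟩
  rw [← hz'def]
  have hzz : z ≤ z' := by
    rw [hz'def]
    unfold SW.zB
    refine Nat.le_floor ?_
    rw [← hLdef]
    have h1 : (z : ℝ) ≤ Wp z := by exact_mod_cast le_Wp hz
    calc (z : ℝ) ≤ L := h1.trans hW
      _ = L ^ 1 := (pow_one L).symm
      _ ≤ L ^ B := pow_le_pow_right₀ (by linarith) hB
  have hz'L : (z' : ℝ) ≤ L ^ B := by
    rw [hz'def]
    unfold SW.zB
    rw [← hLdef]
    exact Nat.floor_le (by positivity)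
  have hz'2 : 2 ≤ z' := hz.trans hzz
  have hz'R : (2 : ℝ) ≤ z' := by exact_mod_cast hz'2
  have haW : a < Wp z := (mem_adm.mp ha).1
  have haN : a ≤ N := by
    have h1 : (a : ℝ) ≤ N := by
      have h2 : (a : ℝ) ≤ Wp z := by exact_mod_cast haW.le
      linarith
    exact_mod_cast h1
  -- the sieve
  have hcop : ∀ r ∈ SW.pr z z', (Wp z).Coprime r := by
    intro r hr
    obtain ⟨h1, _, h3⟩ := SW.mem_pr.mp hr
    unfold Wp
    refine Nat.Coprime.prod_left fun p hp => ?_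
    have hp' := mem_pr.mp hp
    exact (Nat.coprime_primes hp'.2 h3).mpr (by omega)
  have hcard : ∀ r ∈ SW.pr z z', ((ru6Om (Wp z) a N r).card : ℝ) = if r ∣ N then (1 : ℝ) else 2 :=
    fun r hr => ru6_card (SW.mem_pr.mp hr).2.2 (hcop r hr)
  have hs := hK b hb1 z' hz'2 (SW.pr z z')
    (fun r hr => ⟨(SW.mem_pr.mp hr).2.2, (SW.mem_pr.mp hr).2.1⟩) (ru6Om (Wp z) a N)
    (fun r hr => by
      have h1 := hcard r hr
      have h2 : (ru6Om (Wp z) a N r).card ≤ 2 := by
        have : ((ru6Om (Wp z) a N r).card : ℝ) ≤ 2 := by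
          rw [h1]; split_ifs <;> norm_num
        exact_mod_cast this
      have h3 : 2 < r := by
        have := (SW.mem_pr.mp hr).1
        omega
      refine ⟨h2, by omega, fun x hx => ?_⟩
      unfold ru6Om at hx
      exact Finset.mem_range.mp (Finset.mem_filter.mp hx).1) 0 ((N - a) / Wp z + 1)
  have hprod : ∏ r ∈ SW.pr z z', (1 - ((ru6Om (Wp z) a N r).card : ℝ) / r) =
      ∏ r ∈ SW.pr z z', (1 - (if r ∣ N then (1 : ℝ) else 2) / r) :=
    Finset.prod_congr rfl fun r hr => by rw [hcard r hr]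
  rw [hprod, ← ru6_count hNmod ha haN] at hs
  have hPl := ru6_prod_lower (N := N) hz hz'2
  unfold PZ MT
  obtain ⟨P, hP⟩ : ∃ P : ℝ, P = ∏ r ∈ SW.pr z z', (1 - (if r ∣ N then (1 : ℝ) else 2) / r) :=
    ⟨_, rfl⟩
  obtain ⟨c, hc⟩ : ∃ c : ℝ, c = ∑ x ∈ range (N + 1),
    (if x % Wp z = a then SW.rz z' x else 0) * SW.rz z' (N - x) := ⟨_, rfl⟩
  rw [← hP] at hs hPl ⊢
  rw [← hc] at hs ⊢
  have hP0 : 0 < P := lt_of_lt_of_le (by positivity) hPl
  obtain ⟨T, hT⟩ : ∃ T : ℝ, T = (N : ℝ) / Wp z := ⟨_, rfl⟩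
  rw [← hT]
  have hTlow : Real.sqrt X / L ≤ T := by
    rw [hT]
    exact div_le_div₀ (Nat.cast_nonneg _) hNs hWR hW
  have hL0 : 0 < L := by linarith
  have hT1 : 1 ≤ T := by
    refine le_trans ?_ hTlow
    rw [le_div_iff₀ hL0, one_mul]
    exact hXb
  -- `z' ^ (K b + 2) ≤ (κ/4) T`
  have hzpow : (z' : ℝ) ^ (K * b + 2) ≤ κ / 4 * T := by
    have h1 : (z' : ℝ) ^ (K * b + 2) ≤ L ^ (B * (K * b + 2)) := by
      rw [pow_mul]
      exact pow_le_pow_left₀ (by positivity) hz'L _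
    refine h1.trans ?_
    have h2 : L ^ (B * (K * b + 2)) * L ≤ κ / 4 * Real.sqrt X := by
      rw [← pow_succ]
      exact hXa
    calc L ^ (B * (K * b + 2)) ≤ κ / 4 * Real.sqrt X / L := by
          rw [le_div_iff₀ hL0]; exact h2
      _ = κ / 4 * (Real.sqrt X / L) := by ring
      _ ≤ κ / 4 * T := mul_le_mul_of_nonneg_left hTlow (by positivity)
  have hz1 : (z' : ℝ) ^ (K * b) ≤ κ / 4 * T * P := by
    have h1 : (z' : ℝ) ^ (K * b) = (z' : ℝ) ^ (K * b + 2) * (1 / (z' : ℝ) ^ 2) := by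
      rw [pow_add]
      field_simp
    rw [h1]
    exact mul_le_mul hzpow hPl (by positivity) (by positivity)
  have h1κ : 1 ≤ κ / 4 * T := by
    refine le_trans ?_ hzpow
    exact one_le_pow₀ (by linarith)
  -- `|L' - T| ≤ 1`
  have hLT : |(((N - a) / Wp z + 1 : ℕ) : ℝ) - T| ≤ 1 := by
    have h1 : (((N - a) / Wp z : ℕ) : ℝ) ≤ ((N - a : ℕ) : ℝ) / Wp z := Nat.cast_div_le
    have h2 : ((N - a : ℕ) : ℝ) / Wp z < (((N - a) / Wp z : ℕ) : ℝ) + 1 := by
      rw [div_lt_iff₀ hWR]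
      have h3 := Nat.lt_div_mul_add hWpos (a := N - a)
      have h4 : N - a < ((N - a) / Wp z + 1) * Wp z := by
        rw [add_mul, one_mul]; exact h3
      exact_mod_cast h4
    rw [Nat.cast_sub haN, sub_div] at h1 h2
    have h3 : (a : ℝ) / Wp z ≤ 1 := by
      rw [div_le_one hWR]
      exact_mod_cast haW.le
    have h4 : 0 ≤ (a : ℝ) / Wp z := by positivity
    rw [hT, abs_le]
    push_cast
    constructor <;> linarith
  obtain ⟨M, hM⟩ : ∃ M : ℝ, M = (((N - a) / Wp z + 1 : ℕ) : ℝ) := ⟨_, rfl⟩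
  rw [← hM] at hs hLT
  have hMT := abs_le.mp hLT
  have hmain : |c - T * P| ≤ κ * (T * P) := by
    have h1 : |c - T * P| ≤ |c - M * P| + |M * P - T * P| := by
      have := abs_sub_le c (M * P) (T * P)
      exact this
    have h2 : |M * P - T * P| ≤ P := by
      rw [← sub_mul, abs_mul, abs_of_pos hP0]
      exact mul_le_of_le_one_left hP0.le hLT
    have h3 : (K : ℝ) * (1 / 2) ^ b * (M * P) ≤ κ / 4 * (T * P) := by
      have h4 : M * P ≤ 2 * (T * P) := by
        have : M ≤ 2 * T := by linarith [hMT.2]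
        calc M * P ≤ 2 * T * P := mul_le_mul_of_nonneg_right this hP0.le
          _ = _ := by ring
      calc (K : ℝ) * (1 / 2) ^ b * (M * P) ≤ (K : ℝ) * (1 / 2) ^ b * (2 * (T * P)) :=
            mul_le_mul_of_nonneg_left h4 (by positivity)
        _ = (K : ℝ) * (1 / 2) ^ b * 2 * (T * P) := by ring
        _ ≤ _ := mul_le_mul_of_nonneg_right hb (by positivity)
    have h5 : P ≤ κ / 4 * (T * P) := by
      calc P = 1 * P := (one_mul P).symm
        _ ≤ κ / 4 * T * P := mul_le_mul_of_nonneg_right h1κ hP0.le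
        _ = _ := by ring
    have h6 : κ / 4 * T * P = κ / 4 * (T * P) := by ring
    have h7 : 0 ≤ T * P := by positivity
    rw [h6] at hz1
    have h8 : κ / 4 * (T * P) + κ / 4 * (T * P) + κ / 4 * (T * P) ≤ κ * (T * P) := by
      nlinarith
    linarith
  have hV0 : 0 ≤ (SW.Vz z') ^ 2 := sq_nonneg _
  have h1 : c / (SW.Vz z') ^ 2 - T * (P / (SW.Vz z') ^ 2) = (c - T * P) / (SW.Vz z') ^ 2 := by
    ring
  rw [h1, abs_div, abs_of_nonneg hV0]
  have h2 : κ * (T * (P / (SW.Vz z') ^ 2)) = κ * (T * P) / (SW.Vz z') ^ 2 := by ring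
  rw [h2]
  exact div_le_div_of_nonneg_right hmain hV0

end Pool.Agent.Lib.MP_7b7e48_nt.RU
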