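import Pool.Agent.Lib.MP_7b7e48_nt.RU.RU5b
import Pool.Agent.Lib.MP_7b7e48_nt.RU.RU6

/-!
# RU-7: Goldbach pairs are equidistributed among the admissible classes, uniformly

PROOF.  `pairs_transfer (K + 5)` at `2X`; `E` = `{n : 2n ∈ E₀} ∪ {n : n ≤ X/(2 (log X)^K)}`.  For `n ∉ E`, `N = 2n ≥ X/(log X)^K`, `N² ≥ 2X`; `z' = zB B (2X)`;
`κ'` small, `err = 2X/(log 2X)^(K+5)`.  For `z` as in the statement, `W = Wp z`, `M = (N/W) MT z z' N`, `(adm z).card · M ≥ 2 C2 N` (`MT_lower`), so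
`M ≥ 2 C2 N/W ≥ X/(log X)^(K+2)`, `W err ≤ κ' M`.  `RR N = ∑_{a < W} PL W a N ≤ #adm (1+κ') M + W err ≤ #adm (1+2κ') M` (`sieve_pairs`, `PZ_zero`),
`RT z T N = ∑_{a ∈ T} PL W a N ≥ #T (1 - 2κ') M`.  First part: `z = 2` (`W = 2`, `adm 2` has one element by `adm_card_prod`/`decide`): `RR N ≥ PL ≥ (1-2κ') (N/2) MT ≥ (1-2κ') 2 C2 N`.
(For `X` large `log (2X) ≥ log X ≥ Wp z`; `Wp 2 = 2`.)
-/

set_option autoImplicit false

open Finset Pool.Agent.Lib.GT Pool.Agent.Lib.GT.LA Pool.Agent.Lib.GT.Robust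

namespace Pool.Agent.Lib.MP_7b7e48_nt.RU

lemma ru7_RT (z N : ℕ) (T : Finset ℕ) : RT z T N = ∑ a ∈ T, PL (Wp z) a N := by
  unfold RT PL
  rw [Finset.sum_comm]
  refine Finset.sum_congr rfl fun x _ => ?_
  rw [← Finset.sum_mul, Finset.sum_ite_eq]

lemma ru7_RR (z N : ℕ) : RR N = ∑ a ∈ range (Wp z), PL (Wp z) a N := by
  rw [← ru7_RT]
  unfold RR RT
  refine Finset.sum_congr rfl fun x _ => ?_
  rw [if_pos (mem_range.2 (Nat.mod_lt _ (Wp_pos z)))]

lemma ru7_core {z N : ℕ} {M err κ : ℝ} (hadm : 1 ≤ (adm z).card)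
    (h1 : ∀ a ∈ adm z, (1 - κ) * M - err ≤ PL (Wp z) a N ∧ PL (Wp z) a N ≤ (1 + κ) * M + err)
    (h2 : ∀ a, a < Wp z → a ∉ adm z → PL (Wp z) a N ≤ err) (herr : 0 ≤ err)
    (h3 : Wp z * err ≤ κ * M) :
    RR N ≤ (adm z).card * ((1 + 2 * κ) * M) ∧
      ∀ T ⊆ adm z, T.card * ((1 - 2 * κ) * M) ≤ RT z T N := by
  have hW1 : (1 : ℝ) ≤ Wp z := by exact_mod_cast Wp_pos z
  have he : err ≤ κ * M := (le_mul_of_one_le_left herr hW1).trans h3
  have hκM : 0 ≤ κ * M := herr.trans he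
  constructor
  · rw [ru7_RR z N]
    have hpt : ∀ a ∈ range (Wp z),
        PL (Wp z) a N ≤ (if a ∈ adm z then (1 + κ) * M else 0) + err := by
      intro a ha
      split_ifs with h
      · exact (h1 a h).2
      · rw [zero_add]
        exact h2 a (mem_range.1 ha) h
    refine (Finset.sum_le_sum hpt).trans ?_
    rw [Finset.sum_add_distrib, Finset.sum_const, Finset.card_range, nsmul_eq_mul,
      ← Finset.sum_filter]
    have hf : (range (Wp z)).filter (fun a => a ∈ adm z) = adm z := by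
      ext a
      rw [mem_filter, mem_range]
      exact ⟨fun h => h.2, fun h => ⟨(mem_adm.1 h).1, h⟩⟩
    rw [hf, Finset.sum_const, nsmul_eq_mul]
    have hA : (1 : ℝ) ≤ (adm z).card := by exact_mod_cast hadm
    have h4 := mul_le_mul_of_nonneg_right hA hκM
    linarith
  · intro T hT
    rw [ru7_RT, ← nsmul_eq_mul]
    refine Finset.card_nsmul_le_sum _ _ _ fun a ha => ?_
    have := (h1 a (hT ha)).1
    linarith

lemma ru7_final {z N : ℕ} {M κ : ℝ} (hM : 0 ≤ M) (hκ0 : 0 < κ) (hκ1 : κ < 1)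
    (hadm : 1 ≤ (adm z).card) (h1 : RR N ≤ (adm z).card * ((1 + 2 * (κ / 4)) * M)) {T : Finset ℕ}
    (h2 : T.card * ((1 - 2 * (κ / 4)) * M) ≤ RT z T N) :
    (1 - κ) * ((T.card : ℝ) / (adm z).card) * RR N ≤ RT z T N := by
  have hA : (0 : ℝ) < (adm z).card := by exact_mod_cast hadm
  have hT : (0 : ℝ) ≤ T.card := Nat.cast_nonneg _
  have h3 : (1 - κ) * ((T.card : ℝ) / (adm z).card) * RR N ≤
      (1 - κ) * ((T.card : ℝ) / (adm z).card) * ((adm z).card * ((1 + 2 * (κ / 4)) * M)) :=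
    mul_le_mul_of_nonneg_left h1 (mul_nonneg (by linarith) (by positivity))
  have h4 : (1 - κ) * ((T.card : ℝ) / (adm z).card) * ((adm z).card * ((1 + 2 * (κ / 4)) * M)) =
      ((1 - κ) * (1 + 2 * (κ / 4))) * (T.card * M) := by
    field_simp
  have h5 : (1 - κ) * (1 + 2 * (κ / 4)) ≤ 1 - 2 * (κ / 4) := by nlinarith
  have h6 := mul_le_mul_of_nonneg_right h5 (mul_nonneg hT hM)
  rw [h4] at h3
  linarith

lemma ru7_RT_le (z N : ℕ) (T : Finset ℕ) : RT z T N ≤ RR N := by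
  unfold RT RR
  refine Finset.sum_le_sum fun x _ => ?_
  refine mul_le_mul_of_nonneg_right ?_ (lam_nonneg _)
  split_ifs
  · exact le_rfl
  · exact lam_nonneg _

lemma ru7_event (K : ℕ) (c : ℝ) : ∃ X₃ : ℕ, ∀ X : ℕ, X₃ ≤ X → c ≤ Real.log X ∧
    2 * (Real.log X) ^ (2 * K) ≤ X := by
  have ev1 : ∀ᶠ X : ℕ in Filter.atTop, c ≤ Real.log X :=
    (Real.tendsto_log_atTop.comp tendsto_natCast_atTop_atTop).eventually_ge_atTop _
  have ev2 : ∀ᶠ X : ℕ in Filter.atTop, 2 * (Real.log X) ^ (2 * K) ≤ X := by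
    have h1 := (Real.isLittleO_pow_log_id_atTop (n := 2 * K)).bound (c := 1 / 2) (by norm_num)
    have h2 := tendsto_natCast_atTop_atTop.eventually h1
    filter_upwards [h2, Filter.eventually_ge_atTop 1] with X hX hX1
    rw [Real.norm_eq_abs, Real.norm_eq_abs] at hX
    have h3 := (le_abs_self _).trans hX
    rw [id, abs_of_nonneg (Nat.cast_nonneg X)] at h3
    linarith
  obtain ⟨X₃, h⟩ := Filter.eventually_atTop.1 (ev1.and ev2)
  exact ⟨X₃, h⟩

theorem equi_uni (K : ℕ) (κ : ℝ) (hκ0 : 0 < κ) (hκ1 : κ < 1) : ∃ X₀ : ℕ, ∀ X : ℕ, X₀ ≤ X →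
    ∃ E : Finset ℕ, (E.card : ℝ) ≤ X / (Real.log X) ^ K ∧ ∀ n : ℕ, 1 ≤ n → n ≤ X → n ∉ E →
      (1 - κ) * (2 * C2) * (2 * n) ≤ RR (2 * n) ∧
      ∀ z : ℕ, 2 ≤ z → (Wp z : ℝ) ≤ Real.log X → (2 * n) % Wp z = 2 % Wp z → ∀ T ⊆ adm z,
        (1 - κ) * ((T.card : ℝ) / (adm z).card) * RR (2 * n) ≤ RT z T (2 * n) := by
  obtain ⟨B₀, hB₀⟩ := pairs_transfer (K + 5)
  obtain ⟨B, hB⟩ : ∃ B, B = max B₀ 1 := ⟨_, rfl⟩
  have hB1 : 1 ≤ B := by rw [hB]; exact le_max_right _ _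
  have hBB : B₀ ≤ B := by rw [hB]; exact le_max_left _ _
  obtain ⟨X₁, hX₁⟩ := hB₀ B hBB
  have hκ'0 : 0 < κ / 4 := by positivity
  obtain ⟨X₂, hX₂⟩ := sieve_pairs B hB1 (κ / 4) hκ'0
  obtain ⟨X₃, hX₃⟩ := ru7_event K (2 / (κ / 4) + 4)
  have hC2 := C2_pos
  have hC2h := half_le_C2
  refine ⟨X₁ + X₂ + X₃ + 3, fun X hX => ?_⟩
  obtain ⟨hL4, hXL⟩ := hX₃ X (by omega)
  obtain ⟨E₀, hE₀, hE₀'⟩ := hX₁ (2 * X) (by omega)
  have hsv := hX₂ (2 * X) (by omega)
  have hXR : (3 : ℝ) ≤ X := by exact_mod_cast (by omega : 3 ≤ X)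
  have hX0 : (0 : ℝ) < X := by linarith
  have hX2 : (((2 * X : ℕ) : ℕ) : ℝ) = 2 * (X : ℝ) := by push_cast; ring
  obtain ⟨L, hL⟩ : ∃ L, L = Real.log X := ⟨_, rfl⟩
  obtain ⟨L', hL'⟩ : ∃ L', L' = Real.log ((2 * X : ℕ) : ℝ) := ⟨_, rfl⟩
  have hLL : L ≤ L' := by
    rw [hL, hL', hX2]
    exact Real.log_le_log hX0 (by linarith)
  rw [← hL] at hL4 hXL ⊢
  rw [← hL'] at hE₀ hE₀' hsv
  have hκL : 2 ≤ κ / 4 * L := by
    have h1 : 2 / (κ / 4) ≤ L := by linarith
    rw [div_le_iff₀ hκ'0] at h1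
    linarith
  have hL1 : (4 : ℝ) ≤ L := by
    have : 0 ≤ 2 / (κ / 4) := by positivity
    linarith
  have hL0 : 0 < L := by linarith
  have hLK : 0 < L ^ K := pow_pos hL0 K
  obtain ⟨err, herr⟩ : ∃ err, err = ((2 * X : ℕ) : ℝ) / L' ^ (K + 5) := ⟨_, rfl⟩
  have herr0 : 0 ≤ err := by
    rw [herr]
    have : 0 < L' := by linarith
    positivity
  have herr1 : err ≤ 2 * X / L ^ (K + 5) := by
    rw [herr, hX2]
    exact div_le_div_of_nonneg_left (by positivity) (pow_pos hL0 _)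
      (pow_le_pow_left₀ hL0.le hLL _)
  rw [← herr] at hE₀ hE₀'
  obtain ⟨E, hE⟩ : ∃ E, E = (Icc 1 X).filter (fun n => 2 * n ∈ E₀) ∪
    Icc 1 ⌊(X : ℝ) / (2 * L ^ K)⌋₊ := ⟨_, rfl⟩
  refine ⟨E, ?_, ?_⟩
  · have h1 : ((Icc 1 X).filter (fun n => 2 * n ∈ E₀)).card ≤ E₀.card := by
      refine Finset.card_le_card_of_injOn (fun n => 2 * n) ?_ ?_
      · intro n hn
        exact (mem_filter.1 hn).2
      · intro a _ b _ hab
        have : 2 * a = 2 * b := hab
        omega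
    have h2 : (E.card : ℝ) ≤ E₀.card + (⌊(X : ℝ) / (2 * L ^ K)⌋₊ : ℕ) := by
      have h3 : E.card ≤ E₀.card + ⌊(X : ℝ) / (2 * L ^ K)⌋₊ := by
        rw [hE]
        refine (card_union_le _ _).trans ?_
        rw [Nat.card_Icc, Nat.add_sub_cancel]
        omega
      exact_mod_cast h3
    have h3 : ((⌊(X : ℝ) / (2 * L ^ K)⌋₊ : ℕ) : ℝ) ≤ X / (2 * L ^ K) :=
      Nat.floor_le (by positivity)
    have h4 : 2 * (X : ℝ) / L ^ (K + 5) ≤ X / (2 * L ^ K) := by
      rw [div_le_div_iff₀ (pow_pos hL0 _) (by positivity)]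
      have h5 : (4 : ℝ) ≤ L ^ 5 := by
        calc (4 : ℝ) ≤ L := hL1
          _ = L ^ 1 := (pow_one L).symm
          _ ≤ L ^ 5 := pow_le_pow_right₀ (by linarith) (by norm_num)
      have h6 := mul_le_mul_of_nonneg_left h5 (by positivity : 0 ≤ (X : ℝ) * L ^ K)
      calc 2 * (X : ℝ) * (2 * L ^ K) = X * L ^ K * 4 := by ring
        _ ≤ X * L ^ K * L ^ 5 := h6
        _ = X * L ^ (K + 5) := by ring
    have h5 : (X : ℝ) / L ^ K = X / (2 * L ^ K) + X / (2 * L ^ K) := by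
      field_simp
      norm_num
    rw [h5]
    linarith
  · intro n hn1 hnX hnE
    have hn0 : (0 : ℝ) < n := by exact_mod_cast hn1
    rw [hE, mem_union, not_or, mem_filter, mem_Icc, mem_Icc] at hnE
    obtain ⟨hnE1, hnE2⟩ := hnE
    have hNE : 2 * n ∉ E₀ := fun h => hnE1 ⟨⟨hn1, hnX⟩, h⟩
    have hnbig : (X : ℝ) / (2 * L ^ K) < n := by
      by_contra h
      push Not at h
      exact hnE2 ⟨hn1, Nat.le_floor h⟩
    have hNbig : (X : ℝ) / L ^ K ≤ ((2 * n : ℕ) : ℝ) := by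
      have h1 : (X : ℝ) / L ^ K = 2 * (X / (2 * L ^ K)) := by field_simp
      rw [h1]
      push_cast
      linarith
    have hN0 : (0 : ℝ) < ((2 * n : ℕ) : ℝ) := by
      push_cast
      linarith
    have hNsq : 2 * X ≤ (2 * n) ^ 2 := by
      have h1 : (X : ℝ) * (2 * L ^ (2 * K)) ≤ X * X := mul_le_mul_of_nonneg_left hXL hX0.le
      have h2 : ((X : ℝ) / L ^ K) ^ 2 ≤ ((2 * n : ℕ) : ℝ) ^ 2 :=
        pow_le_pow_left₀ (by positivity) hNbig 2
      have h3 : (2 * X : ℝ) ≤ (X / L ^ K) ^ 2 := by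
        rw [div_pow, le_div_iff₀ (by positivity), ← pow_mul, mul_comm K 2]
        linarith
      have h4 := h3.trans h2
      exact_mod_cast h4
    have key : ∀ z : ℕ, 2 ≤ z → (Wp z : ℝ) ≤ L → (2 * n) % Wp z = 2 % Wp z →
        ∃ M : ℝ, 0 ≤ M ∧ 1 ≤ (adm z).card ∧ 2 * C2 * ((2 * n : ℕ) : ℝ) ≤ (adm z).card * M ∧
          RR (2 * n) ≤ (adm z).card * ((1 + 2 * (κ / 4)) * M) ∧
          ∀ T ⊆ adm z, T.card * ((1 - 2 * (κ / 4)) * M) ≤ RT z T (2 * n) := by
      intro z hz hWL hmod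
      have hW1 : (1 : ℝ) ≤ Wp z := by exact_mod_cast Wp_pos z
      have hW0 : (0 : ℝ) < Wp z := by linarith
      have hWL' : (Wp z : ℝ) ≤ L' := hWL.trans hLL
      have hzz : z ≤ SW.zB B (2 * X) := by
        unfold SW.zB
        refine Nat.le_floor ?_
        rw [← hL']
        have h1 : (z : ℝ) ≤ Wp z := by exact_mod_cast le_Wp hz
        calc (z : ℝ) ≤ L' := h1.trans hWL'
          _ = L' ^ 1 := (pow_one _).symm
          _ ≤ L' ^ B := pow_le_pow_right₀ (by linarith) hB1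
      have hMT := MT_lower (N := 2 * n) hz hzz
      have hpos : 0 < 2 * C2 * Wp z := by positivity
      have hA0 : (0 : ℝ) < (adm z).card := by
        rcases Nat.eq_zero_or_pos (adm z).card with h | h
        · rw [h, Nat.cast_zero, zero_mul] at hMT
          linarith
        · exact_mod_cast h
      have hMT0 : 0 ≤ MT z (SW.zB B (2 * X)) (2 * n) := by
        by_contra h
        push Not at h
        have := mul_neg_of_pos_of_neg hA0 h
        linarith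
      obtain ⟨M, hM⟩ : ∃ M, M = ((2 * n : ℕ) : ℝ) / Wp z * MT z (SW.zB B (2 * X)) (2 * n) :=
        ⟨_, rfl⟩
      have hM0 : 0 ≤ M := by rw [hM]; positivity
      have hadm1 : 1 ≤ (adm z).card := by exact_mod_cast hA0
      have hAM : 2 * C2 * ((2 * n : ℕ) : ℝ) ≤ (adm z).card * M := by
        have h1 : (adm z).card * M = ((2 * n : ℕ) : ℝ) / Wp z *
            ((adm z).card * MT z (SW.zB B (2 * X)) (2 * n)) := by
          rw [hM]
          ring
        have h2 : 2 * C2 * ((2 * n : ℕ) : ℝ) = ((2 * n : ℕ) : ℝ) / Wp z * (2 * C2 * Wp z) := by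
          field_simp
        rw [h1, h2]
        exact mul_le_mul_of_nonneg_left hMT (by positivity)
      have hAW : ((adm z).card : ℝ) ≤ Wp z := by
        have h1 : (adm z).card ≤ (range (Wp z)).card := card_le_card (filter_subset _ _)
        rw [card_range] at h1
        exact_mod_cast h1
      have hWM : (X : ℝ) / L ^ K ≤ Wp z * M := by
        have h1 := mul_le_mul_of_nonneg_right hAW hM0
        have h2 : ((2 * n : ℕ) : ℝ) ≤ 2 * C2 * ((2 * n : ℕ) : ℝ) :=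
          le_mul_of_one_le_left hN0.le (by linarith)
        linarith
      have herr2 : Wp z * err ≤ κ / 4 * M := by
        refine le_of_mul_le_mul_left ?_ hW0
        have h1 : (Wp z : ℝ) * (Wp z * err) ≤ L * (L * (2 * X / L ^ (K + 5))) :=
          mul_le_mul hWL (mul_le_mul hWL herr1 herr0 hL0.le) (by positivity) hL0.le
        have h2 : L * (L * (2 * X / L ^ (K + 5))) ≤ κ / 4 * (X / L ^ K) := by
          have h3 : L ^ (K + 5) = L ^ K * L ^ 5 := pow_add _ _ _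
          have h4 : L * (L * (2 * X / L ^ (K + 5))) = 2 / L ^ 3 * (X / L ^ K) := by
            rw [h3]
            field_simp
          rw [h4]
          refine mul_le_mul_of_nonneg_right ?_ (by positivity)
          rw [div_le_iff₀ (by positivity)]
          have h5 : L ≤ L ^ 3 := le_self_pow₀ (by linarith) (by norm_num)
          have h6 := mul_le_mul_of_nonneg_left h5 hκ'0.le
          linarith
        have h3 := mul_le_mul_of_nonneg_left hWM hκ'0.le
        calc (Wp z : ℝ) * (Wp z * err) ≤ κ / 4 * (X / L ^ K) := h1.trans h2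
          _ ≤ κ / 4 * (Wp z * M) := h3
          _ = Wp z * (κ / 4 * M) := by ring
      have htr : ∀ a, a < Wp z →
          |PL (Wp z) a (2 * n) - PZ (SW.zB B (2 * X)) (Wp z) a (2 * n)| ≤ err := fun a ha =>
        hE₀' (2 * n) (by omega) (by omega) hNE (Wp z) a (Wp_pos z) hWL' ha
      refine ⟨M, hM0, hadm1, hAM, ru7_core hadm1 (fun a ha => ?_) (fun a ha ha' => ?_) herr0 herr2⟩
      · have h1 := abs_le.1 (htr a (mem_adm.1 ha).1)
        have h2 := hsv z hz hWL' (2 * n) hNsq hmod a ha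
        rw [← hM] at h2
        have h3 := abs_le.1 h2
        constructor
        · linarith [h1.1, h3.1]
        · linarith [h1.2, h3.2]
      · have h1 := abs_le.1 (htr a ha)
        rw [PZ_zero hz hzz hmod ha ha', sub_zero] at h1
        exact h1.2
    refine ⟨?_, fun z hz hWL hmod T hT => ?_⟩
    · have hW2 : Wp 2 = 2 := by
        have h1 := two_le_Wp (le_refl 2)
        have h2 : (Wp 2 : ℝ) ≤ 4 ^ 2 := Wp_le 2
        decide
      have h1 := key 2 le_rfl (by rw [hW2]; push_cast; linarith)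
        (by rw [hW2]; omega)
      obtain ⟨M, hM0, hadm1, hAM, -, hT⟩ := h1
      have h2 := hT (adm 2) (Finset.Subset.refl _)
      have h3 := ru7_RT_le 2 (2 * n) (adm 2)
      have h4 : (1 - κ) * (2 * C2) * (2 * n) ≤ (1 - 2 * (κ / 4)) * ((adm 2).card * M) := by
        have h5 : (1 - κ) * (2 * C2 * ((2 * n : ℕ) : ℝ)) ≤
            (1 - 2 * (κ / 4)) * (2 * C2 * ((2 * n : ℕ) : ℝ)) :=
          mul_le_mul_of_nonneg_right (by linarith) (by positivity)
        have h6 := mul_le_mul_of_nonneg_left hAM (by linarith : (0 : ℝ) ≤ 1 - 2 * (κ / 4))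
        push_cast at h5 h6
        linarith
      calc (1 - κ) * (2 * C2) * (2 * n) ≤ (1 - 2 * (κ / 4)) * ((adm 2).card * M) := h4
        _ = (adm 2).card * ((1 - 2 * (κ / 4)) * M) := by ring
        _ ≤ RR (2 * n) := h2.trans h3
    · obtain ⟨M, hM0, hadm1, -, hRR, hRT⟩ := key z hz hWL hmod
      exact ru7_final hM0 hκ0 hκ1 hadm1 hRR (hRT T hT)

end Pool.Agent.Lib.MP_7b7e48_nt.RU
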