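import Pool.Agent.Lib.MP_7b7e48_nt.RU.RU4
import Pool.Agent.Lib.MP_7b7e48_nt.RU.RU7

/-!
# RU-10: the upper bound on a block

Let `n ∈ ((1-κ) Y, Y]` be outside the exceptional sets of `upper_uni` (at `2 Y`, `N = 2 n`, `f = fB B Y`,
`m = (1+κ) (2 Y) (t kap - ε)/log H`) and of `equi_uni`.  Then `∑ f x lam (2n-x) ≤ (1+κ)² e^γ (2Y) (t kap - ε)`,
while `t reps n ≤ hits B n` gives by `conv_sharp` `∑ f x lam (2n-x) ≥ (1-κ)² (t/2) (1-κ) 2 C2 (2n) - a n`.
-/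

set_option autoImplicit false

open Finset Pool.Agent.Lib.GT Pool.Agent.Lib.GT.LA Pool.Agent.Lib.GT.Robust

namespace Pool.Agent.Lib.MP_7b7e48_nt.RU

/-- the mass of `fB B Y` up to `2 Y` -/
lemma ru10_mass {κ : ℝ} {y₀ : ℕ} (hy₀ : MassSharp κ y₀) {Y : ℕ} (hY : y₀ ≤ 2 * Y) (B : Set ℕ)
    {η : ℝ} (hη : 0 ≤ η) (hB : SpAt B η (2 * Y)) :
    ∑ x ∈ Icc 1 (2 * Y), fB B Y x ≤ η * ((1 + κ) * ((2 * Y : ℕ) : ℝ)) := by
  classical
  have h2 := hy₀ (2 * Y) hY η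
    ((Finset.Icc 1 (2 * Y)).filter (fun p => p.Prime ∧ p ∈ B)) hη
    (Finset.filter_subset _ _) (by unfold SpAt at hB; convert hB)
  refine le_trans ?_ h2
  rw [Finset.sum_filter]
  refine Finset.sum_le_sum fun x hx => ?_
  rw [Finset.mem_Icc] at hx
  have hlog := Real.log_natCast_nonneg x
  unfold fB lam
  split_ifs with h3 h4 h5 h6
  · exact le_rfl
  · exact absurd ⟨h4, h3.1⟩ h5
  · exact hlog
  · exact le_rfl
  · exact hlog
  · exact le_rfl

/-- the final numerical contradiction -/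
lemma ru10_final {t κ ε g Y n F R a : ℝ} (ht0 : 0 < t) (hκ0 : 0 < κ) (hκ1 : κ ≤ 1 / 10)
    (hg : 0 < g) (hc : 0 < t * (C2 / g) - ε)
    (hκε : 8 * κ * (t * C2) ≤ g * ε) (ha : a = 2 * κ * (1 - κ) ^ 3 * (t * C2))
    (hY : 0 < Y) (hn : (1 - κ) * Y < n)
    (hR : (1 - κ) * (2 * C2) * (2 * n) ≤ R)
    (hF1 : (1 - κ) ^ 2 * (t / 2) * R - a * n ≤ F)
    (hF2 : F ≤ (1 + κ) ^ 2 * g * (2 * Y) * (t * (C2 / g) - ε)) : False := by
  have hC2 := C2_pos
  have h1κ : 0 < 1 - κ := by linarith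
  have h1 : (1 - κ) ^ 2 * (t / 2) * ((1 - κ) * (2 * C2) * (2 * n)) ≤ (1 - κ) ^ 2 * (t / 2) * R :=
    mul_le_mul_of_nonneg_left hR (by positivity)
  have h2 : (1 - κ) ^ 2 * (t / 2) * ((1 - κ) * (2 * C2) * (2 * n)) - a * n =
      2 * (1 - κ) ^ 4 * (t * C2) * n := by
    rw [ha]; ring
  have h3 : 2 * (1 - κ) ^ 4 * (t * C2) * ((1 - κ) * Y) < 2 * (1 - κ) ^ 4 * (t * C2) * n :=
    mul_lt_mul_of_pos_left hn (by positivity)
  have h4 : (1 + κ) ^ 2 * g * (2 * Y) * (t * (C2 / g) - ε) =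
      2 * Y * ((1 + κ) ^ 2 * (t * C2 - g * ε)) := by
    field_simp
  have h5 : 2 * Y * ((1 - κ) ^ 5 * (t * C2)) < 2 * Y * ((1 + κ) ^ 2 * (t * C2 - g * ε)) := by
    have e : 2 * (1 - κ) ^ 4 * (t * C2) * ((1 - κ) * Y) = 2 * Y * ((1 - κ) ^ 5 * (t * C2)) := by
      ring
    rw [e] at h3
    rw [h4] at hF2
    linarith
  have h6 : (1 - κ) ^ 5 * (t * C2) < (1 + κ) ^ 2 * (t * C2 - g * ε) :=
    lt_of_mul_lt_mul_left h5 (by positivity)
  have hb : 1 - 5 * κ ≤ (1 - κ) ^ 5 := by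
    have e1 : 1 + (5 : ℕ) * (-κ) = 1 - 5 * κ := by push_cast; ring
    have e2 : (1 + (-κ)) ^ 5 = (1 - κ) ^ 5 := by ring
    have := one_add_mul_le_pow (show (-2 : ℝ) ≤ -κ by linarith) 5
    rw [e1, e2] at this
    exact this
  have hb2 : (1 + κ) ^ 2 ≤ 1 + 3 * κ := by nlinarith
  have hX : 0 < t * C2 - g * ε := by
    have e : t * C2 - g * ε = g * (t * (C2 / g) - ε) := by field_simp
    rw [e]
    positivity
  have hP : 0 < t * C2 := by positivity
  have h7 : (1 - 5 * κ) * (t * C2) ≤ (1 - κ) ^ 5 * (t * C2) := mul_le_mul_of_nonneg_right hb hP.le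
  have h8 : (1 + κ) ^ 2 * (t * C2 - g * ε) ≤ (1 + 3 * κ) * (t * C2 - g * ε) :=
    mul_le_mul_of_nonneg_right hb2 hX.le
  have h9 : 0 < κ * (g * ε) := by
    have : 0 < g * ε := lt_of_lt_of_le (by positivity) hκε
    positivity
  nlinarith

theorem block_uni (K : ℕ) (hK : 1 ≤ K) (t : ℝ) (ht0 : 0 < t) (ht1 : t ≤ 1) (ε : ℝ) (hε : 0 < ε) :
    ∃ ρ : ℝ, 0 < ρ ∧ ρ < 1 ∧ ∃ H₀ : ℝ, ∃ Y₀ : ℕ, ∀ Y : ℕ, Y₀ ≤ Y → ∀ H : ℝ, H₀ ≤ H →
      H ≤ K * Real.log (Real.log Y) → ∀ (B : Set ℕ) (η : ℝ), 0 < η →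
        η * Real.log H ≤ t * kap - ε → SpAt B η (2 * Y) →
          (((Finset.Icc 1 Y).filter (fun n : ℕ => (1 - ρ) * Y < n ∧
            t * reps n ≤ hits B n)).card : ℝ) ≤ 3 * Y * Real.exp (-H) := by
  classical
  have hC2 := C2_pos
  obtain ⟨g, hgdef⟩ : ∃ g, g = Real.exp Real.eulerMascheroniConstant := ⟨_, rfl⟩
  have hg : 0 < g := by rw [hgdef]; exact Real.exp_pos _
  have hkap : kap = C2 / g := by
    unfold kap
    rw [Real.exp_neg, ← hgdef, div_eq_mul_inv]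
  rcases le_or_gt (t * kap - ε) 0 with hc | hc
  · refine ⟨1 / 2, by norm_num, by norm_num, 2, 0, fun Y _ H hH _ B η hη hηH _ => ?_⟩
    exfalso
    have : 0 < Real.log H := Real.log_pos (by linarith)
    have := mul_pos hη this
    linarith
  obtain ⟨κ, hκdef⟩ : ∃ κ, κ = min (1 / 10) (g * ε / (8 * (t * C2))) := ⟨_, rfl⟩
  have hκ0 : 0 < κ := by rw [hκdef]; positivity
  have hκ1 : κ ≤ 1 / 10 := by rw [hκdef]; exact min_le_left _ _
  have hκε : 8 * κ * (t * C2) ≤ g * ε := by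
    have h1 : κ ≤ g * ε / (8 * (t * C2)) := by rw [hκdef]; exact min_le_right _ _
    rw [le_div_iff₀ (by positivity)] at h1
    linarith
  obtain ⟨a, ha⟩ : ∃ a, a = 2 * κ * (1 - κ) ^ 3 * (t * C2) := ⟨_, rfl⟩
  have h1κ : 0 < 1 - κ := by linarith
  have ha0 : 0 < a := by rw [ha]; positivity
  obtain ⟨H₁, X₁, hup⟩ := upper_uni K hK κ hκ0
  obtain ⟨X₂, heq⟩ := equi_uni K κ hκ0 (by linarith)
  obtain ⟨y₀, hy₀⟩ := mass_sharp hκ0
  obtain ⟨N₀, hN₀⟩ := conv_sharp hκ0 (by linarith) ha0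
  refine ⟨κ, hκ0, by linarith, max H₁ (max 2 (2 / (t * kap - ε))),
    X₁ + X₂ + y₀ + 2 * N₀ + 3, fun Y hY H hH hHK B η hη hηH hB => ?_⟩
  have hH₁ : H₁ ≤ H := (le_max_left _ _).trans hH
  have hH2 : 2 ≤ H := ((le_max_left _ _).trans (le_max_right _ _)).trans hH
  have hHc : 2 / (t * kap - ε) ≤ H := ((le_max_right _ _).trans (le_max_right _ _)).trans hH
  have hY3 : 3 ≤ Y := by omega
  have hYR : (3 : ℝ) ≤ Y := by exact_mod_cast hY3
  have hY0 : (0 : ℝ) < Y := by linarith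
  have hlogH : 0 < Real.log H := Real.log_pos (by linarith)
  have hlogY : 1 < Real.log Y := by
    rw [Real.lt_log_iff_exp_lt hY0]
    have := Real.exp_one_lt_d9
    linarith
  -- the parameter `m`
  obtain ⟨m, hm⟩ : ∃ m, m = (1 + κ) * (2 * Y) * (t * kap - ε) / Real.log H := ⟨_, rfl⟩
  have hmass : ∑ s ∈ Icc 1 (2 * Y), fB B Y s ≤ m := by
    refine (ru10_mass hy₀ (by omega) B hη.le hB).trans ?_
    rw [hm, le_div_iff₀ hlogH]
    push_cast
    have h1 : (1 + κ) * (2 * (Y : ℝ)) * (η * Real.log H) ≤ (1 + κ) * (2 * Y) * (t * kap - ε) :=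
      mul_le_mul_of_nonneg_left hηH (by positivity)
    linarith
  have hHm : ((2 * Y : ℕ) : ℝ) * Real.exp (-H) ≤ m := by
    rw [hm, le_div_iff₀ hlogH]
    push_cast
    have h1 : Real.log H ≤ H := (Real.log_le_sub_one_of_pos (by linarith)).trans (by linarith)
    have h2 : H * Real.exp (-H) ≤ t * kap - ε := by
      have h3 : H ^ 2 / 2 ≤ Real.exp H := by
        have := Real.quadratic_le_exp_of_nonneg (show 0 ≤ H by linarith)
        nlinarith
      rw [Real.exp_neg, ← div_eq_mul_inv, div_le_iff₀ (Real.exp_pos H)]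
      rw [div_le_iff₀ hc] at hHc
      have h4 : (t * kap - ε) * (H ^ 2 / 2) ≤ (t * kap - ε) * Real.exp H :=
        mul_le_mul_of_nonneg_left h3 hc.le
      nlinarith
    have h3 : Real.exp (-H) * Real.log H ≤ t * kap - ε := by
      refine le_trans ?_ h2
      rw [mul_comm H]
      exact mul_le_mul_of_nonneg_left h1 (Real.exp_pos _).le
    calc 2 * (Y : ℝ) * Real.exp (-H) * Real.log H
        = (2 * Y) * (Real.exp (-H) * Real.log H) := by ring
      _ ≤ (2 * Y) * (t * kap - ε) := mul_le_mul_of_nonneg_left h3 (by positivity)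
      _ ≤ (1 + κ) * ((2 * Y) * (t * kap - ε)) := by
          have h5 : 0 ≤ κ * ((2 * Y) * (t * kap - ε)) := by positivity
          linarith
      _ = _ := by ring
  have hloglog : Real.log (Real.log (Y : ℝ)) ≤ Real.log (Real.log ((2 * Y : ℕ) : ℝ)) := by
    apply Real.log_le_log (by linarith)
    apply Real.log_le_log hY0
    push_cast
    linarith
  have hup' := hup (2 * Y) (by omega) H hH₁
    (hHK.trans (mul_le_mul_of_nonneg_left hloglog (Nat.cast_nonneg K))) (fB B Y) m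
    (fun s => ⟨fB_nonneg B Y s, fB_le B Y s⟩) (fun s hs => fB_supp B Y s hs) hmass hHm
  obtain ⟨E, hEcard, hE⟩ := heq Y (by omega)
  have hEcard' : (E.card : ℝ) ≤ Y * Real.exp (-H) := by
    refine hEcard.trans ?_
    rw [div_eq_mul_inv]
    apply mul_le_mul_of_nonneg_left _ hY0.le
    rw [Real.exp_neg]
    apply inv_anti₀ (Real.exp_pos _)
    have h1 : Real.exp H ≤ Real.exp (K * Real.log (Real.log Y)) := Real.exp_le_exp.mpr hHK
    rw [Real.exp_nat_mul, Real.exp_log (by linarith)] at h1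
    exact h1
  -- the covering
  obtain ⟨Bd, hBd⟩ : ∃ Bd : Finset ℕ, Bd = (Icc 1 (2 * Y)).filter (fun N =>
        (1 + κ) * Real.exp Real.eulerMascheroniConstant * Real.log H * m <
          ∑ x ∈ range (N + 1), fB B Y x * lam (N - x)) := ⟨_, rfl⟩
  have hBdcard : (Bd.card : ℝ) ≤ ((2 * Y : ℕ) : ℝ) * Real.exp (-H) := by
    rw [hBd]
    convert hup'
  obtain ⟨S, hS⟩ : ∃ S : Finset ℕ, S = (Finset.Icc 1 Y).filter (fun n : ℕ => (1 - κ) * Y < n ∧
            t * reps n ≤ hits B n) := ⟨_, rfl⟩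
  have hcover : S \ E ⊆ (S \ E) ∧ ((S \ E).image (fun n => 2 * n)) ⊆ Bd := by
    refine ⟨subset_rfl, fun N hN => ?_⟩
    rw [Finset.mem_image] at hN
    obtain ⟨n, hn, rfl⟩ := hN
    rw [Finset.mem_sdiff, hS, Finset.mem_filter, Finset.mem_Icc] at hn
    obtain ⟨⟨⟨hn1, hnY⟩, hnκ, hth⟩, hnE⟩ := hn
    rw [hBd, Finset.mem_filter, Finset.mem_Icc]
    refine ⟨by omega, ?_⟩
    by_contra hcon
    rw [not_lt] at hcon
    obtain ⟨hR, -⟩ := hE n hn1 hnY hnE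
    have hnN : N₀ ≤ n := by
      have h1 : (2 * N₀ : ℝ) ≤ Y := by exact_mod_cast (by omega : 2 * N₀ ≤ Y)
      have h2 : (N₀ : ℝ) < n := by nlinarith
      exact_mod_cast h2.le
    have hF1 := hN₀ n Y hnN hnY t B ht0 ht1 hth
    refine ru10_final (F := ∑ x ∈ range (2 * n + 1), fB B Y x * lam (2 * n - x))
      (R := RR (2 * n)) ht0 hκ0 hκ1 hg (by rw [← hkap]; exact hc) hκε ha hY0 hnκ hR hF1 ?_
    refine hcon.trans (le_of_eq ?_)
    rw [← hkap, ← hgdef, hm]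
    field_simp
  have hcardS : S.card ≤ E.card + Bd.card := by
    have h1 := Finset.card_le_card hcover.2
    rw [Finset.card_image_of_injective _ (fun x y hxy => by
      have hxy' : 2 * x = 2 * y := hxy
      omega)] at h1
    have h2 := Finset.card_sdiff_add_card_inter S E
    have h3 := Finset.card_le_card (Finset.inter_subset_right (s₁ := S) (s₂ := E))
    omega
  have hfin : (S.card : ℝ) ≤ 3 * Y * Real.exp (-H) := by
    have h1 : (S.card : ℝ) ≤ E.card + Bd.card := by exact_mod_cast hcardS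
    push_cast at hBdcard
    linarith
  rw [hS] at hfin
  convert hfin

end Pool.Agent.Lib.MP_7b7e48_nt.RU
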