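import Pool.Agent.Lib.MP_7b7e48_nt.RU.RU9
import Pool.Agent.Lib.MP_7b7e48_nt.RU.RU10

/-!
RU-11: the upper bound

PROOF.  By monotonicity in `ε` assume `ε ≤ t kap/2` (replace `ε` by `min ε (t kap/2)`).  `K = ⌈A⌉ + 4`; `block_uni K t (ε/2)` gives `ρ, H₀, Y₀`.
`H = min (exp ((t kap - ε/2)/η)) ((⌈A⌉ + 3) log log X)`: `η log H ≤ t kap - ε/2`; `H ≥ H₀` for `η ≤ η₀`, `X ≥ X₀`; for `Y ≥ Y₁ = X/(log X)^(A+1)` (so `Y ≥ √X`), `H ≤ K log log Y`.
With `c(Y)` the number of bad `n ≤ Y`: `c(Y) ≤ c(⌊(1-ρ) Y⌋) + 3 Y exp (-H)` for `Y ≥ Y₁` (hypothesis at `2Y`: `X ≤ (2Y)²`, `2Y ≤ 2X`), and `c(Y) ≤ Y ≤ Y₁` for `Y ≤ Y₁`, so by strong induction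
`c(Y) ≤ Y₁ + 3 Y exp (-H)/ρ`.  `exp (-H) = max (exp (-exp ((t kap - ε/2)/η))) ((log X)^(-(⌈A⌉+3)))`, and
`(6/ρ) exp (-exp ((t kap - ε/2)/η)) ≤ exp (-exp ((t kap - ε)/η))` for `η ≤ η₀` since `exp ((t kap - ε/2)/η) ≥ exp ((t kap - ε)/η) + exp (ε/(2η)) - 1`.
-/

set_option autoImplicit false

open Finset Pool.Agent.Lib.GT Pool.Agent.Lib.GT.LA Pool.Agent.Lib.GT.Robust

namespace Pool.Agent.Lib.MP_7b7e48_nt.RU

/-- number of `n ≤ Y` which lose the proportion `t` of their representations -/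
noncomputable def ru11_c (t : ℝ) (B : Set ℕ) (Y : ℕ) : ℝ :=
  (((Finset.Icc 1 Y).filter (fun n => t * reps n ≤ hits B n)).card : ℝ)

lemma ru11_c_le (t : ℝ) (B : Set ℕ) (Y : ℕ) : ru11_c t B Y ≤ Y := by
  unfold ru11_c
  have h := card_filter_le (Finset.Icc 1 Y) (fun n => t * reps n ≤ hits B n)
  rw [Nat.card_Icc, Nat.add_sub_cancel] at h
  exact_mod_cast h

lemma ru11_split (t ρ : ℝ) (B : Set ℕ) (Y Y' : ℕ) (hY' : (1 - ρ) * Y < Y' + 1) :
    ru11_c t B Y ≤ ru11_c t B Y' + (((Finset.Icc 1 Y).filter (fun n : ℕ => (1 - ρ) * Y < n ∧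
            t * reps n ≤ hits B n)).card : ℝ) := by
  classical
  unfold ru11_c
  have h : (Finset.Icc 1 Y).filter (fun n => t * reps n ≤ hits B n) ⊆
      (Finset.Icc 1 Y').filter (fun n => t * reps n ≤ hits B n) ∪
      (Finset.Icc 1 Y).filter (fun n : ℕ => (1 - ρ) * Y < n ∧ t * reps n ≤ hits B n) := by
    intro n hn
    obtain ⟨h1, h2⟩ := mem_filter.1 hn
    rw [mem_Icc] at h1
    by_cases h3 : n ≤ Y'
    · exact mem_union_left _ (mem_filter.2 ⟨mem_Icc.2 ⟨h1.1, h3⟩, h2⟩)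
    · refine mem_union_right _ (mem_filter.2 ⟨mem_Icc.2 h1, ?_, h2⟩)
      have h4 : (Y' : ℝ) + 1 ≤ n := by
        have : Y' + 1 ≤ n := by omega
        exact_mod_cast this
      linarith
  have h1 := (card_le_card h).trans (card_union_le _ _)
  exact_mod_cast h1

/-- the recursion over the blocks -/
lemma ru11_rec (t : ℝ) (B : Set ℕ) (ρ : ℝ) (hρ : 0 < ρ) (hρ1 : ρ < 1) (Y₁ E : ℝ) (hY₁ : 0 ≤ Y₁)
    (hE : 0 ≤ E) (X : ℕ)
    (hb : ∀ Y : ℕ, Y₁ < Y → Y ≤ X → (((Finset.Icc 1 Y).filter (fun n : ℕ => (1 - ρ) * Y < n ∧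
            t * reps n ≤ hits B n)).card : ℝ) ≤ 3 * Y * E) :
    ∀ Y : ℕ, Y ≤ X → ru11_c t B Y ≤ Y₁ + 3 * Y * E / ρ := by
  intro Y
  induction Y using Nat.strong_induction_on with
  | _ Y ih =>
    intro hYX
    by_cases hY : Y₁ < Y
    · have hY0 : (0 : ℝ) < Y := lt_of_le_of_lt hY₁ hY
      obtain ⟨Y', hY'⟩ : ∃ Y' : ℕ, Y' = ⌊(1 - ρ) * Y⌋₊ := ⟨_, rfl⟩
      have h0 : 0 ≤ (1 - ρ) * Y := mul_nonneg (by linarith) hY0.le
      have h1 : (Y' : ℝ) ≤ (1 - ρ) * Y := by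
        rw [hY']
        exact Nat.floor_le h0
      have h2 : (1 - ρ) * Y < (Y' : ℝ) + 1 := by
        rw [hY']
        exact Nat.lt_floor_add_one _
      have h3 : (Y' : ℝ) < Y := by nlinarith
      have h3' : Y' < Y := by exact_mod_cast h3
      have h4 := ih Y' h3' (h3'.le.trans hYX)
      have h5 := ru11_split t ρ B Y Y' h2
      have h6 := hb Y hY hYX
      have h7 : 3 * (Y' : ℝ) * E / ρ ≤ 3 * ((1 - ρ) * Y) * E / ρ := by
        refine div_le_div_of_nonneg_right ?_ hρ.le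
        refine mul_le_mul_of_nonneg_right ?_ hE
        linarith
      have h8 : 3 * ((1 - ρ) * Y) * E / ρ + 3 * Y * E = 3 * Y * E / ρ := by
        field_simp
        ring
      linarith
    · have h1 := ru11_c_le t B Y
      have h2 : 0 ≤ 3 * (Y : ℝ) * E / ρ := by positivity
      have h3 : (Y : ℝ) ≤ Y₁ := not_lt.1 hY
      linarith

/-- the final comparison of the exponentials -/
lemma ru11_exp (c ε η M : ℝ) (hc : 0 ≤ c) (hη : 0 < η) (hM : 0 < M) (hM1 : 0 ≤ Real.log M)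
    (h : η * (2 * Real.log M) ≤ ε) :
    M * Real.exp (-Real.exp ((c + ε / 2) / η)) ≤ Real.exp (-Real.exp (c / η)) := by
  have h1 : (c + ε / 2) / η = c / η + ε / (2 * η) := by
    field_simp
  have h2 : Real.log M ≤ ε / (2 * η) := by
    rw [le_div_iff₀ (by positivity)]
    linarith
  have h3 : 1 ≤ Real.exp (c / η) := Real.one_le_exp (by positivity)
  have h4 : ε / (2 * η) + 1 ≤ Real.exp (ε / (2 * η)) := Real.add_one_le_exp _
  have h5 : Real.exp (c / η) + Real.log M ≤ Real.exp ((c + ε / 2) / η) := by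
    rw [h1, Real.exp_add]
    have h6 : 0 ≤ ε / (2 * η) := hM1.trans h2
    nlinarith
  calc M * Real.exp (-Real.exp ((c + ε / 2) / η))
      = Real.exp (Real.log M) * Real.exp (-Real.exp ((c + ε / 2) / η)) := by
        rw [Real.exp_log hM]
    _ = Real.exp (Real.log M + -Real.exp ((c + ε / 2) / η)) := (Real.exp_add _ _).symm
    _ ≤ Real.exp (-Real.exp (c / η)) := Real.exp_le_exp.2 (by linarith)

lemma ru11_small (t : ℝ) (ht0 : 0 < t) (ht1 : t ≤ 1) (ε : ℝ) (hε : 0 < ε)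
    (hεt : ε ≤ t * kap / 2) (A : ℝ) (hA : 0 < A) :
    ∃ η₀ : ℝ, 0 < η₀ ∧ ∃ X₀ : ℕ, ∀ η : ℝ, 0 < η → η ≤ η₀ → ∀ X : ℕ, X₀ ≤ X → ∀ B : Set ℕ,
      (∀ y : ℕ, X ≤ y ^ 2 → y ≤ 2 * X → SpAt B η y) →
        (((Finset.Icc 1 X).filter (fun n => t * reps n ≤ hits B n)).card : ℝ) ≤
          max (Real.exp (-Real.exp ((t * kap - ε) / η))) ((Real.log X) ^ (-A)) * X := by
  have hkap := kap_pos
  obtain ⟨a, ha⟩ : ∃ a : ℕ, a = ⌈A⌉₊ := ⟨_, rfl⟩
  have haA : A ≤ a := by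
    rw [ha]
    exact Nat.le_ceil A
  obtain ⟨ρ, hρ, hρ1, H₀, Y₀, hblock⟩ := block_uni (a + 4) (by omega) t ht0 ht1 (ε / 2) (by linarith)
  obtain ⟨M, hM⟩ : ∃ M : ℝ, M = 6 / ρ := ⟨_, rfl⟩
  have hM0 : 0 < M := by
    rw [hM]
    positivity
  have hM6 : 6 ≤ M := by
    rw [hM, le_div_iff₀ hρ]
    linarith
  have hlogM : 0 < Real.log M := Real.log_pos (by linarith)
  have hc' : 0 < t * kap - ε / 2 := by
    have : 0 < t * kap := mul_pos ht0 hkap
    linarith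
  refine ⟨min ((t * kap - ε / 2) / (max H₀ 1)) (ε / (2 * Real.log M)),
    lt_min (by positivity) (by positivity), ?_⟩
  -- large X
  have hcast : Filter.Tendsto (fun X : ℕ => (X : ℝ)) Filter.atTop Filter.atTop :=
    tendsto_natCast_atTop_atTop
  have hro : ∀ᶠ X : ℕ in Filter.atTop, (Real.log X) ^ (A + 1) ≤ (X : ℝ) ^ (1 / 2 : ℝ) := by
    have h1 := (isLittleO_log_rpow_rpow_atTop (A + 1) (by norm_num : (0 : ℝ) < 1 / 2)).def one_pos
    have h2 := hcast.eventually h1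
    filter_upwards [h2, SW.ev_log 0] with X hX hL
    rw [one_mul, Real.norm_of_nonneg (Real.rpow_nonneg hL _),
      Real.norm_of_nonneg (Real.rpow_nonneg (Nat.cast_nonneg _) _)] at hX
    exact hX
  obtain ⟨X₀, hX₀⟩ := Filter.eventually_atTop.1 (hro.and ((SW.ev_log (max 2 M)).and
    ((SW.tendsto_loglog.eventually_ge_atTop (max 1 (max H₀ (((a : ℝ) + 4) * Real.log 2)))).and
      (Filter.eventually_ge_atTop (max 3 (Y₀ ^ 2))))))
  refine ⟨X₀, fun η hη hηle X hX B hB => ?_⟩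
  obtain ⟨k1, k2, k3, k4⟩ := hX₀ X hX
  have k2a : 2 ≤ Real.log X := (le_max_left _ _).trans k2
  have k2b : M ≤ Real.log X := (le_max_right _ _).trans k2
  have k3a : 1 ≤ Real.log (Real.log X) := (le_max_left _ _).trans k3
  have k3b : H₀ ≤ Real.log (Real.log X) := (le_max_left _ _).trans ((le_max_right _ _).trans k3)
  have k3c : ((a : ℝ) + 4) * Real.log 2 ≤ Real.log (Real.log X) :=
    (le_max_right _ _).trans ((le_max_right _ _).trans k3)
  have k4a : 3 ≤ X := (le_max_left _ _).trans k4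
  have k4b : Y₀ ^ 2 ≤ X := (le_max_right _ _).trans k4
  have hX3 : (3 : ℝ) ≤ X := by exact_mod_cast k4a
  have hX0 : (0 : ℝ) < X := by linarith
  have hL0 : 0 < Real.log X := by linarith
  have hη1 : η ≤ (t * kap - ε / 2) / (max H₀ 1) := hηle.trans (min_le_left _ _)
  have hη2 : η ≤ ε / (2 * Real.log M) := hηle.trans (min_le_right _ _)
  -- the parameters
  obtain ⟨H, hH⟩ : ∃ H : ℝ, H = min (Real.exp ((t * kap - ε / 2) / η))
      (((a : ℝ) + 3) * Real.log (Real.log X)) := ⟨_, rfl⟩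
  have hmax1 : 0 < max H₀ 1 := lt_of_lt_of_le one_pos (le_max_right _ _)
  have hquot : max H₀ 1 ≤ (t * kap - ε / 2) / η := by
    rw [le_div_iff₀ hη]
    rw [le_div_iff₀ hmax1] at hη1
    linarith
  have hHH₀ : H₀ ≤ H := by
    rw [hH]
    refine le_min ?_ ?_
    · have h1 := Real.add_one_le_exp ((t * kap - ε / 2) / η)
      have h2 := le_max_left H₀ 1
      linarith
    · have h1 : Real.log (Real.log X) ≤ ((a : ℝ) + 3) * Real.log (Real.log X) := by
        have : (0 : ℝ) ≤ a := Nat.cast_nonneg a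
        nlinarith
      linarith
  have hHpos : 0 < H := by
    rw [hH]
    refine lt_min (Real.exp_pos _) ?_
    have : (0 : ℝ) ≤ a := Nat.cast_nonneg a
    positivity
  have hηH : η * Real.log H ≤ t * kap - ε / 2 := by
    have h1 : Real.log H ≤ (t * kap - ε / 2) / η := by
      rw [Real.log_le_iff_le_exp hHpos, hH]
      exact min_le_left _ _
    rw [le_div_iff₀ hη] at h1
    linarith
  obtain ⟨Y₁, hY₁⟩ : ∃ Y₁ : ℝ, Y₁ = X / (Real.log X) ^ (A + 1) := ⟨_, rfl⟩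
  have hpow0 : 0 < (Real.log X) ^ (A + 1) := Real.rpow_pos_of_pos hL0 _
  have hY₁0 : 0 ≤ Y₁ := by
    rw [hY₁]
    positivity
  have hsq : Real.sqrt X ≤ Y₁ := by
    rw [hY₁, le_div_iff₀ hpow0, Real.sqrt_eq_rpow]
    calc (X : ℝ) ^ (1 / 2 : ℝ) * (Real.log X) ^ (A + 1)
        ≤ (X : ℝ) ^ (1 / 2 : ℝ) * (X : ℝ) ^ (1 / 2 : ℝ) :=
          mul_le_mul_of_nonneg_left k1 (Real.rpow_nonneg hX0.le _)
      _ = X := by
          rw [← Real.rpow_add hX0]
          norm_num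
  have hb : ∀ Y : ℕ, Y₁ < Y → Y ≤ X → (((Finset.Icc 1 Y).filter (fun n : ℕ => (1 - ρ) * Y < n ∧
            t * reps n ≤ hits B n)).card : ℝ) ≤ 3 * Y * Real.exp (-H) := by
    intro Y hY hYX
    have hsY : Real.sqrt X < Y := lt_of_le_of_lt hsq hY
    have hY0 : (0 : ℝ) < Y := lt_of_le_of_lt (Real.sqrt_nonneg _) hsY
    have hXY : (X : ℝ) < (Y : ℝ) ^ 2 := (Real.sqrt_lt' hY0).1 hsY
    have hXYn : X < Y ^ 2 := by exact_mod_cast hXY
    have hY₀Y : Y₀ ≤ Y := by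
      by_contra hcon
      have h1 : Y ^ 2 ≤ Y₀ ^ 2 := Nat.pow_le_pow_left (by omega) 2
      omega
    refine hblock Y hY₀Y H hHH₀ ?_ B η hη hηH (hB (2 * Y) ?_ (by omega))
    · have h1 : Real.log X / 2 ≤ Real.log Y := by
        have h2 := Real.log_le_log (Real.sqrt_pos.2 hX0) hsY.le
        rwa [Real.log_sqrt hX0.le] at h2
      have h3 : Real.log (Real.log X / 2) ≤ Real.log (Real.log Y) :=
        Real.log_le_log (by linarith) h1
      rw [Real.log_div (by linarith) (by norm_num)] at h3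
      have h4 : H ≤ ((a : ℝ) + 3) * Real.log (Real.log X) := by
        rw [hH]
        exact min_le_right _ _
      have h5 : (((a + 4 : ℕ) : ℕ) : ℝ) = (a : ℝ) + 4 := by push_cast; ring
      rw [h5]
      have h6 : ((a : ℝ) + 4) * (Real.log (Real.log X) - Real.log 2) ≤
          ((a : ℝ) + 4) * Real.log (Real.log Y) :=
        mul_le_mul_of_nonneg_left h3 (by positivity)
      linarith
    · have : Y ^ 2 ≤ (2 * Y) ^ 2 := Nat.pow_le_pow_left (by omega) 2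
      omega
  have hmain := ru11_rec t B ρ hρ hρ1 Y₁ (Real.exp (-H)) hY₁0 (Real.exp_pos _).le X hb X le_rfl
  unfold ru11_c at hmain
  refine hmain.trans ?_
  obtain ⟨Mx, hMx⟩ : ∃ Mx : ℝ, Mx = max (Real.exp (-Real.exp ((t * kap - ε) / η)))
      ((Real.log X) ^ (-A)) := ⟨_, rfl⟩
  rw [← hMx]
  -- first part
  have hp1 : Y₁ ≤ 1 / 2 * (Mx * X) := by
    have h1 : (Real.log X) ^ (A + 1) = (Real.log X) ^ A * Real.log X := by
      rw [Real.rpow_add hL0, Real.rpow_one]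
    have h2 : Y₁ = (Real.log X) ^ (-A) * X / Real.log X := by
      rw [hY₁, h1, Real.rpow_neg hL0.le]
      field_simp
    have h3 : (Real.log X) ^ (-A) ≤ Mx := by
      rw [hMx]
      exact le_max_right _ _
    have h4 : 0 ≤ (Real.log X) ^ (-A) * X := by positivity
    have h5 : (Real.log X) ^ (-A) * X / Real.log X ≤ (Real.log X) ^ (-A) * X / 2 :=
      div_le_div_of_nonneg_left h4 (by norm_num) k2a
    have h6 : (Real.log X) ^ (-A) * X ≤ Mx * X := mul_le_mul_of_nonneg_right h3 hX0.le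
    rw [h2]
    linarith
  have hp2 : M * Real.exp (-H) ≤ Mx := by
    rcases min_choice (Real.exp ((t * kap - ε / 2) / η))
      (((a : ℝ) + 3) * Real.log (Real.log X)) with hch | hch
    · rw [hH, hch]
      have h1 := ru11_exp (t * kap - ε) ε η M (by linarith) hη hM0 hlogM.le (by
        rw [le_div_iff₀ (by positivity)] at hη2
        exact hη2)
      have h2 : t * kap - ε + ε / 2 = t * kap - ε / 2 := by ring
      rw [h2] at h1
      rw [hMx]
      exact h1.trans (le_max_left _ _)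
    · rw [hH, hch]
      have h1 : Real.exp (-(((a : ℝ) + 3) * Real.log (Real.log X))) =
          (Real.log X) ^ (-((a : ℝ) + 3)) := by
        rw [Real.rpow_def_of_pos hL0]
        congr 1
        ring
      rw [h1]
      have h2 : (Real.log X) ^ (-((a : ℝ) + 3)) ≤ (Real.log X) ^ (-A - 1) :=
        Real.rpow_le_rpow_of_exponent_le (by linarith) (by linarith)
      have h3 : (Real.log X) ^ (-A - 1) = (Real.log X) ^ (-A) / Real.log X := by
        rw [Real.rpow_sub hL0, Real.rpow_one]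
      have h4 : 0 < (Real.log X) ^ (-A) := Real.rpow_pos_of_pos hL0 _
      calc M * (Real.log X) ^ (-((a : ℝ) + 3)) ≤ M * ((Real.log X) ^ (-A) / Real.log X) := by
            rw [← h3]
            exact mul_le_mul_of_nonneg_left h2 hM0.le
        _ = (M / Real.log X) * (Real.log X) ^ (-A) := by ring
        _ ≤ 1 * (Real.log X) ^ (-A) := by
            refine mul_le_mul_of_nonneg_right ?_ h4.le
            rw [div_le_one hL0]
            exact k2b
        _ ≤ Mx := by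
            rw [one_mul, hMx]
            exact le_max_right _ _
  have hp3 : 3 * (X : ℝ) * Real.exp (-H) / ρ = 1 / 2 * ((M * Real.exp (-H)) * X) := by
    rw [hM]
    field_simp
    ring
  rw [hp3]
  have hp4 : (M * Real.exp (-H)) * X ≤ Mx * X := mul_le_mul_of_nonneg_right hp2 hX0.le
  linarith

theorem upper_final (t : ℝ) (ht0 : 0 < t) (ht1 : t ≤ 1) (ε : ℝ) (hε : 0 < ε) (A : ℝ) (hA : 0 < A) :
    ∃ η₀ : ℝ, 0 < η₀ ∧ ∃ X₀ : ℕ, ∀ η : ℝ, 0 < η → η ≤ η₀ → ∀ X : ℕ, X₀ ≤ X → ∀ B : Set ℕ,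
      (∀ y : ℕ, X ≤ y ^ 2 → y ≤ 2 * X → SpAt B η y) →
        (((Finset.Icc 1 X).filter (fun n => t * reps n ≤ hits B n)).card : ℝ) ≤
          max (Real.exp (-Real.exp ((t * kap - ε) / η))) ((Real.log X) ^ (-A)) * X := by
  have hkap := kap_pos
  have htk : 0 < t * kap := mul_pos ht0 hkap
  obtain ⟨η₀, hη₀, X₀, h⟩ := ru11_small t ht0 ht1 (min ε (t * kap / 2))
    (lt_min hε (by linarith)) (min_le_right _ _) A hA
  refine ⟨η₀, hη₀, X₀, fun η hη hηle X hX B hB => (h η hη hηle X hX B hB).trans ?_⟩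
  refine mul_le_mul_of_nonneg_right (max_le_max_right _ ?_) (Nat.cast_nonneg _)
  refine Real.exp_le_exp.2 (neg_le_neg (Real.exp_le_exp.2 ?_))
  refine div_le_div_of_nonneg_right ?_ hη.le
  have := min_le_left ε (t * kap / 2)
  linarith

end Pool.Agent.Lib.MP_7b7e48_nt.RU
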