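import Pool.Agent.Lib.MP_7b7e48_nt.RU.RU0
import Pool.Agent.Lib.SW.TS.TS9

/-!
# RU-2: high moments with weights

PROOF.  Copy of `moment` (SW/TS/TS8.lean) and of the Markov part of `large_FF` (SW/TS/TS9.lean), with `∑ s ∈ Icc 1 X, f s · …` in place of `∑ s ∈ S, …`.
The step `∑_{s ≤ X} f s exp (YY s) ≤ e^(2ε) m`: where `YY < ε` it is at most `e^ε ∑ f ≤ e^ε m`; where `YY ≥ ε`,
`exp (YY) ≤ exp (w YY) exp (-(w-1) ε)` and `f ≤ lam`, so by `hG` at most `X exp (G - (w-1) ε) ≤ (e^(2ε) - e^ε) m`.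
`large_FW`: `TS9_markov`, `TS9_exp`: `(e^(2ε)/(1+4ε))^k ≤ (1-ε)^k ≤ e^(-εk)`.
-/

set_option autoImplicit false

open Finset Pool.Agent.Lib.GT

namespace Pool.Agent.Lib.MP_7b7e48_nt.RU

theorem RU2_exp (X w : ℕ) (hw : 1 ≤ w) (Y : ℕ → ℝ) (G ε m : ℝ)
    (hG : ∑ s ∈ Icc 1 X, lam s * Real.exp (w * Y s) ≤ X * Real.exp G)
    (hm : X * Real.exp (G - (w - 1) * ε) ≤ (Real.exp (2 * ε) - Real.exp ε) * m)
    (f : ℕ → ℝ) (hf : ∀ s, 0 ≤ f s ∧ f s ≤ lam s) (hs : ∑ s ∈ Icc 1 X, f s ≤ m) :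
    ∑ s ∈ Icc 1 X, f s * Real.exp (Y s) ≤ Real.exp (2 * ε) * m := by
  have hw1 : (1 : ℝ) ≤ w := by exact_mod_cast hw
  have hpt : ∀ s ∈ Icc 1 X, f s * Real.exp (Y s) ≤
      Real.exp ε * f s + Real.exp (-((w - 1) * ε)) * (lam s * Real.exp (w * Y s)) := by
    intro s _
    obtain ⟨h0, h1⟩ := hf s
    have hl0 : 0 ≤ lam s := h0.trans h1
    rcases le_or_gt (Y s) ε with h | h
    · have h2 : f s * Real.exp (Y s) ≤ f s * Real.exp ε :=
        mul_le_mul_of_nonneg_left (Real.exp_le_exp.2 h) h0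
      have h3 : 0 ≤ Real.exp (-((w - 1) * ε)) * (lam s * Real.exp (w * Y s)) := by positivity
      linarith
    · have h2 : Real.exp (Y s) ≤ Real.exp (-((w - 1) * ε)) * Real.exp (w * Y s) := by
        rw [← Real.exp_add]
        apply Real.exp_le_exp.2
        nlinarith
      have h3 : f s * Real.exp (Y s) ≤
          lam s * (Real.exp (-((w - 1) * ε)) * Real.exp (w * Y s)) :=
        mul_le_mul h1 h2 (Real.exp_pos _).le hl0
      have h4 : 0 ≤ Real.exp ε * f s := by positivity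
      linarith
  have h1 := Finset.sum_le_sum hpt
  rw [Finset.sum_add_distrib, ← Finset.mul_sum, ← Finset.mul_sum] at h1
  have h2 : Real.exp ε * ∑ s ∈ Icc 1 X, f s ≤ Real.exp ε * m :=
    mul_le_mul_of_nonneg_left hs (Real.exp_pos _).le
  have h3 : Real.exp (-((w - 1) * ε)) * ∑ s ∈ Icc 1 X, lam s * Real.exp (w * Y s) ≤
      Real.exp (-((w - 1) * ε)) * (X * Real.exp G) :=
    mul_le_mul_of_nonneg_left hG (Real.exp_pos _).le
  have h4 : Real.exp (-((w - 1) * ε)) * (X * Real.exp G) = X * Real.exp (G - (w - 1) * ε) := by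
    rw [sub_eq_add_neg G, Real.exp_add]
    ring
  rw [h4] at h3
  linarith

open Classical in
theorem RU2_step (w z X : ℕ) (f : ℕ → ℝ) (σ : Finset ℕ) (j : ℕ) :
    ∑ N ∈ (Icc 1 X).filter (fun N => SW.Rough w z σ N), (FW w z f X N) ^ (j + 1) =
      ∑ s ∈ Icc 1 X, f s * ∑ N ∈ (Icc 1 X).filter (fun N => SW.Rough w z (insert s σ) N),
        (FW w z f X N) ^ j := by
  have h1 : ∀ N, (FW w z f X N) ^ (j + 1) =
      ∑ s ∈ Icc 1 X, f s * (if SW.Rough w z {s} N then (FW w z f X N) ^ j else 0) := by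
    intro N
    have h2 : (FW w z f X N) ^ (j + 1) = (FW w z f X N) ^ j *
        ∑ s ∈ Icc 1 X, f s * (if SW.Rough w z {s} N then 1 else 0) := pow_succ _ _
    rw [h2, Finset.mul_sum]
    refine Finset.sum_congr rfl fun s _ => ?_
    split_ifs
    · ring
    · ring
  rw [Finset.sum_congr rfl (fun N _ => h1 N), Finset.sum_comm]
  refine Finset.sum_congr rfl fun s _ => ?_
  rw [← Finset.mul_sum]
  congr 1
  rw [← Finset.sum_filter, Finset.filter_filter]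
  refine Finset.sum_congr ?_ (fun _ _ => rfl)
  ext N
  rw [mem_filter, mem_filter, SW.rough_insert]
  constructor
  · rintro ⟨h, h2, h3⟩
    exact ⟨h, h3, h2⟩
  · rintro ⟨h, h2, h3⟩
    exact ⟨h, h3, h2⟩

theorem moment_w (B C : ℕ) : ∃ X₀ : ℕ, ∀ X : ℕ, X₀ ≤ X → ∀ w k : ℕ, 1 ≤ w → 2 * k ≤ w →
    (k : ℝ) ≤ C * Real.log (Real.log X) → ∀ G ε m : ℝ, 0 < ε →
      (∀ σ : Finset ℕ, σ.card ≤ k →
        ∑ s ∈ Icc 1 X, lam s * Real.exp (w * SW.YY w (SW.zB B X) σ s) ≤ X * Real.exp G) →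
      X * Real.exp (G - (w - 1) * ε) ≤ (Real.exp (2 * ε) - Real.exp ε) * m →
      ∀ f : ℕ → ℝ, (∀ s, 0 ≤ f s ∧ f s ≤ lam s) → ∑ s ∈ Icc 1 X, f s ≤ m →
        ∑ N ∈ Icc 1 X, (FW w (SW.zB B X) f X N) ^ k ≤
          8 * X * (SW.Vw w (SW.zB B X) * m * Real.exp (2 * ε)) ^ k := by
  classical
  obtain ⟨X₁, hX₁⟩ := SW.sieve_count B C
  refine ⟨X₁, fun X hX w k hw1 h2k hk G ε m hε hG hm f hf hfm => ?_⟩
  obtain ⟨z, hz⟩ : ∃ z : ℕ, z = SW.zB B X := ⟨_, rfl⟩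
  obtain ⟨M, hM⟩ : ∃ M : ℝ, M = SW.Vw w z * m * Real.exp (2 * ε) := ⟨_, rfl⟩
  rw [← hz] at hG ⊢
  rw [← hM]
  have hm0 : 0 ≤ m := (Finset.sum_nonneg fun s _ => (hf s).1).trans hfm
  have hV0 : 0 ≤ SW.Vw w z := (SW.TS9_Vw_pos w z).le
  have hM0 : 0 ≤ M := by
    rw [hM]
    positivity
  have key : ∀ (j : ℕ) (σ : Finset ℕ), j + σ.card ≤ k →
      ∑ N ∈ (Icc 1 X).filter (fun N => SW.Rough w z σ N), (FW w z f X N) ^ j ≤
        8 * X * SW.RR w z σ * M ^ j := by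
    intro j
    induction j with
    | zero =>
      intro σ hσ
      have h1 := hX₁ X hX w k h2k hk σ (by omega)
      rw [← hz] at h1
      simp only [pow_zero, Finset.sum_const, nsmul_eq_mul, mul_one]
      exact h1
    | succ j ih =>
      intro σ hσ
      rw [RU2_step]
      have h1 : ∀ s ∈ Icc 1 X, f s * ∑ N ∈ (Icc 1 X).filter (fun N => SW.Rough w z (insert s σ) N),
          (FW w z f X N) ^ j ≤
          8 * X * (SW.RR w z σ * SW.Vw w z) * M ^ j * (f s * Real.exp (SW.YY w z σ s)) := by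
        intro s _
        have h2 := ih (insert s σ) (by
          have := Finset.card_insert_le s σ
          omega)
        have h3 := SW.RR_insert w z hw1 σ s
        have h4 : 8 * (X : ℝ) * SW.RR w z (insert s σ) * M ^ j ≤
            8 * X * (SW.RR w z σ * (SW.Vw w z * Real.exp (SW.YY w z σ s))) * M ^ j := by
          apply mul_le_mul_of_nonneg_right _ (by positivity)
          exact mul_le_mul_of_nonneg_left h3 (by positivity)
        calc _ ≤ f s * (8 * X * (SW.RR w z σ * (SW.Vw w z * Real.exp (SW.YY w z σ s))) * M ^ j) :=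
              mul_le_mul_of_nonneg_left (h2.trans h4) (hf s).1
          _ = _ := by ring
      have h5 := RU2_exp X w hw1 (fun s => SW.YY w z σ s) G ε m (hG σ (by omega)) hm f hf hfm
      have h6 : 0 ≤ 8 * (X : ℝ) * (SW.RR w z σ * SW.Vw w z) * M ^ j := by
        have := SW.RR_nonneg w z σ
        positivity
      calc _ ≤ ∑ s ∈ Icc 1 X, 8 * X * (SW.RR w z σ * SW.Vw w z) * M ^ j *
            (f s * Real.exp (SW.YY w z σ s)) := Finset.sum_le_sum h1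
        _ = 8 * X * (SW.RR w z σ * SW.Vw w z) * M ^ j *
            ∑ s ∈ Icc 1 X, f s * Real.exp (SW.YY w z σ s) := by
            rw [Finset.mul_sum]
        _ ≤ 8 * X * (SW.RR w z σ * SW.Vw w z) * M ^ j * (Real.exp (2 * ε) * m) :=
            mul_le_mul_of_nonneg_left h5 h6
        _ = 8 * X * SW.RR w z σ * M ^ (j + 1) := by
            rw [pow_succ, hM]
            ring
  have h1 := key k ∅ (by simp)
  have h2 : (Icc 1 X).filter (fun N => SW.Rough w z ∅ N) = Icc 1 X := by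
    refine Finset.filter_true_of_mem fun N _ => ?_
    intro s hs
    exact absurd hs (Finset.notMem_empty s)
  have h3 : SW.RR w z ∅ = 1 := by
    unfold SW.RR SW.nu
    simp
  rw [h2, h3, mul_one] at h1
  exact h1

theorem RU2_FW_nonneg (w z : ℕ) (f : ℕ → ℝ) (hf : ∀ s, 0 ≤ f s) (X N : ℕ) :
    0 ≤ FW w z f X N := by
  unfold FW
  refine Finset.sum_nonneg fun s _ => mul_nonneg (hf s) ?_
  split_ifs
  · exact zero_le_one
  · exact le_rfl

theorem large_FW (B C : ℕ) : ∃ X₀ : ℕ, ∀ X : ℕ, X₀ ≤ X → ∀ w k : ℕ, 1 ≤ w → 2 * k ≤ w →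
    (k : ℝ) ≤ C * Real.log (Real.log X) → ∀ G ε m : ℝ, 0 < ε → ε ≤ 1 / 8 → 0 < m →
      (∀ σ : Finset ℕ, σ.card ≤ k →
        ∑ s ∈ Icc 1 X, lam s * Real.exp (w * SW.YY w (SW.zB B X) σ s) ≤ X * Real.exp G) →
      X * Real.exp (G - (w - 1) * ε) ≤ (Real.exp (2 * ε) - Real.exp ε) * m →
      ∀ f : ℕ → ℝ, (∀ s, 0 ≤ f s ∧ f s ≤ lam s) → ∑ s ∈ Icc 1 X, f s ≤ m →
        (((Icc 1 X).filter (fun N => (1 + 4 * ε) * (SW.Vw w (SW.zB B X) * m) ≤
          FW w (SW.zB B X) f X N)).card : ℝ) ≤ 8 * X * Real.exp (-ε * k) := by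
  obtain ⟨X₀, hX₀⟩ := moment_w B C
  refine ⟨X₀, fun X hX w k hw1 h2k hk G ε m hε hε1 hm0 hG hm f hf hfm => ?_⟩
  have h1 := hX₀ X hX w k hw1 h2k hk G ε m hε hG hm f hf hfm
  obtain ⟨z, hz⟩ : ∃ z : ℕ, z = SW.zB B X := ⟨_, rfl⟩
  rw [← hz] at h1 ⊢
  have hV0 : 0 < SW.Vw w z := SW.TS9_Vw_pos w z
  have ht : 0 < (1 + 4 * ε) * (SW.Vw w z * m) := by positivity
  have h2 := SW.TS9_markov (Icc 1 X) (fun N => FW w z f X N)
    (fun N => RU2_FW_nonneg w z f (fun s => (hf s).1) X N) _ _ ht k h1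
  have h3 : SW.Vw w z * m * Real.exp (2 * ε) ≤
      Real.exp (-ε) * ((1 + 4 * ε) * (SW.Vw w z * m)) := by
    have h4 := SW.TS9_exp ε hε hε1
    have h5 : 1 - ε ≤ Real.exp (-ε) := by
      have := Real.add_one_le_exp (-ε)
      linarith
    have h6 : Real.exp (2 * ε) ≤ Real.exp (-ε) * (1 + 4 * ε) :=
      h4.trans (mul_le_mul_of_nonneg_right h5 (by linarith))
    have h7 : 0 ≤ SW.Vw w z * m := by positivity
    calc SW.Vw w z * m * Real.exp (2 * ε) ≤ SW.Vw w z * m * (Real.exp (-ε) * (1 + 4 * ε)) :=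
          mul_le_mul_of_nonneg_left h6 h7
      _ = _ := by ring
  have h8 : (SW.Vw w z * m * Real.exp (2 * ε)) ^ k ≤
      Real.exp (-ε * k) * ((1 + 4 * ε) * (SW.Vw w z * m)) ^ k := by
    have h9 := pow_le_pow_left₀ (by positivity) h3 k
    rw [mul_pow (Real.exp (-ε)), ← Real.exp_nat_mul] at h9
    rw [mul_comm (-ε) (k : ℝ)]
    exact h9
  have h10 : (((Icc 1 X).filter (fun N => (1 + 4 * ε) * (SW.Vw w z * m) ≤
      FW w z f X N)).card : ℝ) * ((1 + 4 * ε) * (SW.Vw w z * m)) ^ k ≤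
      8 * X * Real.exp (-ε * k) * ((1 + 4 * ε) * (SW.Vw w z * m)) ^ k := by
    refine h2.trans ?_
    rw [mul_assoc (8 * (X : ℝ))]
    exact mul_le_mul_of_nonneg_left h8 (by positivity)
  exact le_of_mul_le_mul_right h10 (by positivity)

end Pool.Agent.Lib.MP_7b7e48_nt.RU
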