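import Pool.Agent.Lib.MP_7b7e48_nt.RU.RU1
import Pool.Agent.Lib.MP_7b7e48_nt.RU.RU2

/-!
# RU-3: uniformity in the size of the exceptional set

PROOF.  `L = log log X`.  `C = ⌈(3 + K)/ε⌉`-like constant with `C ε ≥ 2`, `C'` (integer) large: `C' ε ≥ 8 C + 8 + K + 20`, `C' ≥ 2 C + 1`.
Let `H' = H` if `H^(1+δ) ≤ L` (`δ` small in terms of `ε`: `(1 + ε) ≥ (1 + δ)(1 + ε/2)`), and `H' = K L` (or `max (K L) 1`) otherwise.
`k = ⌊C H'⌋`, `w = ⌈C' H'⌉`.  In the first case use `exp_lam` (with `δ/2` in place of `δ` and a constant `C`: `k w^(δ/2) ≤ C (C'+1) H'^(1+δ/2) ≤ L` for large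
`H'`), `G = 8 k + 8`; in the second case `exp_lam_big`, `G = 8 k + 8 + L` and `L ≤ H'` (`K ≥ 1`).  In both cases `G ≤ (8 C + 1) H' + 8`,
`m ≥ X exp (-H) ≥ X exp (-H')`, `(w - 1) ε ≥ C' ε H' - ε`, so the last hypothesis of `large_FW` holds for `H' ≥ H₀`, and
`8 X exp (-ε k) ≤ 8 X exp (-ε (C H' - 1)) ≤ X exp (-H')/2 ≤ X exp (-H)/2`.
`log w ≤ log (C'+1) + log H' ≤ (1+ε) log H`: in the second case `log H' ≤ log K + log L ≤ log K + (1+δ) log H`.
`H ≤ w` since `C' ≥ 1`, `H ≤ H'`.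
-/

set_option autoImplicit false

open Finset Pool.Agent.Lib.GT

namespace Pool.Agent.Lib.MP_7b7e48_nt.RU

theorem RU3_core (B C C' K : ℕ) (ε : ℝ) (hε : 0 < ε) (hε1 : ε ≤ 1 / 8) (hC : 2 ≤ C * ε)
    (hC' : 8 * (C : ℝ) + 12 ≤ C' * ε) (hC2 : 2 * C ≤ C') : ∃ X₀ : ℕ, ∀ X : ℕ, X₀ ≤ X →
      ∀ H H' G : ℝ, 4 + 1 / ε ≤ H → H ≤ H' → H' ≤ K * Real.log (Real.log X) →
        G ≤ 8 * (⌊C * H'⌋₊ : ℝ) + 8 + H' →
        (∀ σ : Finset ℕ, σ.card ≤ ⌊C * H'⌋₊ →
          ∑ s ∈ Icc 1 X, lam s * Real.exp (⌈C' * H'⌉₊ * SW.YY ⌈C' * H'⌉₊ (SW.zB B X) σ s) ≤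
            X * Real.exp G) →
        ∀ (f : ℕ → ℝ) (m : ℝ), (∀ s, 0 ≤ f s ∧ f s ≤ lam s) → ∑ s ∈ Icc 1 X, f s ≤ m →
          X * Real.exp (-H) ≤ m →
          (((Icc 1 X).filter (fun N => (1 + 4 * ε) * (SW.Vw ⌈C' * H'⌉₊ (SW.zB B X) * m) ≤
            FW ⌈C' * H'⌉₊ (SW.zB B X) f X N)).card : ℝ) ≤ X * Real.exp (-H) / 2 := by
  obtain ⟨X₁, hX₁⟩ := large_FW B (C * K)
  refine ⟨max X₁ 1, fun X hX H H' G hH hHH hHK hGle hG f m hf hfm hm => ?_⟩
  have hX1 : X₁ ≤ X := (le_max_left _ _).trans hX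
  have hXpos : (0 : ℝ) < X := by
    have : 1 ≤ X := (le_max_right _ _).trans hX
    exact_mod_cast this
  have hε' : 0 < 1 / ε := by positivity
  have hH4 : 4 ≤ H := by linarith
  have hH'4 : 4 ≤ H' := by linarith
  have hC0 : (0 : ℝ) ≤ C := Nat.cast_nonneg _
  have hC'0 : (0 : ℝ) ≤ C' := Nat.cast_nonneg _
  obtain ⟨k, hk⟩ : ∃ k : ℕ, k = ⌊C * H'⌋₊ := ⟨_, rfl⟩
  obtain ⟨w, hw⟩ : ∃ w : ℕ, w = ⌈C' * H'⌉₊ := ⟨_, rfl⟩
  rw [← hk] at hGle hG
  rw [← hw] at hG ⊢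
  have hkle : (k : ℝ) ≤ C * H' := by
    rw [hk]
    exact Nat.floor_le (by positivity)
  have hkge : C * H' - 1 < k := by
    rw [hk]
    exact Nat.sub_one_lt_floor _
  have hwge : (C' : ℝ) * H' ≤ w := by
    rw [hw]
    exact Nat.le_ceil _
  have hC1 : 1 ≤ (C : ℝ) := by
    by_contra h
    have h1 : C = 0 := by
      have h2 : (C : ℝ) < 1 := not_le.1 h
      have h3 : C < 1 := by exact_mod_cast h2
      omega
    rw [h1, Nat.cast_zero, zero_mul] at hC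
    linarith
  have hC2r : 2 * (C : ℝ) ≤ C' := by exact_mod_cast hC2
  have h2k : 2 * k ≤ w := by
    have h1 : (2 : ℝ) * k ≤ w := by
      calc (2 : ℝ) * k ≤ 2 * (C * H') := by linarith
        _ = 2 * C * H' := by ring
        _ ≤ C' * H' := mul_le_mul_of_nonneg_right hC2r (by linarith)
        _ ≤ w := hwge
    exact_mod_cast h1
  have hw1 : 1 ≤ w := by
    have h1 : (1 : ℝ) ≤ w := by nlinarith
    exact_mod_cast h1
  have hkL : (k : ℝ) ≤ ((C * K : ℕ) : ℝ) * Real.log (Real.log X) := by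
    push_cast
    calc (k : ℝ) ≤ C * H' := hkle
      _ ≤ C * (K * Real.log (Real.log X)) := mul_le_mul_of_nonneg_left hHK hC0
      _ = _ := by ring
  have hm0 : 0 < m := lt_of_lt_of_le (by positivity) hm
  have hG' : G - (w - 1) * ε ≤ Real.log ε - H := by
    have h1 : (8 * (C : ℝ) + 12) * H' ≤ (w : ℝ) * ε := by
      calc (8 * (C : ℝ) + 12) * H' ≤ C' * ε * H' :=
            mul_le_mul_of_nonneg_right hC' (by linarith)
        _ = C' * H' * ε := by ring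
        _ ≤ _ := mul_le_mul_of_nonneg_right hwge hε.le
    have h2 : -Real.log ε ≤ 1 / ε := by
      rw [← Real.log_inv, ← one_div]
      have := Real.log_le_sub_one_of_pos hε'
      linarith
    have h3 : G ≤ 8 * (C * H') + 8 + H' := by linarith
    nlinarith
  have hmain : X * Real.exp (G - (w - 1) * ε) ≤ (Real.exp (2 * ε) - Real.exp ε) * m := by
    have h1 : Real.exp (G - (w - 1) * ε) ≤ ε * Real.exp (-H) := by
      refine (Real.exp_le_exp.2 hG').trans (le_of_eq ?_)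
      rw [sub_eq_add_neg, Real.exp_add, Real.exp_log hε]
    have h2 : ε ≤ Real.exp (2 * ε) - Real.exp ε := by
      have h3 : Real.exp (2 * ε) = Real.exp ε * Real.exp ε := by
        rw [← Real.exp_add]
        ring_nf
      have h4 := Real.add_one_le_exp ε
      rw [h3]
      nlinarith
    calc X * Real.exp (G - (w - 1) * ε) ≤ X * (ε * Real.exp (-H)) :=
          mul_le_mul_of_nonneg_left h1 hXpos.le
      _ = ε * (X * Real.exp (-H)) := by ring
      _ ≤ ε * m := mul_le_mul_of_nonneg_left hm hε.le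
      _ ≤ _ := mul_le_mul_of_nonneg_right h2 hm0.le
  refine (hX₁ X hX1 w k hw1 h2k hkL G ε m hε hε1 hm0 hG hmain f hf hfm).trans ?_
  have h1 : -ε * k ≤ -(2 * H) + 1 := by
    have h2 : ε * (C * H' - 1) ≤ ε * k := mul_le_mul_of_nonneg_left hkge.le hε.le
    have h3 : 2 * H' ≤ C * ε * H' := mul_le_mul_of_nonneg_right hC (by linarith)
    nlinarith
  have h2 : Real.exp (-ε * k) ≤ Real.exp (-H) * (Real.exp (-H) * Real.exp 1) := by
    rw [← Real.exp_add, ← Real.exp_add]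
    apply Real.exp_le_exp.2
    linarith
  have h3 : Real.exp (-H) * Real.exp 1 ≤ 1 / 16 := by
    rw [← Real.exp_add]
    have h4 : Real.exp (-H + 1) ≤ Real.exp (-3) := Real.exp_le_exp.2 (by linarith)
    refine h4.trans ?_
    rw [Real.exp_neg, one_div]
    apply inv_anti₀ (by norm_num)
    have h5 := Real.exp_one_gt_d9
    have h6 : Real.exp 3 = Real.exp 1 * Real.exp 1 * Real.exp 1 := by
      rw [← Real.exp_add, ← Real.exp_add]
      norm_num
    rw [h6]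
    have h7 : (2.7 : ℝ) ≤ Real.exp 1 := by linarith
    have h8 : (7.29 : ℝ) ≤ Real.exp 1 * Real.exp 1 := by nlinarith
    nlinarith
  calc 8 * X * Real.exp (-ε * k) ≤ 8 * X * (Real.exp (-H) * (1 / 16)) := by
        apply mul_le_mul_of_nonneg_left _ (by positivity)
        exact h2.trans (mul_le_mul_of_nonneg_left h3 (Real.exp_pos _).le)
    _ = X * Real.exp (-H) / 2 := by ring

theorem large_uni (B K : ℕ) (hB : 1 ≤ B) (hK : 1 ≤ K) (ε : ℝ) (hε : 0 < ε) (hε1 : ε ≤ 1 / 8) :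
    ∃ H₀ : ℝ, ∃ X₀ : ℕ, ∀ X : ℕ, X₀ ≤ X → ∀ H : ℝ, H₀ ≤ H → H ≤ K * Real.log (Real.log X) →
      ∃ w : ℕ, H ≤ w ∧ w ≤ SW.zB B X ∧ Real.log w ≤ (1 + ε) * Real.log H ∧
        ∀ (f : ℕ → ℝ) (m : ℝ), (∀ s, 0 ≤ f s ∧ f s ≤ lam s) → ∑ s ∈ Icc 1 X, f s ≤ m →
          X * Real.exp (-H) ≤ m →
          (((Icc 1 X).filter (fun N => (1 + 4 * ε) * (SW.Vw w (SW.zB B X) * m) ≤
            FW w (SW.zB B X) f X N)).card : ℝ) ≤ X * Real.exp (-H) / 2 := by
  obtain ⟨C, hCn⟩ := exists_nat_ge (2 / ε)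
  have hC : 2 ≤ (C : ℝ) * ε := by rwa [div_le_iff₀ hε] at hCn
  obtain ⟨C', hC'n⟩ := exists_nat_ge (max ((8 * (C : ℝ) + 12) / ε) (2 * C))
  have hC' : 8 * (C : ℝ) + 12 ≤ C' * ε := by
    rw [← div_le_iff₀ hε]
    exact (le_max_left _ _).trans hC'n
  have hC2r : 2 * (C : ℝ) ≤ C' := (le_max_right _ _).trans hC'n
  have hC2 : 2 * C ≤ C' := by exact_mod_cast hC2r
  have hC1 : 1 ≤ (C : ℝ) := by
    by_contra h
    have h1 : C = 0 := by
      have h2 : (C : ℝ) < 1 := not_le.1 h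
      have h3 : C < 1 := by exact_mod_cast h2
      omega
    rw [h1, Nat.cast_zero, zero_mul] at hC
    linarith
  have hC'1 : 1 ≤ (C' : ℝ) := by linarith
  have hKr : 1 ≤ (K : ℝ) := by exact_mod_cast hK
  obtain ⟨X₁, hX₁⟩ := RU3_core B C C' K ε hε hε1 hC hC' hC2
  obtain ⟨X₂, hX₂⟩ := exp_lam B (C * (C' + 1) * K) (ε / 2) (by linarith) (by linarith)
  obtain ⟨X₃, hX₃⟩ := exp_lam_big B (C * (C' + 1) * K)
  -- the size of `log X`
  obtain ⟨X₄, hX₄⟩ : ∃ X₄ : ℕ, ∀ X : ℕ, X₄ ≤ X →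
      1 ≤ Real.log (Real.log X) ∧ ((C' : ℝ) + 1) * K * Real.log (Real.log X) + 1 ≤ Real.log X := by
    have h1 := SW.TS9_log_small (((C' : ℝ) + 1) * K) (by positivity)
    have h2 : Filter.Tendsto (fun X : ℕ => Real.log (X : ℝ)) Filter.atTop Filter.atTop :=
      Real.tendsto_log_atTop.comp tendsto_natCast_atTop_atTop
    have h3 := h2.eventually h1
    have h4 := h2.eventually (Filter.eventually_ge_atTop (Real.exp 1))
    obtain ⟨X₄, hX₄⟩ := Filter.eventually_atTop.1 (h3.and h4)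
    refine ⟨X₄, fun X hX => ⟨?_, (hX₄ X hX).1⟩⟩
    have h5 := (hX₄ X hX).2
    exact (Real.le_log_iff_exp_le ((Real.exp_pos 1).trans_le h5)).2 h5
  obtain ⟨D, hD⟩ : ∃ D : ℝ, D = Real.log (((C' : ℝ) + 1) * K) := ⟨_, rfl⟩
  refine ⟨max (4 + 1 / ε) (Real.exp (2 * D / ε)), max X₁ (max X₂ (max X₃ X₄)),
    fun X hX H hH hHK => ?_⟩
  have hXX₁ : X₁ ≤ X := (le_max_left _ _).trans hX
  have hXX₂ : X₂ ≤ X := (le_max_left _ _).trans ((le_max_right _ _).trans hX)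
  have hXX₃ : X₃ ≤ X :=
    (le_max_left _ _).trans ((le_max_right _ _).trans ((le_max_right _ _).trans hX))
  have hXX₄ : X₄ ≤ X :=
    (le_max_right _ _).trans ((le_max_right _ _).trans ((le_max_right _ _).trans hX))
  obtain ⟨hL1, hLX⟩ := hX₄ X hXX₄
  obtain ⟨L, hL⟩ : ∃ L : ℝ, L = Real.log (Real.log X) := ⟨_, rfl⟩
  rw [← hL] at hL1 hLX hHK
  have hε' : 0 < 1 / ε := by positivity
  have hH4 : 4 + 1 / ε ≤ H := (le_max_left _ _).trans hH
  have hHpos : 0 < H := by linarith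
  have hHD : D ≤ ε / 2 * Real.log H := by
    have h1 : Real.exp (2 * D / ε) ≤ H := (le_max_right _ _).trans hH
    have h2 := (Real.le_log_iff_exp_le hHpos).2 h1
    rw [div_le_iff₀ hε] at h2
    linarith
  have hlogH : 0 ≤ Real.log H := Real.log_nonneg (by linarith)
  have hCK1 : 1 ≤ ((C' : ℝ) + 1) * K := by nlinarith
  -- properties of `w = ⌈C' H'⌉`
  have hwprop : ∀ H' : ℝ, H ≤ H' → H' ≤ K * L → Real.log H' ≤ Real.log K + (1 + ε / 2) * Real.log H →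
      H ≤ (⌈C' * H'⌉₊ : ℝ) ∧ ⌈C' * H'⌉₊ ≤ SW.zB B X ∧
        Real.log (⌈C' * H'⌉₊ : ℝ) ≤ (1 + ε) * Real.log H ∧
        (⌈C' * H'⌉₊ : ℝ) ≤ (C' + 1) * H' := by
    intro H' h1 h2 h3
    have h4 : (C' : ℝ) * H' ≤ (⌈C' * H'⌉₊ : ℝ) := Nat.le_ceil _
    have h5 : (⌈C' * H'⌉₊ : ℝ) ≤ C' * H' + 1 :=
      (Nat.ceil_lt_add_one (mul_nonneg (by linarith) (by linarith))).le
    have h6 : (⌈C' * H'⌉₊ : ℝ) ≤ (C' + 1) * H' := by
      have : 1 ≤ H' := by linarith
      linarith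
    have h7 : H ≤ (⌈C' * H'⌉₊ : ℝ) := by nlinarith
    refine ⟨h7, ?_, ?_, h6⟩
    · unfold SW.zB
      apply Nat.le_floor
      have h8 : ((C' : ℝ) + 1) * H' ≤ (C' + 1) * (K * L) :=
        mul_le_mul_of_nonneg_left h2 (by linarith)
      have h9 : (⌈C' * H'⌉₊ : ℝ) ≤ Real.log X := by
        have : ((C' : ℝ) + 1) * (K * L) = (C' + 1) * K * L := by ring
        linarith
      have h10 : 1 ≤ Real.log X := by
        have : 0 ≤ ((C' : ℝ) + 1) * K * L := by positivity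
        linarith
      exact h9.trans (le_self_pow₀ h10 (by omega))
    · have h8 : Real.log (⌈C' * H'⌉₊ : ℝ) ≤ Real.log ((C' + 1) * H') :=
        Real.log_le_log (by linarith) h6
      rw [Real.log_mul (by positivity) (by linarith)] at h8
      have h9 : D = Real.log ((C' : ℝ) + 1) + Real.log K := by
        rw [hD, Real.log_mul (by positivity) (by positivity)]
      linarith
  by_cases hcase : H ^ (1 + ε / 2) ≤ L
  · -- first case: `H' = H`
    have hlogK : 0 ≤ Real.log K := Real.log_nonneg hKr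
    obtain ⟨h1, h2, h3, h4⟩ := hwprop H le_rfl hHK (by
      have : 0 ≤ ε / 2 * Real.log H := by positivity
      linarith)
    refine ⟨⌈C' * H⌉₊, h1, h2, h3, ?_⟩
    refine hX₁ X hXX₁ H H (8 * (⌊C * H⌋₊ : ℝ) + 8) hH4 le_rfl (by rw [← hL]; exact hHK)
      (by linarith) ?_
    intro σ hσ
    have hw1 : 1 ≤ ⌈C' * H⌉₊ := by
      have : (1 : ℝ) ≤ (⌈C' * H⌉₊ : ℝ) := by linarith
      exact_mod_cast this
    have hHL : H ≤ L := by
      refine le_trans ?_ hcase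
      calc H = H ^ (1 : ℝ) := (Real.rpow_one H).symm
        _ ≤ _ := Real.rpow_le_rpow_of_exponent_le (by linarith) (by linarith)
    have hCC : ((C * (C' + 1) * K : ℕ) : ℝ) = C * (C' + 1) * K := by push_cast; ring
    have hCC1 : (C' : ℝ) + 1 ≤ C * (C' + 1) * K := by
      have h5 : 1 * ((C' : ℝ) + 1) * 1 ≤ C * (C' + 1) * K :=
        mul_le_mul (mul_le_mul_of_nonneg_right hC1 (by linarith)) hKr (by norm_num) (by positivity)
      linarith
    refine hX₂ X hXX₂ _ _ hw1 ?_ ?_ σ hσ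
    · rw [hCC, ← hL]
      calc (⌈C' * H⌉₊ : ℝ) ≤ (C' + 1) * H := h4
        _ ≤ (C' + 1) * L := mul_le_mul_of_nonneg_left hHL (by linarith)
        _ ≤ _ := mul_le_mul_of_nonneg_right hCC1 (by linarith)
    · rw [hCC, ← hL]
      have h5 : (⌊C * H⌋₊ : ℝ) ≤ C * H := Nat.floor_le (by positivity)
      have h6 : ((⌈C' * H⌉₊ : ℕ) : ℝ) ^ (ε / 2) ≤ (C' + 1) * H ^ (ε / 2) := by
        calc ((⌈C' * H⌉₊ : ℕ) : ℝ) ^ (ε / 2) ≤ ((C' + 1) * H) ^ (ε / 2) :=
              Real.rpow_le_rpow (by positivity) h4 (by linarith)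
          _ = (C' + 1 : ℝ) ^ (ε / 2) * H ^ (ε / 2) := Real.mul_rpow (by positivity) hHpos.le
          _ ≤ (C' + 1) * H ^ (ε / 2) := by
              apply mul_le_mul_of_nonneg_right _ (by positivity)
              calc (C' + 1 : ℝ) ^ (ε / 2) ≤ (C' + 1 : ℝ) ^ (1 : ℝ) :=
                    Real.rpow_le_rpow_of_exponent_le (by linarith) (by linarith)
                _ = C' + 1 := Real.rpow_one _
      calc (⌊C * H⌋₊ : ℝ) * ((⌈C' * H⌉₊ : ℕ) : ℝ) ^ (ε / 2) ≤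
          (C * H) * ((C' + 1) * H ^ (ε / 2)) :=
            mul_le_mul h5 h6 (by positivity) (by positivity)
        _ = C * (C' + 1) * (H ^ (1 : ℝ) * H ^ (ε / 2)) := by
            rw [Real.rpow_one]
            ring
        _ = C * (C' + 1) * H ^ (1 + ε / 2) := by rw [← Real.rpow_add hHpos]
        _ ≤ C * (C' + 1) * L := mul_le_mul_of_nonneg_left hcase (by positivity)
        _ ≤ C * (C' + 1) * K * L := by
            apply mul_le_mul_of_nonneg_right _ (by linarith)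
            exact le_mul_of_one_le_right (by positivity) hKr
  · -- second case: `H' = K L`
    have hcase' : L < H ^ (1 + ε / 2) := not_le.1 hcase
    have hlogL : Real.log L ≤ (1 + ε / 2) * Real.log H := by
      have h1 := Real.log_le_log (by linarith : 0 < L) hcase'.le
      rwa [Real.log_rpow hHpos] at h1
    have hLK : L ≤ K * L := le_mul_of_one_le_left (by linarith) hKr
    obtain ⟨h1, h2, h3, h4⟩ := hwprop (K * L) hHK le_rfl (by
      rw [Real.log_mul (by positivity) (by linarith)]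
      linarith)
    refine ⟨⌈C' * (K * L)⌉₊, h1, h2, h3, ?_⟩
    refine hX₁ X hXX₁ H (K * L) (8 * (⌊C * (K * L)⌋₊ : ℝ) + 8 + L) hH4 hHK (by rw [← hL])
      (by linarith) ?_
    intro σ hσ
    have hw1 : 1 ≤ ⌈C' * (K * L)⌉₊ := by
      have : (1 : ℝ) ≤ (⌈C' * (K * L)⌉₊ : ℝ) := by linarith
      exact_mod_cast this
    have hCC : ((C * (C' + 1) * K : ℕ) : ℝ) = C * (C' + 1) * K := by push_cast; ring
    rw [hL]
    rw [hL] at hσ h4 hw1
    refine hX₃ X hXX₃ _ _ hw1 ?_ ?_ σ hσ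
    · rw [hCC, ← hL]
      rw [← hL] at h4
      calc (⌈C' * (K * L)⌉₊ : ℝ) ≤ (C' + 1) * (K * L) := h4
        _ = 1 * ((C' + 1) * K * L) := by ring
        _ ≤ C * ((C' + 1) * K * L) := mul_le_mul_of_nonneg_right hC1 (by positivity)
        _ = _ := by ring
    · rw [hCC, ← hL]
      have h5 : (⌊C * (K * L)⌋₊ : ℝ) ≤ C * (K * L) := Nat.floor_le (by positivity)
      calc (⌊C * (K * L)⌋₊ : ℝ) ≤ C * (K * L) := h5
        _ = C * 1 * K * L := by ring
        _ ≤ C * (C' + 1) * K * L := by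
            apply mul_le_mul_of_nonneg_right _ (by linarith)
            apply mul_le_mul_of_nonneg_right _ (by positivity)
            exact mul_le_mul_of_nonneg_left (by linarith) (by positivity)

end Pool.Agent.Lib.MP_7b7e48_nt.RU
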