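import Pool.Agent.Lib.MP_7b7e48_nt.RU.RU3

/-!
# RU-4: the upper bound for weighted representations, uniform in the size of the exceptional set

PROOF.  As `upper_all` (SW/TS/TS9.lean), with `f` in place of the indicator of `S` and without doubling `X`.  `A = 2K + 4`, `B ≥ max B₀ 1` from `SW.fourier_rz A`.
`∑_{x ≤ N} f x lam (N-x)` minus `(1/Vz) ∑_{x ≤ N, x ≥ 1} f x rz (N-x)` has second moment (over `N ≤ X`) at most `(C X/(log X)^A)² ∑_{n ≤ X} (f n)² ≤
(C X/(log X)^A)² X (log X)²` (`Transfer.conv_l2`, see `TS9_conv`), `m ≥ X exp (-H) ≥ X/(log X)^K`, so by Chebyshev (`TS9_cheb`) it is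
`≥ δ m` for at most `X/(2 (log X)^K) ≤ X exp (-H)/2` of the `N`.  Outside: `(1/Vz) ∑ f x rz (N-x) ≤ FW w z f X N/Vz z` (`TS9_sum_rz`-like; the term
`x = N` has `rz z 0 = 0` for `z ≥ 2`, and `f 0 ≤ lam 0 = 0`), `≤ (1+4δ) Vw w z m/Vz z = (1+4δ) m/LG3V w` (`TS9_V_mul`, `TS9_Vz`), and
`(LG3V w)⁻¹ ≤ (1+δ) e^γ log w ≤ (1+δ)² e^γ log H` for `w ≥ H ≥ H₀` (`Robust.V_log_tendsto` or `LG3_mertens`).
-/

set_option autoImplicit false

open Finset Pool.Agent.Lib.GT

namespace Pool.Agent.Lib.MP_7b7e48_nt.RU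

/-- the Fourier bound turned into a second moment -/
theorem ru4_conv (X : ℕ) (f g : ℕ → ℝ) (hf : ∀ s, X < s → f s = 0) (Bd : ℝ)
    (hB : ∀ α : ℝ, ‖∑ n ∈ Icc 1 X, ((g n : ℝ) : ℂ) * e (n * α)‖ ≤ Bd) :
    ∑ N ∈ Icc 1 X, (∑ x ∈ range N, f x * g (N - x)) ^ 2 ≤
      Bd ^ 2 * ∑ n ∈ range (X + 1), (f n) ^ 2 := by
  classical
  set u : ℕ → ℝ := fun n => if 1 ≤ n ∧ n ≤ X then g n else 0 with hu
  have h := Transfer.conv_l2 (X := X) (u := u) (v := f) (S := Bd)
    (fun n hn => by rw [hu]; simp only; rw [if_neg (by omega)]) hf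
    (fun α => by
      have h1 : ∑ n ∈ range (X + 1), (u n : ℂ) * e (α * n) =
          ∑ n ∈ Icc 1 X, ((g n : ℝ) : ℂ) * e (n * α) := by
        symm
        have h2 : ∑ n ∈ Icc 1 X, ((g n : ℝ) : ℂ) * e (n * α) =
            ∑ n ∈ Icc 1 X, (u n : ℂ) * e (α * n) := by
          apply Finset.sum_congr rfl
          intro n hn
          rw [Finset.mem_Icc] at hn
          rw [hu]
          simp only
          rw [if_pos hn, mul_comm (n : ℝ) α]
        rw [h2]
        apply Finset.sum_subset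
        · intro n hn
          rw [Finset.mem_Icc] at hn
          rw [Finset.mem_range]
          omega
        · intro n hn hn'
          rw [Finset.mem_range] at hn
          rw [Finset.mem_Icc] at hn'
          rw [hu]
          simp only
          rw [if_neg (by omega)]
          simp
      rw [h1]
      exact hB α)
  refine le_trans ?_ h
  have h4 : ∀ N ∈ Icc 1 X, ∑ x ∈ range (N + 1), u x * f (N - x) =
      ∑ x ∈ range N, f x * g (N - x) := by
    intro N hN
    rw [Finset.mem_Icc] at hN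
    rw [← Finset.sum_range_reflect]
    have h5 : ∀ j ∈ range (N + 1), u (N + 1 - 1 - j) * f (N - (N + 1 - 1 - j)) =
        f j * u (N - j) := by
      intro j hj
      rw [Finset.mem_range] at hj
      rw [show N + 1 - 1 - j = N - j by omega, show N - (N - j) = j by omega, mul_comm]
    rw [Finset.sum_congr rfl h5, Finset.sum_range_succ, Nat.sub_self]
    have h6 : u 0 = 0 := by
      rw [hu]
      simp
    rw [h6, mul_zero, add_zero]
    apply Finset.sum_congr rfl
    intro x hx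
    rw [Finset.mem_range] at hx
    rw [hu]
    simp only
    rw [if_pos (by omega)]
  have h7 : ∑ N ∈ Icc 1 X, (∑ x ∈ range N, f x * g (N - x)) ^ 2 =
      ∑ N ∈ Icc 1 X, (∑ x ∈ range (N + 1), u x * f (N - x)) ^ 2 := by
    apply Finset.sum_congr rfl
    intro N hN
    rw [h4 N hN]
  rw [h7]
  apply Finset.sum_le_sum_of_subset_of_nonneg
  · intro N hN
    rw [Finset.mem_Icc] at hN
    rw [Finset.mem_range]
    omega
  · intro N _ _
    positivity

theorem ru4_sumsq (X : ℕ) (_hX : 1 ≤ X) (f : ℕ → ℝ) (hf : ∀ s, 0 ≤ f s ∧ f s ≤ lam s) :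
    ∑ n ∈ range (X + 1), (f n) ^ 2 ≤ X * (Real.log X) ^ 2 := by
  have h0 : f 0 = 0 := by
    have h1 := hf 0
    have h2 : lam 0 = 0 := by
      unfold lam
      rw [if_neg Nat.not_prime_zero]
    rw [h2] at h1
    exact le_antisymm h1.2 h1.1
  rw [Finset.sum_range_succ', h0]
  have h3 : ∀ n ∈ range X, (f (n + 1)) ^ 2 ≤ (Real.log X) ^ 2 := by
    intro n hn
    rw [Finset.mem_range] at hn
    apply pow_le_pow_left₀ (hf (n + 1)).1
    refine (hf (n + 1)).2.trans ?_
    unfold lam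
    split_ifs
    · apply Real.log_le_log
      · positivity
      · exact_mod_cast hn
    · exact Real.log_natCast_nonneg X
  have h4 := Finset.sum_le_sum h3
  rw [Finset.sum_const, Finset.card_range, nsmul_eq_mul] at h4
  simpa using h4

theorem ru4_rz (w z X N : ℕ) (hN : N ≤ X) (f : ℕ → ℝ) (hf : ∀ s, 0 ≤ f s) (h0 : f 0 = 0) :
    ∑ x ∈ range N, f x * SW.rz z (N - x) ≤ FW w z f X N := by
  classical
  have h1 : ∑ x ∈ range N, f x * SW.rz z (N - x) ≤
      ∑ x ∈ range N, f x * (if SW.Rough w z {x} N then (1 : ℝ) else 0) := by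
    apply Finset.sum_le_sum
    intro x hx
    rw [Finset.mem_range] at hx
    apply mul_le_mul_of_nonneg_left _ (hf x)
    unfold SW.rz
    by_cases h1 : Nat.Coprime (N - x) (primorial z)
    · have h2 : SW.Rough w z {x} N := by
        intro s' hs' p hp hd
        rw [Finset.mem_singleton] at hs'
        subst hs'
        rw [SW.mem_pr] at hp
        have hd' : p ∣ N - s' := by
          rw [← Int.natCast_dvd_natCast, Nat.cast_sub hx.le]
          exact hd
        have hd2 : p ∣ primorial z := (hp.2.2.dvd_primorial_iff).mpr hp.2.1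
        exact Nat.not_coprime_of_dvd_of_dvd hp.2.2.one_lt hd' hd2 h1
      rw [if_pos h1, if_pos h2]
    · rw [if_neg h1]
      split_ifs
      · exact zero_le_one
      · exact le_rfl
  refine h1.trans ?_
  unfold FW
  have h2 : ∑ x ∈ range N, f x * (if SW.Rough w z {x} N then (1 : ℝ) else 0) ≤
      ∑ x ∈ range (X + 1), f x * (if SW.Rough w z {x} N then (1 : ℝ) else 0) := by
    apply Finset.sum_le_sum_of_subset_of_nonneg
    · intro x hx
      rw [Finset.mem_range] at hx ⊢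
      omega
    · intro x _ _
      apply mul_nonneg (hf x)
      split_ifs
      · exact zero_le_one
      · exact le_rfl
  refine h2.trans (le_of_eq ?_)
  symm
  have h3 : ∑ x ∈ Icc 1 X, f x * (if SW.Rough w z {x} N then (1 : ℝ) else 0) =
      ∑ x ∈ range (X + 1), f x * (if SW.Rough w z {x} N then (1 : ℝ) else 0) := by
    apply Finset.sum_subset
    · intro n hn
      rw [Finset.mem_Icc] at hn
      rw [Finset.mem_range]
      omega
    · intro n hn hn'
      rw [Finset.mem_range] at hn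
      rw [Finset.mem_Icc] at hn'
      have : n = 0 := by omega
      rw [this, h0, zero_mul]
  rw [← h3]

theorem ru4_V (δ : ℝ) (hδ : 0 < δ) : ∃ w₀ : ℕ, ∀ w : ℕ, w₀ ≤ w →
    (SW.LG3V w)⁻¹ ≤ (1 + δ) * Real.exp Real.eulerMascheroniConstant * Real.log w := by
  have h1 := (SW.LG3_mertens 1 zero_lt_one).comp tendsto_natCast_atTop_atTop
  have h2 : Real.exp (-Real.eulerMascheroniConstant) / (1 + δ) <
      Real.exp (-Real.eulerMascheroniConstant) := by
    rw [div_lt_iff₀ (by linarith)]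
    have := Real.exp_pos (-Real.eulerMascheroniConstant)
    nlinarith
  obtain ⟨w₀, hw₀⟩ := Filter.eventually_atTop.1
    ((h1.eventually_const_lt h2).and (Filter.eventually_ge_atTop 3))
  refine ⟨w₀, fun w hw => ?_⟩
  obtain ⟨hy, hw3⟩ := hw₀ w hw
  simp only [Function.comp, one_mul, Nat.floor_natCast] at hy
  have h5 := SW.TS9_LG3V_pos w
  rw [inv_le_iff_one_le_mul₀ h5]
  have h7 : Real.exp Real.eulerMascheroniConstant * Real.exp (-Real.eulerMascheroniConstant) = 1 := by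
    rw [← Real.exp_add]
    simp
  have h8 : (1 + δ) * Real.exp Real.eulerMascheroniConstant *
      (Real.exp (-Real.eulerMascheroniConstant) / (1 + δ)) = 1 := by
    have h9 : (1 + δ) * Real.exp Real.eulerMascheroniConstant *
      (Real.exp (-Real.eulerMascheroniConstant) / (1 + δ)) =
      Real.exp Real.eulerMascheroniConstant * Real.exp (-Real.eulerMascheroniConstant) := by
      field_simp
    rw [h9, h7]
  calc (1 : ℝ) = (1 + δ) * Real.exp Real.eulerMascheroniConstant *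
      (Real.exp (-Real.eulerMascheroniConstant) / (1 + δ)) := h8.symm
    _ ≤ (1 + δ) * Real.exp Real.eulerMascheroniConstant * (Real.log w * SW.LG3V w) :=
      mul_le_mul_of_nonneg_left hy.le (by positivity)
    _ = _ := by ring

/-- the count of the second exceptional set -/
theorem ru4_count (K : ℕ) (C δ L x P m c : ℝ) (hC : 0 < C) (hδ : 0 < δ) (hL : 1 ≤ L)
    (hL2 : 2 * C ^ 2 / δ ^ 2 ≤ L) (hx : 0 < x) (hP : x / L ^ K ≤ P) (hm : P ≤ m) (hc0 : 0 ≤ c)
    (hc : c * (δ * m) ^ 2 ≤ (C * x / L ^ (2 * K + 4)) ^ 2 * (x * L ^ 2)) : c ≤ P / 2 := by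
  have hL0 : 0 < L := by linarith
  have hQ : 0 < x / L ^ K := by positivity
  have hP0 : 0 < P := hQ.trans_le hP
  have h1 : c * (δ * P) ^ 2 ≤ c * (δ * m) ^ 2 := by
    apply mul_le_mul_of_nonneg_left _ hc0
    apply pow_le_pow_left₀ (by positivity)
    exact mul_le_mul_of_nonneg_left hm hδ.le
  have h2 : (C * x / L ^ (2 * K + 4)) ^ 2 * (x * L ^ 2) =
      C ^ 2 / L ^ (K + 6) * (x / L ^ K) ^ 3 := by
    have e1 : L ^ (2 * K + 4) = L ^ K * L ^ K * L ^ 4 := by
      rw [← pow_add, ← pow_add]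
      congr 1
      ring
    have e2 : L ^ (K + 6) = L ^ K * L ^ 6 := pow_add _ _ _
    rw [e1, e2]
    field_simp
  have h3 : C ^ 2 / L ^ (K + 6) ≤ δ ^ 2 / 2 := by
    rw [div_le_iff₀ (by positivity)] at hL2
    rw [div_le_div_iff₀ (by positivity) (by norm_num)]
    have h4 : L ≤ L ^ (K + 6) := le_self_pow₀ hL (by omega)
    have h5 : L * δ ^ 2 ≤ L ^ (K + 6) * δ ^ 2 := mul_le_mul_of_nonneg_right h4 (by positivity)
    linarith
  have h4 : C ^ 2 / L ^ (K + 6) * (x / L ^ K) ^ 3 ≤ δ ^ 2 / 2 * P ^ 3 := by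
    apply mul_le_mul h3 (pow_le_pow_left₀ hQ.le hP 3) (by positivity) (by positivity)
  have h5 : c * (δ ^ 2 * P ^ 2) ≤ P / 2 * (δ ^ 2 * P ^ 2) := by
    calc c * (δ ^ 2 * P ^ 2) = c * (δ * P) ^ 2 := by ring
      _ ≤ _ := h1
      _ ≤ _ := hc
      _ = _ := h2
      _ ≤ _ := h4
      _ = _ := by ring
  exact le_of_mul_le_mul_right h5 (by positivity)

theorem upper_uni (K : ℕ) (hK : 1 ≤ K) (ε : ℝ) (hε : 0 < ε) : ∃ H₀ : ℝ, ∃ X₀ : ℕ, ∀ X : ℕ,
    X₀ ≤ X → ∀ H : ℝ, H₀ ≤ H → H ≤ K * Real.log (Real.log X) → ∀ (f : ℕ → ℝ) (m : ℝ),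
      (∀ s, 0 ≤ f s ∧ f s ≤ lam s) → (∀ s, X < s → f s = 0) → ∑ s ∈ Icc 1 X, f s ≤ m →
      X * Real.exp (-H) ≤ m →
      (((Icc 1 X).filter (fun N =>
        (1 + ε) * Real.exp Real.eulerMascheroniConstant * Real.log H * m <
          ∑ x ∈ range (N + 1), f x * lam (N - x))).card : ℝ) ≤ X * Real.exp (-H) := by
  obtain ⟨δ, hδ, hδ8, hδε⟩ : ∃ δ : ℝ, 0 < δ ∧ δ ≤ 1 / 8 ∧ 10 * δ ≤ ε :=
    ⟨min (1 / 8) (ε / 10), lt_min (by norm_num) (by linarith), min_le_left _ _, by
      have := min_le_right (1 / 8 : ℝ) (ε / 10)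
      linarith⟩
  obtain ⟨B₀, hB₀⟩ := SW.fourier_rz (2 * K + 4)
  obtain ⟨C, hC, hF⟩ := hB₀ (max B₀ 1) (le_max_left _ _)
  obtain ⟨B, hBdef⟩ : ∃ B : ℕ, B = max B₀ 1 := ⟨_, rfl⟩
  rw [← hBdef] at hF
  have hB1 : 1 ≤ B := by rw [hBdef]; exact le_max_right _ _
  obtain ⟨H₁, X₁, hX₁⟩ := large_uni B K hB1 hK δ hδ hδ8
  obtain ⟨w₀, hw₀⟩ := ru4_V δ hδ
  obtain ⟨X₂, hX₂⟩ := Filter.eventually_atTop.1
    ((SW.LG3_log_ev (max 1 (2 * C ^ 2 / δ ^ 2))).and (Filter.eventually_ge_atTop (max 3 X₁)))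
  refine ⟨max H₁ (max w₀ 3), X₂, fun X hX H hH hHK f m hf hfX hfm hm => ?_⟩
  obtain ⟨hL, hX3⟩ := hX₂ X hX
  have hX3' : 3 ≤ X := (le_max_left _ _).trans hX3
  have hXX₁ : X₁ ≤ X := (le_max_right _ _).trans hX3
  have hH1 : H₁ ≤ H := (le_max_left _ _).trans hH
  have hHw : (w₀ : ℝ) ≤ H := (le_max_left _ _).trans ((le_max_right _ _).trans hH)
  have hH3 : 3 ≤ H := (le_max_right _ _).trans ((le_max_right _ _).trans hH)
  have hX0 : (0 : ℝ) < X := by
    have : (3 : ℝ) ≤ X := by exact_mod_cast hX3'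
    linarith
  obtain ⟨w, hHw', hwz, hlogw, hlarge⟩ := hX₁ X hXX₁ H hH1 hHK
  have hbad1 := hlarge f m hf hfm hm
  obtain ⟨L, hLdef⟩ : ∃ L : ℝ, L = Real.log X := ⟨_, rfl⟩
  rw [← hLdef] at hL hHK
  have hL1 : 1 ≤ L := (le_max_left _ _).trans hL
  have hL2 : 2 * C ^ 2 / δ ^ 2 ≤ L := (le_max_right _ _).trans hL
  have hL0 : 0 < L := by linarith
  obtain ⟨P, hPdef⟩ : ∃ P : ℝ, P = X * Real.exp (-H) := ⟨_, rfl⟩
  have hP0 : 0 < P := by rw [hPdef]; positivity
  have hP : X / L ^ K ≤ P := by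
    rw [hPdef, div_eq_mul_inv]
    apply mul_le_mul_of_nonneg_left _ hX0.le
    calc (L ^ K)⁻¹ = Real.exp (-(K * Real.log L)) := by
          rw [Real.exp_neg, Real.exp_nat_mul, Real.exp_log hL0]
      _ ≤ Real.exp (-H) := Real.exp_le_exp.mpr (by linarith)
  rw [← hPdef] at hm hbad1 ⊢
  have hm0 : 0 < m := hP0.trans_le hm
  obtain ⟨z, hzdef⟩ : ∃ z : ℕ, z = SW.zB B X := ⟨_, rfl⟩
  rw [← hzdef] at hbad1 hwz
  have hf0 : f 0 = 0 := by
    have h1 := hf 0
    have h2 : lam 0 = 0 := by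
      unfold lam
      rw [if_neg Nat.not_prime_zero]
    rw [h2] at h1
    exact le_antisymm h1.2 h1.1
  -- the second exceptional set
  have hF2 := ru4_conv X f (fun n => lam n - SW.rz z n / SW.Vz z) hfX
    (C * X / L ^ (2 * K + 4)) (fun α => by
      have := hF X hX3' X le_rfl α
      rw [← hzdef, ← hLdef] at this
      exact this)
  have hF3 := hF2.trans (mul_le_mul_of_nonneg_left (ru4_sumsq X (by omega) f hf) (by positivity))
  rw [← hLdef] at hF3
  have hbad2 := SW.TS9_cheb (Icc 1 X) (fun N => ∑ x ∈ range N,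
    f x * (lam (N - x) - SW.rz z (N - x) / SW.Vz z)) (δ * m) _ (by positivity) hF3
  have hbad2' := ru4_count K C δ L X P m _ hC hδ hL1 hL2 hX0 hP hm (Nat.cast_nonneg _) hbad2
  have hsub : (Icc 1 X).filter (fun N =>
      (1 + ε) * Real.exp Real.eulerMascheroniConstant * Real.log H * m <
        ∑ x ∈ range (N + 1), f x * lam (N - x)) ⊆
      ((Icc 1 X).filter (fun N => (1 + 4 * δ) * (SW.Vw w z * m) ≤ FW w z f X N)) ∪
      ((Icc 1 X).filter (fun N => δ * m ≤ |∑ x ∈ range N,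
        f x * (lam (N - x) - SW.rz z (N - x) / SW.Vz z)|)) := by
    intro N hN
    rw [Finset.mem_filter] at hN
    rw [Finset.mem_union, Finset.mem_filter, Finset.mem_filter]
    by_contra hcon
    push Not at hcon
    have h1 := hcon.1 hN.1
    have h2 := hcon.2 hN.1
    apply absurd hN.2
    rw [not_lt]
    have hNX := (Finset.mem_Icc.mp hN.1).2
    have hVz0 : 0 < SW.Vz z := by rw [SW.TS9_Vz]; exact SW.TS9_LG3V_pos z
    have hlogH : 1 ≤ Real.log H := by
      rw [Real.le_log_iff_exp_le (by linarith)]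
      have := Real.exp_one_lt_d9
      linarith
    have hww : w₀ ≤ w := by exact_mod_cast hHw.trans hHw'
    apply SW.TS9_const δ ε _ (Real.log w) (Real.log H) m (SW.LG3V w) _
      (∑ x ∈ range N, f x * SW.rz z (N - x) / SW.Vz z)
      (∑ x ∈ range N, f x * (lam (N - x) - SW.rz z (N - x) / SW.Vz z)) hδ hδ8 hδε
      (Real.one_le_exp (by have := Real.one_half_lt_eulerMascheroniConstant; linarith)) hlogH
      hlogw hm0.le (SW.TS9_LG3V_pos w) (hw₀ w hww)
    · rw [Finset.sum_range_succ, Nat.sub_self, ← Finset.sum_add_distrib]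
      have h3 : lam 0 = 0 := by
        unfold lam
        rw [if_neg Nat.not_prime_zero]
      rw [h3, mul_zero, add_zero]
      apply Finset.sum_congr rfl
      intro s _
      ring
    · exact (le_abs_self _).trans h2.le
    · rw [← Finset.sum_div]
      have h3 := ru4_rz w z X N hNX f (fun s => (hf s).1) hf0
      have h4 : SW.Vz z = SW.LG3V w * SW.Vw w z := by rw [SW.TS9_Vz, SW.TS9_V_mul w z hwz]
      rw [div_le_iff₀ hVz0, h4]
      have h5 := SW.TS9_LG3V_pos w
      calc ∑ x ∈ range N, f x * SW.rz z (N - x) ≤ FW w z f X N := h3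
        _ ≤ (1 + 4 * δ) * (SW.Vw w z * m) := h1.le
        _ = (1 + 4 * δ) * m * (SW.LG3V w)⁻¹ * (SW.LG3V w * SW.Vw w z) := by
            field_simp
  have hcard2 : (((Icc 1 X).filter (fun N =>
      (1 + ε) * Real.exp Real.eulerMascheroniConstant * Real.log H * m <
        ∑ x ∈ range (N + 1), f x * lam (N - x))).card : ℝ) ≤
      ((((Icc 1 X).filter (fun N => (1 + 4 * δ) * (SW.Vw w z * m) ≤ FW w z f X N)).card : ℝ) +
      (((Icc 1 X).filter (fun N => δ * m ≤ |∑ x ∈ range N,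
        f x * (lam (N - x) - SW.rz z (N - x) / SW.Vz z)|)).card : ℝ)) := by
    have := (Finset.card_le_card hsub).trans (Finset.card_union_le _ _)
    exact_mod_cast this
  refine hcard2.trans ?_
  linarith

end Pool.Agent.Lib.MP_7b7e48_nt.RU
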