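import Pool.Agent.Lib.MP_7b7e48_nt.RU.RU0

/-!
# RU-5: the Fourier transform of the difference between primes and rough numbers in a residue class

PROOF.   `1[n ≡ a mod W] = (1/W) ∑_{h < W} e (h (n - a)/W)`, so the sum is an average of `W` sums as in `SW.fourier_rz A` (`Y = X`) at
the points `α + h/W`, times unimodular constants.
-/

set_option autoImplicit false

open Finset Pool.Agent.Lib.GT

namespace Pool.Agent.Lib.MP_7b7e48_nt.RU

theorem ru5_e_pow (x : ℝ) (h : ℕ) : e (h * x) = e x ^ h := by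
  unfold e
  rw [← Complex.exp_nat_mul]
  congr 1
  push_cast
  ring

theorem ru5_orth (W : ℕ) (hW : 1 ≤ W) (m : ℤ) :
    ∑ h ∈ range W, e (h * ((m : ℝ) / W)) = if (W : ℤ) ∣ m then (W : ℂ) else 0 := by
  have hW0 : (W : ℝ) ≠ 0 := by positivity
  simp_rw [ru5_e_pow]
  split_ifs with hd
  · obtain ⟨c, rfl⟩ := hd
    have h1 : (((W : ℤ) * c : ℤ) : ℝ) / W = (c : ℤ) := by
      push_cast
      field_simp
    rw [h1, e_int]
    simp
  · have h1 : e ((m : ℝ) / W) ≠ 1 := by
      intro h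
      unfold e at h
      rw [Complex.exp_eq_one_iff] at h
      obtain ⟨n, hn⟩ := h
      have h2 : (((m : ℝ) / W : ℝ) : ℂ) = (n : ℂ) := by
        have h3 : (2 * Real.pi * Complex.I : ℂ) ≠ 0 := Complex.two_pi_I_ne_zero
        apply mul_right_cancel₀ h3
        rw [← hn]
        ring
      have h3 : (m : ℝ) / W = n := by exact_mod_cast h2
      rw [div_eq_iff hW0] at h3
      apply hd
      exact ⟨n, by have h4 : m = n * W := by exact_mod_cast h3
                   rw [h4, mul_comm]⟩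
    have h2 : e ((m : ℝ) / W) ^ W = 1 := by
      rw [← ru5_e_pow]
      have : (W : ℝ) * ((m : ℝ) / W) = (m : ℤ) := by
        field_simp
      rw [this, e_int]
    rw [geom_sum_eq h1, h2]
    simp

theorem ru5_class (X W a : ℕ) (hW : 1 ≤ W) (ha : a < W) (F : ℕ → ℝ) (Bd : ℝ)
    (hB : ∀ α : ℝ, ‖∑ n ∈ Icc 1 X, ((F n : ℝ) : ℂ) * e (n * α)‖ ≤ Bd) (α : ℝ) :
    ‖∑ n ∈ Icc 1 X, (((if n % W = a then F n else 0 : ℝ)) : ℂ) * e (n * α)‖ ≤ Bd := by
  have hW0 : (W : ℂ) ≠ 0 := by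
    have : W ≠ 0 := by omega
    exact_mod_cast this
  have key : ∑ n ∈ Icc 1 X, (((if n % W = a then F n else 0 : ℝ)) : ℂ) * e (n * α) =
      (1 / (W : ℂ)) * ∑ h ∈ range W, e (-(h * (a / W))) *
        ∑ n ∈ Icc 1 X, ((F n : ℝ) : ℂ) * e (n * (α + h / W)) := by
    have h1 : ∀ h ∈ range W, e (-((h : ℝ) * (a / W))) *
        ∑ n ∈ Icc 1 X, ((F n : ℝ) : ℂ) * e (n * (α + h / W)) =
        ∑ n ∈ Icc 1 X, ((F n : ℝ) : ℂ) * e (n * α) * e (h * ((((n : ℤ) - a : ℤ) : ℝ) / W)) := by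
      intro h _
      rw [Finset.mul_sum]
      apply Finset.sum_congr rfl
      intro n _
      have h2 : e (n * (α + h / W)) * e (-((h : ℝ) * (a / W))) =
          e (n * α) * e (h * ((((n : ℤ) - a : ℤ) : ℝ) / W)) := by
        rw [← e_add, ← e_add]
        congr 1
        push_cast
        ring
      calc e (-((h : ℝ) * (a / W))) * (((F n : ℝ) : ℂ) * e (n * (α + h / W)))
          = ((F n : ℝ) : ℂ) * (e (n * (α + h / W)) * e (-((h : ℝ) * (a / W)))) := by ring
        _ = _ := by rw [h2]; ring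
    rw [Finset.sum_congr rfl h1, Finset.sum_comm, Finset.mul_sum]
    apply Finset.sum_congr rfl
    intro n _
    rw [← Finset.mul_sum, ru5_orth W hW]
    have h3 : ((W : ℤ) ∣ (n : ℤ) - a) ↔ n % W = a := by
      constructor
      · intro h
        have h4 : (n : ℤ) ≡ a [ZMOD W] := (Int.modEq_iff_dvd.mpr (by
          rw [← neg_sub]
          exact (dvd_neg).mpr h) : (n : ℤ) ≡ a [ZMOD W])
        have h5 : n ≡ a [MOD W] := (Int.natCast_modEq_iff).mp h4
        unfold Nat.ModEq at h5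
        rw [h5, Nat.mod_eq_of_lt ha]
      · intro h
        have h5 : n ≡ a [MOD W] := by
          unfold Nat.ModEq
          rw [h, Nat.mod_eq_of_lt ha]
        have h4 : (n : ℤ) ≡ a [ZMOD W] := (Int.natCast_modEq_iff).mpr h5
        have h6 := Int.modEq_iff_dvd.mp h4
        rw [← neg_sub]
        exact (dvd_neg).mpr h6
    by_cases hn : n % W = a
    · rw [if_pos hn, if_pos (h3.mpr hn)]
      field_simp
    · rw [if_neg hn, if_neg (fun h => hn (h3.mp h))]
      simp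
  rw [key, norm_mul, norm_div, norm_one, Complex.norm_natCast]
  have hWpos : (0 : ℝ) < W := by exact_mod_cast hW
  calc 1 / (W : ℝ) * ‖∑ h ∈ range W, e (-((h : ℝ) * (a / W))) *
        ∑ n ∈ Icc 1 X, ((F n : ℝ) : ℂ) * e (n * (α + h / W))‖
      ≤ 1 / (W : ℝ) * ∑ h ∈ range W, Bd := by
        apply mul_le_mul_of_nonneg_left _ (by positivity)
        apply norm_sum_le_of_le
        intro h _
        rw [norm_mul, norm_e, one_mul]
        exact hB _
    _ = Bd := by
        rw [Finset.sum_const, Finset.card_range, nsmul_eq_mul]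
        field_simp

theorem fourier_class (A : ℕ) : ∃ B₀ : ℕ, ∀ B : ℕ, B₀ ≤ B → ∃ C : ℝ, 0 < C ∧ ∀ X : ℕ, 3 ≤ X →
    ∀ W a : ℕ, 1 ≤ W → ∀ α : ℝ,
      ‖∑ n ∈ Icc 1 X, (((if n % W = a then lam n - SW.rz (SW.zB B X) n / SW.Vz (SW.zB B X)
        else 0 : ℝ)) : ℂ) * e (n * α)‖ ≤ C * X / (Real.log X) ^ A := by
  obtain ⟨B₀, h⟩ := SW.fourier_rz A
  refine ⟨B₀, fun B hB => ?_⟩
  obtain ⟨C, hC, hF⟩ := h B hB
  refine ⟨C, hC, fun X hX W a hW α => ?_⟩
  by_cases ha : a < W
  · exact ru5_class X W a hW ha (fun n => lam n - SW.rz (SW.zB B X) n / SW.Vz (SW.zB B X)) _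
      (fun α => hF X hX X le_rfl α) α
  · have h0 : ∀ n ∈ Icc 1 X, (((if n % W = a then lam n - SW.rz (SW.zB B X) n / SW.Vz (SW.zB B X)
        else 0 : ℝ)) : ℂ) * e (n * α) = 0 := by
      intro n _
      have h1 : n % W < W := Nat.mod_lt _ (by omega)
      rw [if_neg (by omega)]
      simp
    rw [Finset.sum_eq_zero h0, norm_zero]
    have h2 : 0 ≤ Real.log X := Real.log_natCast_nonneg X
    positivity

end Pool.Agent.Lib.MP_7b7e48_nt.RU
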