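import Pool.Agent.Lib.MP_7b7e48_nt.RU.RU5

/-!
# RU-5b: transfer of the number of pairs in residue classes to rough numbers

PROOF.  `A = 2 K + 3`.  With `u = lam - rz/Vz`, `u_a = u 1[≡ a]`, `g_a = 1[≡ a] rz/Vz` (all truncated to `[1, X]`; for `N ≤ X` this changes nothing, `lam 0 = 0`,
`rz z 0 = 0` for `z ≥ 2`), `PL - PZ = ∑_x u_a(x) lam(N-x) + ∑_x g_a(x) u(N-x)`.  `Transfer.conv_l2` (`e (α n)`, `range (X+1)`) twice: second moment
`≤ 2 (C X/(log X)^A)² (X (log X)² + X/Vz²)`, `1/Vz ≤ C log X` (`SW.Vz_inv_le`).  Chebyshev: `|PL - PZ| > X/(log X)^K` for at most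
`C' X (log X)^(2 + 2K - 2A)` of the `N ≤ X`; the union over the at most `(log X)²` pairs `(W, a)` is `E`.
-/

set_option autoImplicit false

open Finset Pool.Agent.Lib.GT

namespace Pool.Agent.Lib.MP_7b7e48_nt.RU

/-- `lam - rz/Vz` on `[1, X]` in a residue class -/
noncomputable def ru5b_u (z X W a x : ℕ) : ℝ :=
  if 1 ≤ x ∧ x ≤ X ∧ x % W = a then lam x - SW.rz z x / SW.Vz z else 0

/-- `lam` on `[0, X]` -/
noncomputable def ru5b_v (X x : ℕ) : ℝ := if x ≤ X then lam x else 0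

/-- `rz/Vz` on `[1, X]` in a residue class -/
noncomputable def ru5b_g (z X W a x : ℕ) : ℝ :=
  if 1 ≤ x ∧ x ≤ X ∧ x % W = a then SW.rz z x / SW.Vz z else 0

theorem ru5b_lam0 : lam 0 = 0 := by
  unfold lam
  rw [if_neg Nat.not_prime_zero]

theorem ru5b_rz0 {z : ℕ} (hz : 2 ≤ z) : SW.rz z 0 = 0 := by
  unfold SW.rz
  rw [if_neg]
  rw [Nat.coprime_zero_left]
  intro h
  have h1 : 2 ∣ primorial z := by
    unfold primorial
    exact Finset.dvd_prod_of_mem (fun p : ℕ => p)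
      (Finset.mem_filter.2 ⟨Finset.mem_range.2 (by omega), Nat.prime_two⟩)
  rw [h] at h1
  omega

theorem ru5b_split {z X W a N : ℕ} (hz : 2 ≤ z) (hN : N ≤ X) :
    PL W a N - PZ z W a N =
      ∑ x ∈ range (N + 1), ru5b_u z X W a x * ru5b_v X (N - x) +
      ∑ x ∈ range (N + 1), ru5b_u z X 1 0 x * ru5b_g z X W a (N - x) := by
  have hrefl : ∑ x ∈ range (N + 1), ru5b_u z X 1 0 x * ru5b_g z X W a (N - x) =
      ∑ x ∈ range (N + 1), ru5b_g z X W a x * ru5b_u z X 1 0 (N - x) := by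
    rw [← Finset.sum_range_reflect (fun x => ru5b_g z X W a x * ru5b_u z X 1 0 (N - x)) (N + 1)]
    refine Finset.sum_congr rfl fun x hx => ?_
    have hx' := Finset.mem_range.1 hx
    have e1 : N + 1 - 1 - x = N - x := by omega
    have e2 : N - (N - x) = x := by omega
    rw [e1, e2, mul_comm]
  rw [hrefl, ← Finset.sum_add_distrib]
  unfold PL PZ
  rw [Finset.sum_div, ← Finset.sum_sub_distrib]
  refine Finset.sum_congr rfl fun x hx => ?_
  have hx' := Finset.mem_range.1 hx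
  have hV := SW.TS5_Vz_pos z
  have hl0 := ru5b_lam0
  have hr0 := ru5b_rz0 hz
  have h1 : ru5b_v X (N - x) = lam (N - x) := by
    unfold ru5b_v
    rw [if_pos (by omega)]
  have h2 : ∀ y, y ≤ X → ru5b_u z X 1 0 y = lam y - SW.rz z y / SW.Vz z := by
    intro y hy
    unfold ru5b_u
    by_cases h : 1 ≤ y
    · rw [if_pos ⟨h, hy, Nat.mod_one y⟩]
    · have : y = 0 := by omega
      subst this
      rw [if_neg (by omega), hl0, hr0, zero_div, sub_zero]
  have h3 : ru5b_u z X W a x = if x % W = a then lam x - SW.rz z x / SW.Vz z else 0 := by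
    unfold ru5b_u
    by_cases h : 1 ≤ x
    · by_cases h' : x % W = a
      · rw [if_pos ⟨h, by omega, h'⟩, if_pos h']
      · rw [if_neg (fun hh => h' hh.2.2), if_neg h']
    · have : x = 0 := by omega
      subst this
      rw [if_neg (by omega), hl0, hr0, zero_div, sub_zero]
      split_ifs <;> rfl
  have h4 : ru5b_g z X W a x = if x % W = a then SW.rz z x / SW.Vz z else 0 := by
    unfold ru5b_g
    by_cases h : 1 ≤ x
    · by_cases h' : x % W = a
      · rw [if_pos ⟨h, by omega, h'⟩, if_pos h']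
      · rw [if_neg (fun hh => h' hh.2.2), if_neg h']
    · have : x = 0 := by omega
      subst this
      rw [if_neg (by omega), hr0, zero_div]
      split_ifs <;> rfl
  rw [h1, h2 (N - x) (by omega), h3, h4]
  by_cases h : x % W = a
  · rw [if_pos h, if_pos h, if_pos h, if_pos h]
    field_simp
    ring
  · rw [if_neg h, if_neg h, if_neg h, if_neg h]
    ring

theorem ru5b_sup {z X W a : ℕ} {S : ℝ}
    (h : ∀ α : ℝ, ‖∑ n ∈ Icc 1 X, (((if n % W = a then lam n - SW.rz z n / SW.Vz z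
        else 0 : ℝ)) : ℂ) * e (n * α)‖ ≤ S) (α : ℝ) :
    ‖∑ n ∈ range (X + 1), ((ru5b_u z X W a n : ℝ) : ℂ) * e (α * n)‖ ≤ S := by
  refine le_trans (le_of_eq ?_) (h α)
  congr 1
  symm
  have h1 : ∀ n ∈ Icc 1 X, (((if n % W = a then lam n - SW.rz z n / SW.Vz z
        else 0 : ℝ)) : ℂ) * e (n * α) = ((ru5b_u z X W a n : ℝ) : ℂ) * e (α * n) := by
    intro n hn
    obtain ⟨hn1, hn2⟩ := Finset.mem_Icc.1 hn
    have h2 : ru5b_u z X W a n = if n % W = a then lam n - SW.rz z n / SW.Vz z else 0 := by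
      unfold ru5b_u
      by_cases h' : n % W = a
      · rw [if_pos ⟨hn1, hn2, h'⟩, if_pos h']
      · rw [if_neg (fun hh => h' hh.2.2), if_neg h']
    rw [h2, mul_comm (n : ℝ) α]
  rw [Finset.sum_congr rfl h1]
  apply Finset.sum_subset
  · intro n hn
    rw [Finset.mem_Icc] at hn
    rw [Finset.mem_range]
    omega
  · intro n hn hn'
    rw [Finset.mem_range] at hn
    rw [Finset.mem_Icc] at hn'
    have : n = 0 := by omega
    subst this
    have h2 : ru5b_u z X W a 0 = 0 := by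
      unfold ru5b_u
      rw [if_neg (by omega)]
    rw [h2, Complex.ofReal_zero, zero_mul]

theorem ru5b_vsq (X : ℕ) : ∑ n ∈ range (X + 1), (ru5b_v X n) ^ 2 ≤ (X + 1) * (Real.log X) ^ 2 := by
  calc ∑ n ∈ range (X + 1), (ru5b_v X n) ^ 2 ≤ ∑ _n ∈ range (X + 1), (Real.log X) ^ 2 := by
        refine Finset.sum_le_sum fun n hn => ?_
        have hn' := Finset.mem_range.1 hn
        unfold ru5b_v
        rw [if_pos (by omega)]
        have h1 := lam_nonneg n
        have h2 := lam_le_log n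
        have h3 : Real.log n ≤ Real.log X := by
          by_cases h0 : n = 0
          · subst h0
            rw [Nat.cast_zero, Real.log_zero]
            exact Real.log_natCast_nonneg X
          · exact Real.log_le_log (by exact_mod_cast Nat.pos_of_ne_zero h0)
              (by exact_mod_cast (by omega : n ≤ X))
        exact pow_le_pow_left₀ h1 (h2.trans h3) 2
    _ = (X + 1) * (Real.log X) ^ 2 := by
        rw [Finset.sum_const, Finset.card_range, nsmul_eq_mul]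
        push_cast
        ring

theorem ru5b_gsq (z X W a : ℕ) {L : ℝ} (hL : (SW.Vz z)⁻¹ ≤ L) :
    ∑ n ∈ range (X + 1), (ru5b_g z X W a n) ^ 2 ≤ (X + 1) * L ^ 2 := by
  have hV := SW.TS5_Vz_pos z
  have hVi : 0 < (SW.Vz z)⁻¹ := inv_pos.2 hV
  calc ∑ n ∈ range (X + 1), (ru5b_g z X W a n) ^ 2 ≤ ∑ _n ∈ range (X + 1), L ^ 2 := by
        refine Finset.sum_le_sum fun n _ => ?_
        have h1 : 0 ≤ ru5b_g z X W a n ∧ ru5b_g z X W a n ≤ L := by
          unfold ru5b_g SW.rz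
          split_ifs
          · rw [one_div]
            exact ⟨hVi.le, hL⟩
          · rw [zero_div]
            exact ⟨le_refl _, hVi.le.trans hL⟩
          · exact ⟨le_refl _, hVi.le.trans hL⟩
        exact pow_le_pow_left₀ h1.1 h1.2 2
    _ = (X + 1) * L ^ 2 := by
        rw [Finset.sum_const, Finset.card_range, nsmul_eq_mul]
        push_cast
        ring

/-- the second moment -/
theorem ru5b_moment {z X W a : ℕ} (hz : 2 ≤ z) {S L : ℝ} (hL : (SW.Vz z)⁻¹ ≤ L)
    (h : ∀ W a : ℕ, 1 ≤ W → ∀ α : ℝ,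
      ‖∑ n ∈ Icc 1 X, (((if n % W = a then lam n - SW.rz z n / SW.Vz z
        else 0 : ℝ)) : ℂ) * e (n * α)‖ ≤ S) (hW : 1 ≤ W) :
    ∑ N ∈ Icc 1 X, (PL W a N - PZ z W a N) ^ 2 ≤
      2 * (S ^ 2 * ((X + 1) * (Real.log X) ^ 2)) + 2 * (S ^ 2 * ((X + 1) * L ^ 2)) := by
  have hu : ∀ W a n : ℕ, X < n → ru5b_u z X W a n = 0 := by
    intro W a n hn
    unfold ru5b_u
    rw [if_neg (by omega)]
  have c1 := Transfer.conv_l2 (X := X) (u := ru5b_u z X W a) (v := ru5b_v X) (S := S)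
    (hu W a) (fun n hn => by unfold ru5b_v; rw [if_neg (by omega)]) (ru5b_sup (h W a hW))
  have c2 := Transfer.conv_l2 (X := X) (u := ru5b_u z X 1 0) (v := ru5b_g z X W a) (S := S)
    (hu 1 0) (fun n hn => by unfold ru5b_g; rw [if_neg (by omega)]) (ru5b_sup (h 1 0 le_rfl))
  have hS2 : 0 ≤ S ^ 2 := sq_nonneg S
  have d1 := c1.trans (mul_le_mul_of_nonneg_left (ru5b_vsq X) hS2)
  have d2 := c2.trans (mul_le_mul_of_nonneg_left (ru5b_gsq z X W a hL) hS2)
  have hsub : Icc 1 X ⊆ range (2 * X + 1) := by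
    intro n hn
    rw [Finset.mem_Icc] at hn
    rw [Finset.mem_range]
    omega
  calc ∑ N ∈ Icc 1 X, (PL W a N - PZ z W a N) ^ 2
      ≤ ∑ N ∈ Icc 1 X, (2 * (∑ x ∈ range (N + 1), ru5b_u z X W a x * ru5b_v X (N - x)) ^ 2 +
          2 * (∑ x ∈ range (N + 1), ru5b_u z X 1 0 x * ru5b_g z X W a (N - x)) ^ 2) := by
        refine Finset.sum_le_sum fun N hN => ?_
        rw [ru5b_split hz (Finset.mem_Icc.1 hN).2]
        nlinarith [sq_nonneg ((∑ x ∈ range (N + 1), ru5b_u z X W a x * ru5b_v X (N - x)) -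
          (∑ x ∈ range (N + 1), ru5b_u z X 1 0 x * ru5b_g z X W a (N - x)))]
    _ ≤ ∑ N ∈ range (2 * X + 1),
          (2 * (∑ x ∈ range (N + 1), ru5b_u z X W a x * ru5b_v X (N - x)) ^ 2 +
          2 * (∑ x ∈ range (N + 1), ru5b_u z X 1 0 x * ru5b_g z X W a (N - x)) ^ 2) := by
        refine Finset.sum_le_sum_of_subset_of_nonneg hsub fun N _ _ => ?_
        positivity
    _ = 2 * ∑ N ∈ range (2 * X + 1),
          (∑ x ∈ range (N + 1), ru5b_u z X W a x * ru5b_v X (N - x)) ^ 2 +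
        2 * ∑ N ∈ range (2 * X + 1),
          (∑ x ∈ range (N + 1), ru5b_u z X 1 0 x * ru5b_g z X W a (N - x)) ^ 2 := by
        rw [Finset.sum_add_distrib, ← Finset.mul_sum, ← Finset.mul_sum]
    _ ≤ _ := by
        exact add_le_add (mul_le_mul_of_nonneg_left d1 (by norm_num))
          (mul_le_mul_of_nonneg_left d2 (by norm_num))

theorem pairs_transfer (K : ℕ) : ∃ B₀ : ℕ, ∀ B : ℕ, B₀ ≤ B → ∃ X₀ : ℕ, ∀ X : ℕ, X₀ ≤ X →
    ∃ E : Finset ℕ, (E.card : ℝ) ≤ X / (Real.log X) ^ K ∧ ∀ N : ℕ, 1 ≤ N → N ≤ X → N ∉ E →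
      ∀ W a : ℕ, 1 ≤ W → (W : ℝ) ≤ Real.log X → a < W →
        |PL W a N - PZ (SW.zB B X) W a N| ≤ X / (Real.log X) ^ K := by
  classical
  obtain ⟨B₁, hB₁⟩ := fourier_class (2 * K + 3)
  refine ⟨max B₁ 1, fun B hB => ?_⟩
  obtain ⟨C, hC, hF⟩ := hB₁ B ((le_max_left _ _).trans hB)
  have hB1 : 1 ≤ B := (le_max_right _ _).trans hB
  obtain ⟨D, hD, hDV⟩ := SW.TS5_inv B
  -- the threshold
  have hlog : Filter.Tendsto (fun X : ℕ => Real.log X) Filter.atTop Filter.atTop :=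
    Real.tendsto_log_atTop.comp tendsto_natCast_atTop_atTop
  obtain ⟨X₁, hX₁⟩ := Filter.eventually_atTop.1
    (hlog.eventually_ge_atTop (max 2 (4 * C ^ 2 * (1 + D ^ 2))))
  refine ⟨max X₁ 3, fun X hX => ?_⟩
  have hX1 : X₁ ≤ X := (le_max_left _ _).trans hX
  have hX3 : 3 ≤ X := (le_max_right _ _).trans hX
  have hXr : (3 : ℝ) ≤ X := by exact_mod_cast hX3
  have hLg := hX₁ X hX1
  set l : ℝ := Real.log X with hl
  have hl2 : 2 ≤ l := (le_max_left _ _).trans hLg
  have hlC : 4 * C ^ 2 * (1 + D ^ 2) ≤ l := (le_max_right _ _).trans hLg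
  have hl0 : 0 < l := by linarith
  set z := SW.zB B X with hz
  have hz2 : 2 ≤ z := by
    rw [hz]
    unfold SW.zB
    apply Nat.le_floor
    have h1 : l ^ 1 ≤ l ^ B := pow_le_pow_right₀ (by linarith) hB1
    rw [pow_one] at h1
    push_cast
    linarith
  set S : ℝ := C * X / l ^ (2 * K + 3) with hS
  set T : ℝ := X / l ^ K with hT
  have hT0 : 0 < T := by positivity
  have hmom : ∀ W a : ℕ, 1 ≤ W → ∑ N ∈ Icc 1 X, (PL W a N - PZ z W a N) ^ 2 ≤
      2 * (S ^ 2 * ((X + 1) * l ^ 2)) + 2 * (S ^ 2 * ((X + 1) * (D * l) ^ 2)) := by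
    intro W a hW
    exact ru5b_moment hz2 (hDV X hX3) (fun W a hW α => hF X hX3 W a hW α) hW
  set F : ℕ → ℕ → Finset ℕ := fun W a =>
    (Icc 1 X).filter (fun N => T < |PL W a N - PZ z W a N|) with hFdef
  -- each exceptional set is small
  have hcard : ∀ W a : ℕ, 1 ≤ W → ((F W a).card : ℝ) ≤ X / l ^ (K + 2) := by
    intro W a hW
    have h1 : ((F W a).card : ℝ) * T ^ 2 ≤ ∑ N ∈ Icc 1 X, (PL W a N - PZ z W a N) ^ 2 := by
      calc ((F W a).card : ℝ) * T ^ 2 = ∑ _N ∈ F W a, T ^ 2 := by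
            rw [Finset.sum_const, nsmul_eq_mul]
        _ ≤ ∑ N ∈ F W a, (PL W a N - PZ z W a N) ^ 2 := by
            refine Finset.sum_le_sum fun N hN => ?_
            have h2 := (Finset.mem_filter.1 hN).2
            rw [← sq_abs (PL W a N - PZ z W a N)]
            exact pow_le_pow_left₀ hT0.le h2.le 2
        _ ≤ _ := Finset.sum_le_sum_of_subset_of_nonneg (Finset.filter_subset _ _)
            fun N _ _ => sq_nonneg _
    have h2 := h1.trans (hmom W a hW)
    have h3 : 2 * (S ^ 2 * ((X + 1) * l ^ 2)) + 2 * (S ^ 2 * ((X + 1) * (D * l) ^ 2)) ≤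
        4 * C ^ 2 * (1 + D ^ 2) * (X ^ 3 / l ^ (4 * K + 4)) := by
      have h4 : (X : ℝ) + 1 ≤ 2 * X := by linarith
      have h5 : 2 * (S ^ 2 * ((X + 1) * l ^ 2)) + 2 * (S ^ 2 * ((X + 1) * (D * l) ^ 2)) =
          2 * S ^ 2 * l ^ 2 * (1 + D ^ 2) * (X + 1) := by ring
      have h6 : S ^ 2 * l ^ 2 = C ^ 2 * (X ^ 2 / l ^ (4 * K + 4)) := by
        have e1 : l ^ (4 * K + 4) * l ^ 2 = (l ^ (2 * K + 3)) ^ 2 := by
          rw [← pow_add, ← pow_mul]
          congr 1
          ring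
        rw [hS, div_pow, ← e1]
        field_simp
      rw [h5]
      calc 2 * S ^ 2 * l ^ 2 * (1 + D ^ 2) * (X + 1)
          ≤ 2 * S ^ 2 * l ^ 2 * (1 + D ^ 2) * (2 * X) :=
            mul_le_mul_of_nonneg_left h4 (by positivity)
        _ = 4 * (1 + D ^ 2) * X * (S ^ 2 * l ^ 2) := by ring
        _ = 4 * C ^ 2 * (1 + D ^ 2) * (X ^ 3 / l ^ (4 * K + 4)) := by
            rw [h6]
            ring
    have h4 : ((F W a).card : ℝ) * T ^ 2 ≤ l * (X ^ 3 / l ^ (4 * K + 4)) :=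
      (h2.trans h3).trans (mul_le_mul_of_nonneg_right hlC (by positivity))
    have h5 : l * ((X : ℝ) ^ 3 / l ^ (4 * K + 4)) = (X / l ^ (2 * K + 3)) * T ^ 2 := by
      have e1 : l ^ (4 * K + 4) = l ^ (2 * K + 3) * l ^ (2 * K) * l := by
        rw [← pow_add, ← pow_succ]
        congr 1
        ring
      have e2 : (l ^ K) ^ 2 = l ^ (2 * K) := by
        rw [← pow_mul]
        congr 1
        ring
      rw [hT, div_pow, e1, e2]
      field_simp
    rw [h5] at h4
    have h6 := le_of_mul_le_mul_right h4 (by positivity : 0 < T ^ 2)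
    refine h6.trans ?_
    apply div_le_div_of_nonneg_left (by positivity) (by positivity)
    exact pow_le_pow_right₀ (by linarith) (by omega)
  set Lf : ℕ := ⌊l⌋₊ with hLf
  have hLf1 : (Lf : ℝ) ≤ l := Nat.floor_le hl0.le
  refine ⟨(Icc 1 Lf).biUnion fun W => (range W).biUnion fun a => F W a, ?_, ?_⟩
  · have h1 : ((((Icc 1 Lf).biUnion fun W => (range W).biUnion fun a => F W a).card : ℕ) : ℝ) ≤
        ∑ W ∈ Icc 1 Lf, ∑ a ∈ range W, ((F W a).card : ℝ) := by
      have h2 : ((Icc 1 Lf).biUnion fun W => (range W).biUnion fun a => F W a).card ≤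
          ∑ W ∈ Icc 1 Lf, ∑ a ∈ range W, (F W a).card :=
        Finset.card_biUnion_le.trans (Finset.sum_le_sum fun W _ => Finset.card_biUnion_le)
      exact_mod_cast h2
    refine h1.trans ?_
    calc ∑ W ∈ Icc 1 Lf, ∑ a ∈ range W, ((F W a).card : ℝ)
        ≤ ∑ W ∈ Icc 1 Lf, ∑ _a ∈ range W, X / l ^ (K + 2) := by
          refine Finset.sum_le_sum fun W hW => Finset.sum_le_sum fun a _ => ?_
          exact hcard W a (Finset.mem_Icc.1 hW).1
      _ ≤ ∑ _W ∈ Icc 1 Lf, l * (X / l ^ (K + 2)) := by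
          refine Finset.sum_le_sum fun W hW => ?_
          rw [Finset.sum_const, Finset.card_range, nsmul_eq_mul]
          have h3 : (W : ℝ) ≤ l := by
            have : (W : ℝ) ≤ Lf := by exact_mod_cast (Finset.mem_Icc.1 hW).2
            linarith
          exact mul_le_mul_of_nonneg_right h3 (by positivity)
      _ ≤ l * (l * (X / l ^ (K + 2))) := by
          rw [Finset.sum_const, Nat.card_Icc, nsmul_eq_mul]
          have h3 : ((Lf + 1 - 1 : ℕ) : ℝ) ≤ l := by
            rw [Nat.add_sub_cancel]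
            exact hLf1
          exact mul_le_mul_of_nonneg_right h3 (by positivity)
      _ = X / l ^ K := by
          rw [pow_add]
          field_simp
  · intro N hN1 hN2 hNE W a hW hWl ha
    by_contra hcon
    push Not at hcon
    apply hNE
    rw [Finset.mem_biUnion]
    refine ⟨W, Finset.mem_Icc.2 ⟨hW, Nat.le_floor hWl⟩, ?_⟩
    rw [Finset.mem_biUnion]
    exact ⟨a, Finset.mem_range.2 ha, Finset.mem_filter.2 ⟨Finset.mem_Icc.2 ⟨hN1, hN2⟩, hcon⟩⟩

end Pool.Agent.Lib.MP_7b7e48_nt.RU
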