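import Pool.Agent.Lib.MP_7b7e48_nt.RU.RU0

/-!
# RU-6b: the local factors

PROOFS.  `le_Wp`: a prime `p ∈ (z/2, z]` (`exists_big_prime`) and `2` divide `Wp z` (`z = 2`: `Wp 2 = 2`).
`PZ_zero`: if `a ∉ adm z` some `r ≤ z` divides `x` or `N - x`, so one of the `rz` vanishes.
`MT_lower`: `MT ≥ ∏_{z < r ≤ z'} (1 - 2/r)/Vz(z')²`, `adm_card_eq`, `totient_Wp`, `Vz z' = V z'` (`LG3_V`), `V z' = V z ∏_{z<r≤z'} (1-1/r)`,
`(1 - 2/r)/(1 - 1/r)² = 1 - 1/(r-1)²`: the product is `2 twinPartial (z'+1) Wp z ≥ 2 C2 Wp z`.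
-/

set_option autoImplicit false

open Finset Pool.Agent.Lib.GT Pool.Agent.Lib.GT.LA Pool.Agent.Lib.GT.Robust

namespace Pool.Agent.Lib.MP_7b7e48_nt.RU

theorem RU6b_rz {z r n : ℕ} (hr : r.Prime) (hrz : r ≤ z) (hn : r ∣ n) : SW.rz z n = 0 := by
  unfold SW.rz
  rw [if_neg]
  intro hc
  exact hr.one_lt.ne' (Nat.dvd_one.mp (hc ▸ Nat.dvd_gcd hn (hr.dvd_primorial_iff.mpr hrz)))

theorem PZ_zero {z z' N a : ℕ} (hz : 2 ≤ z) (hzz : z ≤ z') (hN : N % Wp z = 2 % Wp z)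
    (ha : a < Wp z) (ha' : a ∉ adm z) : PZ z' (Wp z) a N = 0 := by
  have h1 : ∃ r ∈ Pool.Agent.Lib.GT.pr z, a % r = 0 ∨ a % r = 2 % r := by
    by_contra hcon
    push Not at hcon
    exact ha' (mem_adm.mpr ⟨ha, hcon⟩)
  obtain ⟨r, hr, h2⟩ := h1
  have hr' := LA.mem_pr.mp hr
  have hrW : r ∣ Wp z := dvd_Wp hr
  have h0 : ∑ x ∈ range (N + 1), (if x % Wp z = a then SW.rz z' x else 0) * SW.rz z' (N - x) = 0 := by
    refine Finset.sum_eq_zero fun x hx => ?_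
    rw [Finset.mem_range] at hx
    by_cases h3 : x % Wp z = a
    · rw [if_pos h3]
      have h4 : x % r = a % r := by rw [← h3, Nat.mod_mod_of_dvd _ hrW]
      rcases h2 with h2 | h2
      · rw [RU6b_rz hr'.2 (hr'.1.trans hzz) (Nat.dvd_of_mod_eq_zero (h4.trans h2)), zero_mul]
      · have h5 : N % r = 2 % r := by
          have h6 := congrArg (fun t => t % r) hN
          simp only [Nat.mod_mod_of_dvd _ hrW] at h6
          exact h6
        have h7 : r ∣ N - x := by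
          rw [← Nat.modEq_iff_dvd' (by omega : x ≤ N)]
          show x % r = N % r
          rw [h4, h2, h5]
        rw [RU6b_rz hr'.2 (hr'.1.trans hzz) h7, mul_zero]
    · rw [if_neg h3, zero_mul]
  unfold PZ
  rw [h0, zero_div]

theorem RU6b_split {z z' : ℕ} (hzz : z ≤ z') (f : ℕ → ℝ) :
    ∏ p ∈ Pool.Agent.Lib.GT.pr z', f p =
      (∏ p ∈ Pool.Agent.Lib.GT.pr z, f p) * ∏ p ∈ SW.pr z z', f p := by
  have hd : Disjoint (Pool.Agent.Lib.GT.pr z) (SW.pr z z') := by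
    rw [Finset.disjoint_left]
    intro p hp hp'
    have h1 := LA.mem_pr.mp hp
    have h2 := SW.mem_pr.mp hp'
    omega
  rw [← Finset.prod_union hd]
  refine Finset.prod_congr ?_ fun _ _ => rfl
  ext p
  rw [Finset.mem_union, LA.mem_pr, LA.mem_pr, SW.mem_pr]
  constructor
  · rintro ⟨h1, h2⟩
    by_cases h3 : p ≤ z
    · exact Or.inl ⟨h3, h2⟩
    · exact Or.inr ⟨by omega, h1, h2⟩
  · rintro (⟨h1, h2⟩ | ⟨_, h1, h2⟩)
    · exact ⟨h1.trans hzz, h2⟩
    · exact ⟨h1, h2⟩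

theorem RU6b_twin (z : ℕ) : twinPartial (z + 1) =
    ∏ p ∈ Pool.Agent.Lib.GT.pr z, (if 2 < p then (1 - 1 / ((p : ℝ) - 1) ^ 2) else 1) := by
  unfold twinPartial
  rw [Finset.prod_filter]
  rfl

theorem RU6b_Vz (z : ℕ) : SW.Vz z = V z := by
  have h1 := Nat.totient_eq_mul_prod_factors (primorial z)
  have h0 : (primorial z : ℝ) ≠ 0 := by exact_mod_cast primorial_ne_zero z
  have h2 : ((primorial z).totient : ℝ) =
      (primorial z : ℝ) * ∏ p ∈ (primorial z).primeFactors, (1 - (p : ℝ)⁻¹) := by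
    have h3 := congrArg (fun r : ℚ => (r : ℝ)) h1
    push_cast at h3
    exact h3
  unfold SW.Vz
  rw [h2, mul_div_cancel_left₀ _ h0, primeFactors_primorial]
  unfold V
  refine Finset.prod_congr rfl fun p _ => ?_
  rw [one_div]

theorem MT_lower {z z' N : ℕ} (hz : 2 ≤ z) (hzz : z ≤ z') :
    2 * C2 * Wp z ≤ (adm z).card * MT z z' N := by
  have hVz : SW.Vz z' = V z' := RU6b_Vz z'
  have hV1 : V z' = V z * ∏ p ∈ SW.pr z z', (1 - 1 / (p : ℝ)) := RU6b_split hzz _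
  have hVp := V_pos z
  have hr3 : ∀ p ∈ SW.pr z z', (3 : ℝ) ≤ p := by
    intro p hp
    have h2 := SW.mem_pr.mp hp
    exact_mod_cast (show 3 ≤ p by omega)
  have hPp : 0 < ∏ p ∈ SW.pr z z', (1 - 1 / (p : ℝ)) := by
    refine Finset.prod_pos fun p hp => ?_
    have h3 := hr3 p hp
    rw [sub_pos, div_lt_one (by linarith)]
    linarith
  have htw : twinPartial (z' + 1) = twinPartial (z + 1) *
      ∏ p ∈ SW.pr z z', (1 - 1 / ((p : ℝ) - 1) ^ 2) := by
    rw [RU6b_twin, RU6b_twin, RU6b_split hzz]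
    congr 1
    refine Finset.prod_congr rfl fun p hp => ?_
    have h2 := SW.mem_pr.mp hp
    rw [if_pos (by omega)]
  have hle : ∏ p ∈ SW.pr z z', ((1 - 1 / ((p : ℝ) - 1) ^ 2) * (1 - 1 / (p : ℝ)) ^ 2) ≤
      ∏ r ∈ SW.pr z z', (1 - (if r ∣ N then (1 : ℝ) else 2) / r) := by
    refine Finset.prod_le_prod ?_ ?_
    · intro p hp
      have h3 := hr3 p hp
      refine mul_nonneg ?_ (sq_nonneg _)
      rw [sub_nonneg, div_le_one (by nlinarith)]
      nlinarith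
    · intro p hp
      have h3 := hr3 p hp
      have h4 : (1 - 1 / ((p : ℝ) - 1) ^ 2) * (1 - 1 / (p : ℝ)) ^ 2 = 1 - 2 / p := by
        have h5 : (p : ℝ) ≠ 0 := by linarith
        have h6 : (p : ℝ) - 1 ≠ 0 := by linarith
        field_simp
        ring
      rw [h4]
      split_ifs
      · have h7 : (1 : ℝ) / p ≤ 2 / p := div_le_div_of_nonneg_right (by norm_num) (by linarith)
        linarith
      · exact le_rfl
  rw [adm_card_eq hz, totient_Wp, MT, hVz, hV1]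
  set P : ℝ := ∏ p ∈ SW.pr z z', (1 - 1 / (p : ℝ)) with hP
  set Q : ℝ := ∏ r ∈ SW.pr z z', (1 - (if r ∣ N then (1 : ℝ) else 2) / r) with hQ
  set T : ℝ := ∏ p ∈ SW.pr z z', (1 - 1 / ((p : ℝ) - 1) ^ 2) with hT
  have hle' : T * P ^ 2 ≤ Q := by
    rw [hT, hP, ← Finset.prod_pow, ← Finset.prod_mul_distrib]
    exact hle
  have h8 : 2 * twinPartial (z + 1) * V z * (Wp z * V z) * (Q / (V z * P) ^ 2) =
      2 * twinPartial (z + 1) * Wp z * (Q / P ^ 2) := by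
    field_simp
  rw [h8]
  have h9 : T ≤ Q / P ^ 2 := by
    rw [le_div_iff₀ (by positivity)]
    exact hle'
  have h10 : (0 : ℝ) ≤ 2 * twinPartial (z + 1) * Wp z := by
    have := half_le_twinPartial (z + 1)
    have h11 : (0 : ℝ) ≤ twinPartial (z + 1) := by linarith
    positivity
  have h11 : (0 : ℝ) ≤ Wp z := Nat.cast_nonneg _
  calc 2 * C2 * Wp z ≤ 2 * twinPartial (z' + 1) * Wp z :=
        mul_le_mul_of_nonneg_right (by linarith [C2_le (z' + 1)]) h11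
    _ = 2 * twinPartial (z + 1) * Wp z * T := by rw [htw]; ring
    _ ≤ 2 * twinPartial (z + 1) * Wp z * (Q / P ^ 2) := mul_le_mul_of_nonneg_left h9 h10

theorem le_Wp {z : ℕ} (hz : 2 ≤ z) : z ≤ Wp z := by
  obtain ⟨p, hp, h1⟩ := exists_big_prime hz
  have hp' := LA.mem_pr.mp hp
  have hW := Wp_pos z
  have h2 : 2 ∣ Wp z := dvd_Wp (LA.mem_pr.mpr ⟨hz, Nat.prime_two⟩)
  rcases eq_or_ne p 2 with rfl | hne
  · have h3 : z ≤ 3 := by omega
    rcases Nat.lt_or_ge z 3 with h4 | h4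
    · have := Nat.le_of_dvd hW h2
      omega
    · have h5 : 3 ∣ Wp z := dvd_Wp (LA.mem_pr.mpr ⟨h4, Nat.prime_three⟩)
      have := Nat.le_of_dvd hW h5
      omega
  · have h3 : 2 * p ∣ Wp z := by
      apply Nat.Coprime.mul_dvd_of_dvd_of_dvd _ h2 (dvd_Wp hp)
      rw [Nat.coprime_primes Nat.prime_two hp'.2]
      exact hne.symm
    have := Nat.le_of_dvd hW h3
    omega

end Pool.Agent.Lib.MP_7b7e48_nt.RU
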