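import Pool.Agent.Lib.MP_7b7e48_nt.RU.RU6b
import Pool.Agent.Lib.MP_7b7e48_nt.LX.Rel2

/-!
# RU-8: the density of the extremal sets

PROOF.  the primes `≤ y` in `BT z T` are those `≤ z` (at most `z ≤ Wp z ≤ log y`, `le_Wp`) and
those in the classes of `T`, each coprime to `Wp z` (`adm_coprime`): `LX.class_count 1` gives `≤ (1+θ) y/(φ(W) log y)` each, `≥ 1` class; `π(y) ≥ (1-θ) y/log y` (`pi_lower'`).
`z ≤ log y ≤ θ y/(φ(W) log y)` for large `y`, absorbed because `T` is nonempty.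
-/

set_option autoImplicit false

open Finset Pool.Agent.Lib.GT Pool.Agent.Lib.GT.LA Pool.Agent.Lib.GT.Robust

namespace Pool.Agent.Lib.MP_7b7e48_nt.RU

lemma ru8_log_cube {θ : ℝ} (hθ : 0 < θ) : ∃ Y : ℕ, ∀ y : ℕ, Y ≤ y →
    (Real.log y) ^ 3 ≤ θ * y := by
  have h := (Real.isLittleO_pow_log_id_atTop (n := 3)).def hθ
  have h2 := h.natCast_atTop
  obtain ⟨Y, hY⟩ := Filter.eventually_atTop.mp h2
  refine ⟨Y, fun y hy => ?_⟩
  have h3 := hY y hy
  have h4 : ‖(id (y : ℝ))‖ = y := by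
    rw [id, Real.norm_of_nonneg (Nat.cast_nonneg y)]
  rw [h4] at h3
  exact (le_abs_self _).trans h3

lemma ru8_card (y z : ℕ) (T : Finset ℕ) [DecidablePred fun p => p.Prime ∧ p ∈ BT z T] :
    ((Finset.Icc 1 y).filter (fun p => p.Prime ∧ p ∈ BT z T)).card ≤
      z + ∑ a ∈ T, LX.Pc y (Wp z) a := by
  classical
  have hsub : (Finset.Icc 1 y).filter (fun p => p.Prime ∧ p ∈ BT z T) ⊆
      Finset.Icc 1 z ∪ T.biUnion (fun a =>
        (Icc 1 y).filter (fun n => n.Prime ∧ n ≡ a [MOD Wp z])) := by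
    intro p hp
    rw [Finset.mem_filter, Finset.mem_Icc] at hp
    rw [Finset.mem_union, Finset.mem_Icc, Finset.mem_biUnion]
    rcases hp.2.2 with h | h
    · exact Or.inl ⟨hp.1.1, h⟩
    · refine Or.inr ⟨p % Wp z, h, ?_⟩
      rw [Finset.mem_filter, Finset.mem_Icc]
      exact ⟨hp.1, hp.2.1, (Nat.mod_modEq p (Wp z)).symm⟩
  refine (Finset.card_le_card hsub).trans ((Finset.card_union_le _ _).trans ?_)
  rw [Nat.card_Icc, Nat.add_sub_cancel]
  refine Nat.add_le_add_left (Finset.card_biUnion_le.trans (le_of_eq ?_)) z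
  refine Finset.sum_congr rfl fun a _ => ?_
  unfold LX.Pc
  congr

theorem density_uni (κ : ℝ) (hκ : 0 < κ) : ∃ Y₀ : ℕ, ∀ y : ℕ, Y₀ ≤ y → ∀ z : ℕ, 2 ≤ z →
    (Wp z : ℝ) ≤ Real.log y → ∀ T ⊆ adm z, T.Nonempty →
      SpAt (BT z T) ((1 + κ) * ((T.card : ℝ) / (Wp z).totient)) y := by
  obtain ⟨θ, hθ⟩ : ∃ θ, θ = min κ 1 / 4 := ⟨_, rfl⟩
  have hm0 : 0 < min κ 1 := lt_min hκ one_pos
  have hmκ : min κ 1 ≤ κ := min_le_left _ _
  have hm1 : min κ 1 ≤ 1 := min_le_right _ _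
  have hθ0 : 0 < θ := by rw [hθ]; linarith
  have hθ1 : θ ≤ 1 / 4 := by rw [hθ]; linarith
  have hθκ : 4 * θ ≤ κ := by rw [hθ]; linarith
  obtain ⟨y₁, hy₁⟩ := LX.class_count 1 hθ0 (by linarith)
  obtain ⟨y₂, hy₂⟩ := pi_lower' hθ0
  obtain ⟨y₃, hy₃⟩ := ru8_log_cube hθ0
  refine ⟨y₁ + y₂ + y₃ + 2, fun y hy z hz hW T hT hTne => ?_⟩
  have h1 := hy₁ y (by omega)
  have h2 := hy₂ y (by omega)
  have h3 := hy₃ y (by omega)
  have hyR : (2 : ℝ) ≤ y := by exact_mod_cast (by omega : 2 ≤ y)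
  obtain ⟨L, hL⟩ : ∃ L, L = Real.log y := ⟨_, rfl⟩
  have hL0 : 0 < L := by rw [hL]; exact Real.log_pos (by linarith)
  rw [← hL] at h1 h2 h3 hW
  have hWpos : 0 < Wp z := Wp_pos z
  obtain ⟨φ, hφ⟩ : ∃ φ : ℝ, φ = ((Wp z).totient : ℝ) := ⟨_, rfl⟩
  have hφ0 : 0 < φ := by rw [hφ]; exact_mod_cast Nat.totient_pos.mpr hWpos
  have hφW : φ ≤ L := by
    refine le_trans ?_ hW
    rw [hφ]
    exact_mod_cast Nat.totient_le _
  have hzL : (z : ℝ) ≤ L := le_trans (by exact_mod_cast le_Wp hz) hW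
  obtain ⟨t, ht⟩ : ∃ t : ℝ, t = (T.card : ℝ) := ⟨_, rfl⟩
  have ht1 : 1 ≤ t := by
    rw [ht]
    exact_mod_cast hTne.card_pos
  obtain ⟨M, hM⟩ : ∃ M, M = (y : ℝ) / φ / L := ⟨_, rfl⟩
  have hM0 : 0 < M := by rw [hM]; positivity
  -- the small primes
  have hzM : (z : ℝ) ≤ θ * (t * M) := by
    have h4 : L * (φ * L) ≤ θ * y := by
      refine le_trans ?_ h3
      have : L ^ 3 = L * (L * L) := by ring
      rw [this]
      exact mul_le_mul_of_nonneg_left (mul_le_mul_of_nonneg_right hφW hL0.le) hL0.le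
    have h5 : L ≤ θ * M := by
      rw [hM, div_div, ← mul_div_assoc, le_div_iff₀ (by positivity)]
      exact h4
    calc (z : ℝ) ≤ L := hzL
      _ ≤ θ * M := h5
      _ ≤ θ * (t * M) := by
          apply mul_le_mul_of_nonneg_left _ hθ0.le
          exact le_mul_of_one_le_left hM0.le ht1
  -- the classes
  have hcl : ∑ a ∈ T, (LX.Pc y (Wp z) a : ℝ) ≤ t * ((1 + θ) * M) := by
    rw [ht, ← nsmul_eq_mul]
    refine Finset.sum_le_card_nsmul _ _ _ fun a ha => ?_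
    have h4 := (h1 (Wp z) a hWpos (by rw [pow_one]; exact hW) (adm_coprime (hT ha))).2
    rw [← hφ, ← hM] at h4
    exact h4
  have hcard : ∀ [DecidablePred fun p => p.Prime ∧ p ∈ BT z T],
      (((Finset.Icc 1 y).filter (fun p => p.Prime ∧ p ∈ BT z T)).card : ℝ) ≤
      (1 + 2 * θ) * (t * M) := by
    intro _
    have h4 := ru8_card y z T
    have h5 : (((Finset.Icc 1 y).filter (fun p => p.Prime ∧ p ∈ BT z T)).card : ℝ) ≤
        z + ∑ a ∈ T, (LX.Pc y (Wp z) a : ℝ) := by exact_mod_cast h4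
    linarith
  have hfin : (1 + 2 * θ) * (t * M) ≤ (1 + κ) * (t / φ) * Nat.primeCounting y := by
    have h4 : (1 - θ) * (y / L) ≤ Nat.primeCounting y := by
      rw [← mul_div_assoc, div_le_iff₀ hL0]
      exact h2
    have h5 : (1 + 2 * θ) ≤ (1 + κ) * (1 - θ) := by nlinarith
    have h6 : (1 + 2 * θ) * (t * M) = (1 + 2 * θ) * ((t / φ) * (y / L)) := by
      rw [hM]
      field_simp
    rw [h6]
    calc (1 + 2 * θ) * ((t / φ) * (y / L)) ≤ (1 + κ) * (1 - θ) * ((t / φ) * (y / L)) := by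
          apply mul_le_mul_of_nonneg_right h5
          positivity
      _ = (1 + κ) * (t / φ) * ((1 - θ) * (y / L)) := by ring
      _ ≤ (1 + κ) * (t / φ) * Nat.primeCounting y := by
          apply mul_le_mul_of_nonneg_left h4
          positivity
  unfold SpAt
  rw [← hφ, ← ht]
  classical
  exact hcard.trans hfin

end Pool.Agent.Lib.MP_7b7e48_nt.RU
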