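import Pool.Agent.Lib.MP_7b7e48_nt.RU.RU0

/-!
# RU-8b: the extremal sets of classes

PROOF.  As in `lower_sharp` (GT/RobustLowerB.lean).  `t = 1`: `s = 1`, `exists_T_one`, `hits_all`, `reps_pos_of` (`T` nonempty since `adm z` is and every `a ∈ adm z` has
`a ∈ T ∨ sig z a ∈ T`).  `t < 1`: `s`, `κ` as there, `exists_T_lt`, and `good_n` with a threshold that does not depend on `z`, `T`: repeat its proof with
`a = κ (1-κ) ρ₀ C2`, `ρ₀ = s/2 ≤ ρ = #T/#adm` (the only place where `N₀` depends on `ρ`).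
-/

set_option autoImplicit false

open Finset Pool.Agent.Lib.GT Pool.Agent.Lib.GT.LA Pool.Agent.Lib.GT.Robust

namespace Pool.Agent.Lib.MP_7b7e48_nt.RU

/-- `good_n` with a uniform threshold -/
lemma ru8b_good_n {κ ρ₀ t : ℝ} (hκ0 : 0 < κ) (hκ1 : κ < 1) (hρ₀ : 0 < ρ₀) :
    ∃ N₀ : ℕ, ∀ (z : ℕ) (T : Finset ℕ), (∀ a ∈ T, sig z a ∉ T) → ∀ ρ : ℝ, ρ₀ ≤ ρ → ρ ≤ 1 →
      t ≤ 2 * ρ * (1 - κ) ^ 4 → ∀ n : ℕ, N₀ ≤ n → (2 * n) % Wp z = 2 % Wp z →
      C2 * n ≤ RR (2 * n) → (1 - κ) * ρ * RR (2 * n) ≤ RT z T (2 * n) →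
      t * reps n ≤ hits (BT z T) n := by
  have hC2 := C2_pos
  have h1κ : 0 < 1 - κ := by linarith
  obtain ⟨a, ha⟩ : ∃ a, a = κ * (1 - κ) * ρ₀ * C2 := ⟨_, rfl⟩
  have ha0 : 0 < a := by rw [ha]; positivity
  obtain ⟨N₀, hN₀⟩ := small_terms hκ0 ha0
  refine ⟨max N₀ 1, fun z T hTs ρ hρρ hρ1 ht n hn hmod hRR hRT => ?_⟩
  have hρ0 : 0 < ρ := lt_of_lt_of_le hρ₀ hρρ
  have hn1 : 1 ≤ n := (le_max_right _ _).trans hn
  have hsm := hN₀ n ((le_max_left _ _).trans hn)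
  have hnR : (1 : ℝ) ≤ n := by exact_mod_cast hn1
  have hlog : 0 < Real.log (2 * (n : ℝ)) := Real.log_pos (by linarith)
  have h1 := RT_hits hn1 hTs hmod
  have h2 := RR_reps hκ0 hκ1 hn1
  obtain ⟨y, hy⟩ : ∃ y : ℝ, y = (2 * n : ℝ) ^ (1 - κ) := ⟨_, rfl⟩
  have hy0 : 0 ≤ y := by rw [hy]; positivity
  obtain ⟨L, hL⟩ : ∃ L : ℝ, L = Real.log (2 * (n : ℝ)) ^ 2 := ⟨_, rfl⟩
  have hL0 : 0 < L := by rw [hL]; positivity
  rw [← hy] at h2 hsm
  rw [← hL] at h1 h2 hsm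
  have e1 : 2 * (reps n : ℝ) * ((1 - κ) * Real.log (2 * n)) ^ 2 =
      2 * reps n * (1 - κ) ^ 2 * L := by rw [hL]; ring
  rw [e1] at h2
  obtain ⟨R, hR⟩ : ∃ R, R = RR (2 * n) := ⟨_, rfl⟩
  rw [← hR] at h2 hRR hRT
  have hR0 : 0 ≤ R := le_trans (by positivity) hRR
  -- `t reps L ≤ ρ (1 - κ)^2 (R + 2 y L)`
  have h3 : t * reps n * L ≤ ρ * (1 - κ) ^ 2 * (R + 2 * (y * L)) := by
    calc t * reps n * L ≤ (2 * ρ * (1 - κ) ^ 4) * reps n * L := by
          apply mul_le_mul_of_nonneg_right _ hL0.le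
          exact mul_le_mul_of_nonneg_right ht (Nat.cast_nonneg _)
      _ = ρ * (1 - κ) ^ 2 * (2 * reps n * (1 - κ) ^ 2 * L) := by ring
      _ ≤ _ := mul_le_mul_of_nonneg_left h2 (by positivity)
  have h4 : ρ * (1 - κ) ^ 2 * (2 * (y * L)) ≤ 2 * (y * L) := by
    apply mul_le_of_le_one_left (by positivity)
    have : (1 - κ) ^ 2 ≤ 1 := by
      rw [sq_le_one_iff₀ h1κ.le]; linarith
    calc ρ * (1 - κ) ^ 2 ≤ 1 * 1 := mul_le_mul hρ1 this (by positivity) (by norm_num)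
      _ = 1 := one_mul 1
  have h5 : κ * (1 - κ) * ρ₀ * (C2 * n) ≤ κ * (1 - κ) * ρ * R := by
    have h5a : κ * (1 - κ) * ρ₀ * (C2 * n) ≤ κ * (1 - κ) * ρ * (C2 * n) := by
      apply mul_le_mul_of_nonneg_right _ (by positivity)
      exact mul_le_mul_of_nonneg_left hρρ (by positivity)
    exact h5a.trans (mul_le_mul_of_nonneg_left hRR (by positivity))
  have h6 : (1 + 2 * y) * L ≤ κ * (1 - κ) * ρ * R := by
    refine le_trans (hsm.trans (le_of_eq ?_)) h5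
    rw [ha]; ring
  have h7 : t * reps n * L ≤ hits (BT z T) n * L := by
    have h8 : (hits (BT z T) n + 1 : ℝ) * L = hits (BT z T) n * L + L := by ring
    have h9 : ρ * (1 - κ) ^ 2 * (R + 2 * (y * L)) =
      (1 - κ) * ρ * R - κ * (1 - κ) * ρ * R + ρ * (1 - κ) ^ 2 * (2 * (y * L)) := by ring
    rw [h8] at h1
    rw [h9] at h3
    linarith
  exact le_of_mul_le_mul_right h7 hL0

lemma ru8b_adm {z : ℕ} (hz : 2 ≤ z) : (adm z).Nonempty := by
  rw [← Finset.card_pos]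
  have h1 : (0 : ℝ) < (adm z).card := by
    rw [adm_card_eq hz]
    have h2 := half_le_twinPartial (z + 1)
    have h3 := V_pos z
    have h4 : (0 : ℝ) < (Wp z).totient := by
      exact_mod_cast Nat.totient_pos.mpr (Wp_pos z)
    positivity
  exact_mod_cast h1

theorem good_T {t ε : ℝ} (ht0 : 0 < t) (ht1 : t ≤ 1) (hε : 0 < ε) : ∃ s : ℝ, 0 < s ∧
    s * kap ≤ t * kap + ε / 3 ∧ ∃ κ : ℝ, 0 < κ ∧ κ < 1 ∧ ∃ z₀ N₀ : ℕ, ∀ z : ℕ, z₀ ≤ z → 2 ≤ z →
      ∃ T ⊆ adm z, T.Nonempty ∧ (T.card : ℝ) ≤ s * (adm z).card / 2 + 1 ∧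
        ∀ n : ℕ, N₀ ≤ n → (2 * n) % Wp z = 2 % Wp z → C2 * n ≤ RR (2 * n) →
          (∀ T' ⊆ adm z, (1 - κ) * ((T'.card : ℝ) / (adm z).card) * RR (2 * n) ≤
            RT z T' (2 * n)) →
          0 < reps n ∧ t * reps n ≤ hits (BT z T) n := by
  have hkap := kap_pos
  have hC2 := C2_pos
  obtain ⟨Nr, hNr⟩ := reps_pos_of
  rcases eq_or_lt_of_le ht1 with ht | ht
  · -- `t = 1`
    subst ht
    refine ⟨1, one_pos, by linarith, 1 / 2, by norm_num, by norm_num, 2, Nr, fun z _ hz => ?_⟩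
    obtain ⟨T, hTa, hTall, hTc⟩ := exists_T_one hz
    obtain ⟨a, haa⟩ := ru8b_adm hz
    have hTne : T.Nonempty := by
      rcases hTall a haa with h | h
      · exact ⟨_, h⟩
      · exact ⟨_, h⟩
    refine ⟨T, hTa, hTne, hTc, fun n hn hmod hRR _ => ⟨hNr n hn hRR, ?_⟩⟩
    rw [hits_all hz hTall hmod, one_mul]
  · -- `t < 1`
    obtain ⟨s, hs⟩ : ∃ s : ℝ, s = min ((1 + t) / 2) (t + ε / (3 * kap)) := ⟨_, rfl⟩
    have hs1 : s < 1 := by
      rw [hs]
      exact lt_of_le_of_lt (min_le_left _ _) (by linarith)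
    have hts : t < s := by
      rw [hs]
      exact lt_min (by linarith) (by have : 0 < ε / (3 * kap) := by positivity
                                     linarith)
    have hs0 : 0 < s := ht0.trans hts
    have hsk : s * kap ≤ t * kap + ε / 3 := by
      have h1 : s ≤ t + ε / (3 * kap) := by rw [hs]; exact min_le_right _ _
      calc s * kap ≤ (t + ε / (3 * kap)) * kap := mul_le_mul_of_nonneg_right h1 hkap.le
        _ = t * kap + ε / 3 := by field_simp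
    -- `κ` with `t ≤ s (1 - κ)^4`
    obtain ⟨κ, hκ⟩ : ∃ κ : ℝ, κ = (s - t) / (4 * s) := ⟨_, rfl⟩
    have hκ0 : 0 < κ := by rw [hκ]; exact div_pos (by linarith) (by positivity)
    have hκ1 : κ < 1 := by
      rw [hκ, div_lt_one (by positivity)]
      linarith
    have htκ : t ≤ s * (1 - κ) ^ 4 := by
      have h1 := one_add_mul_le_pow (show (-2 : ℝ) ≤ -κ by linarith) 4
      have e1 : 1 + (4 : ℕ) * (-κ) = 1 - 4 * κ := by push_cast; ring
      have e2 : (1 + (-κ)) ^ 4 = (1 - κ) ^ 4 := by ring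
      rw [e1, e2] at h1
      have h2 : s * (1 - 4 * κ) = t := by
        rw [hκ]
        field_simp
        ring
      calc t = s * (1 - 4 * κ) := h2.symm
        _ ≤ _ := mul_le_mul_of_nonneg_left h1 hs0.le
    obtain ⟨Ng, hNg⟩ := ru8b_good_n (t := t) hκ0 hκ1 (show 0 < s / 2 by positivity)
    refine ⟨s, hs0, hsk, κ, hκ0, hκ1, ⌈2 * (4 / (1 - s) + 2)⌉₊, max Nr Ng, fun z hz₀ hz => ?_⟩
    have hadm : 4 ≤ (1 - s) * (adm z).card := by
      have h1 := adm_large hz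
      have h2 : 2 * (4 / (1 - s) + 2) ≤ z :=
        (Nat.le_ceil _).trans (by exact_mod_cast hz₀)
      have h3 : 4 / (1 - s) ≤ (adm z).card := by linarith
      rw [div_le_iff₀ (by linarith)] at h3
      linarith
    obtain ⟨T, hTa, hTs, hTlow, hTc⟩ := exists_T_lt hz hs0 hadm
    have hadmR : (0 : ℝ) < (adm z).card := by
      by_contra h
      have h0 : ((adm z).card : ℝ) = 0 := le_antisymm (not_lt.mp h) (Nat.cast_nonneg _)
      rw [h0] at hadm
      linarith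
    have hTcR : (0 : ℝ) < T.card := lt_of_lt_of_le (by positivity) hTlow
    have hTne : T.Nonempty := by
      rw [← Finset.card_pos]
      exact_mod_cast hTcR
    obtain ⟨ρ, hρ⟩ : ∃ ρ, ρ = (T.card : ℝ) / (adm z).card := ⟨_, rfl⟩
    have hρ1 : ρ ≤ 1 := by
      rw [hρ, div_le_one hadmR]
      exact_mod_cast Finset.card_le_card hTa
    have hρs : s ≤ 2 * ρ := by
      rw [hρ, ← mul_div_assoc, le_div_iff₀ hadmR]
      linarith
    have htρ : t ≤ 2 * ρ * (1 - κ) ^ 4 :=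
      htκ.trans (mul_le_mul_of_nonneg_right hρs (by have : 0 < 1 - κ := by linarith
                                                    positivity))
    refine ⟨T, hTa, hTne, hTc, fun n hn hmod hRR hall => ⟨hNr n ((le_max_left _ _).trans hn) hRR, ?_⟩⟩
    have h1 := hall T hTa
    rw [← hρ] at h1
    exact hNg z T hTs ρ (by linarith) hρ1 htρ n ((le_max_right _ _).trans hn) hmod hRR h1

end Pool.Agent.Lib.MP_7b7e48_nt.RU
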