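import Pool.Agent.Lib.MP_7b7e48_nt.RU.RU7
import Pool.Agent.Lib.MP_7b7e48_nt.RU.RU8
import Pool.Agent.Lib.MP_7b7e48_nt.RU.RU8b

/-!
# RU-9: the lower bound

PROOF.  As `lower_core` (GT/RobustLowerB.lean).  `good_T` gives `s, κ, z₀, N₀`.  `u = (s kap + ε/3)/η`, `z = ⌈exp u⌉`, `T` from `good_T`, `B = BT z T`.
`#T/φ(W) ≤ s twinPartial (z+1) V z + 1/φ(W)` (`adm_card_eq`), `dens_limit s`: `log z · (…) < s kap + ε/4` for `z ≥ z₁`, and `log z ≥ u`, so
`#T/φ(W) ≤ η (s kap + ε/4)/(s kap + ε/3)`, hence `(1 + κ₁) #T/φ(W) ≤ η` for a suitable constant `κ₁ > 0` (depends on `s, ε`): `density_uni κ₁` gives `SpAt B η y` for `y² ≥ X`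
as soon as `Wp z ≤ (log X)/2 ≤ log y` (and `√X ≥ Y₀`).
Size of `W`: the hypothesis gives `exp ((t kap + ε)/η) ≤ A log log X`, and `exp ((t kap + ε)/η) ≥ exp (ε/(3η)) exp u ≥ M exp u`, `M` any constant for `η ≤ η₀`; `W ≤ 4^z`,
`z ≤ exp u + 1 ≤ 2 exp u`, so `log (8 W) ≤ 3 + 3 exp u ≤ 6 exp u ≤ (6A/M) log log X`: take `M ≥ 12 A + 6`, so that `8 W ≤ (log X)^(1/2)` and also
`8 W ≤ exp (6 exp u) ≤ exp (exp ((t kap + ε)/η))`, i.e. `exp (-exp(..)) ≤ 1/(8W)`.
Counting: `equi_uni 2 κ'` with `κ' = min κ (1/2)`; the `n ∈ (X/2, X]` with `n ≡ 1 mod W` are at least `X/(4W)` (`card_class_one`), all but `X/(log X)^2 ≤ X/(8W)` of them are good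
(`N₀ ≤ X/2`); `(1-κ')·2·C2·2n ≥ C2 n`.  So at least `X/(8W) ≥ exp (-exp(..)) X`.
-/

set_option autoImplicit false

open Finset Pool.Agent.Lib.GT Pool.Agent.Lib.GT.LA Pool.Agent.Lib.GT.Robust

namespace Pool.Agent.Lib.MP_7b7e48_nt.RU

open Pool.Agent.Lib.MP_7b7e48_nt (twinPartial)

/-- the size of the modulus -/
lemma ru9_size {u Q M : ℝ} {z : ℕ} (hu : 0 ≤ u) (hz : (z : ℝ) < Real.exp u + 1)
    (hQ : M * Real.exp u ≤ Q) (hM : 5 ≤ M) {A L : ℝ} (hA : 0 < A) (hMA : 10 * A ≤ M)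
    (hL : 0 < L) (hQL : Q ≤ A * Real.log L) :
    (8 : ℝ) * Wp z ≤ Real.exp Q ∧ (8 * (Wp z : ℝ)) ^ 2 ≤ L := by
  have hW4 := Wp_le z
  have hlog2 := Real.log_two_lt_d9
  have hE1 : 1 ≤ Real.exp u := Real.one_le_exp hu
  have hE0 : 0 < Real.exp u := Real.exp_pos u
  have h5 : (8 : ℝ) * Wp z ≤ Real.exp (Real.log 2 * (3 + 2 * z)) := by
    have e1 : Real.exp (Real.log 2 * (3 + 2 * z)) = 8 * 4 ^ z := by
      have e2 : Real.log 2 * (3 + 2 * z) = ((3 + 2 * z : ℕ) : ℝ) * Real.log 2 := by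
        push_cast; ring
      rw [e2, Real.exp_nat_mul, Real.exp_log (by norm_num), pow_add, pow_mul]
      norm_num
    rw [e1]
    linarith
  have h6 : Real.log 2 * (3 + 2 * z) ≤ 5 * Real.exp u := by
    have h7 : Real.log 2 * (3 + 2 * (z : ℝ)) ≤ 0.7 * (3 + 2 * z) := by
      apply mul_le_mul_of_nonneg_right _ (by positivity)
      linarith
    linarith
  have h7 : (8 : ℝ) * Wp z ≤ Real.exp (5 * Real.exp u) := h5.trans (Real.exp_le_exp.mpr h6)
  constructor
  · refine h7.trans (Real.exp_le_exp.mpr ?_)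
    have := mul_le_mul_of_nonneg_right hM hE0.le
    linarith
  · have h8 : (8 * (Wp z : ℝ)) ^ 2 ≤ Real.exp (5 * Real.exp u) ^ 2 :=
      pow_le_pow_left₀ (by positivity) h7 2
    refine h8.trans ?_
    rw [← Real.exp_nat_mul]
    have h9 : ((2 : ℕ) : ℝ) * (5 * Real.exp u) ≤ Real.log L := by
      have h10 : A * (10 * Real.exp u) ≤ A * Real.log L := by
        have := mul_le_mul_of_nonneg_right hMA hE0.le
        linarith
      have h11 := le_of_mul_le_mul_left h10 hA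
      push_cast
      linarith
    calc Real.exp (((2 : ℕ) : ℝ) * (5 * Real.exp u)) ≤ Real.exp (Real.log L) :=
          Real.exp_le_exp.mpr h9
      _ = L := Real.exp_log hL

lemma ru9_log {X : ℕ} {Q A : ℝ} (hL : 0 < Real.log X)
    (h : Real.exp Q ≤ (Real.log X) ^ A) : Q ≤ A * Real.log (Real.log X) := by
  rw [← Real.log_rpow hL, ← Real.log_exp Q]
  exact Real.log_le_log (Real.exp_pos _) h

theorem lower_uni (t : ℝ) (ht0 : 0 < t) (ht1 : t ≤ 1) (ε : ℝ) (hε : 0 < ε) (A : ℝ) (hA : 0 < A) :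
    ∃ η₀ : ℝ, 0 < η₀ ∧ ∃ X₀ : ℕ, ∀ η : ℝ, 0 < η → η ≤ η₀ → ∃ B : Set ℕ, ∀ X : ℕ, X₀ ≤ X →
      Real.exp (Real.exp ((t * kap + ε) / η)) ≤ (Real.log X) ^ A →
        (∀ y : ℕ, X ≤ y ^ 2 → SpAt B η y) ∧
        Real.exp (-Real.exp ((t * kap + ε) / η)) * X ≤
          (((Finset.Icc 1 X).filter (fun n => 0 < reps n ∧ t * reps n ≤ hits B n)).card : ℝ) := by
  have hkap := kap_pos
  have hC2 := C2_pos
  obtain ⟨s, hs0, hst, κ, hκ0, hκ1, z₀, N₀, hgood⟩ := good_T ht0 ht1 hε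
  obtain ⟨z₁, hz₁⟩ := Filter.eventually_atTop.mp ((dens_limit s).eventually_lt_const
    (show s * kap < s * kap + ε / 4 by linarith))
  have hsk : 0 < s * kap := by positivity
  obtain ⟨a, ha⟩ : ∃ a : ℝ, a = s * kap + ε / 3 := ⟨_, rfl⟩
  obtain ⟨b, hb⟩ : ∃ b : ℝ, b = s * kap + ε / 4 := ⟨_, rfl⟩
  have ha0 : 0 < a := by rw [ha]; positivity
  have hb0 : 0 < b := by rw [hb]; positivity
  have hκ₁ : 0 < a / b - 1 := by
    have : 1 < a / b := by
      rw [lt_div_iff₀ hb0, ha, hb]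
      linarith
    linarith
  obtain ⟨Y₀, hY₀⟩ := density_uni (a / b - 1) hκ₁
  obtain ⟨κ', hκ'⟩ : ∃ κ', κ' = min κ (1 / 2) := ⟨_, rfl⟩
  have hκ'0 : 0 < κ' := by rw [hκ']; exact lt_min hκ0 (by norm_num)
  have hκ'2 : κ' ≤ 1 / 2 := by rw [hκ']; exact min_le_right _ _
  have hκ'κ : κ' ≤ κ := by rw [hκ']; exact min_le_left _ _
  obtain ⟨X₁, hX₁⟩ := equi_uni 2 κ' hκ'0 (by linarith)
  obtain ⟨X₃, hX₃⟩ := ru7_event 0 1
  obtain ⟨M, hM⟩ : ∃ M : ℝ, M = 10 * A + 5 := ⟨_, rfl⟩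
  have hM5 : 5 ≤ M := by rw [hM]; linarith
  have hMA : 10 * A ≤ M := by rw [hM]; linarith
  obtain ⟨η₀, hη₀⟩ : ∃ η₀ : ℝ, η₀ = min (ε / (3 * M)) (ε / (3 * (z₀ + z₁ + 2))) := ⟨_, rfl⟩
  have hM0 : 0 < M := by linarith
  have hη₀0 : 0 < η₀ := by rw [hη₀]; positivity
  refine ⟨η₀, hη₀0, X₁ + X₃ + Y₀ ^ 2 + 2 * N₀ + 8, fun η hη hηη => ?_⟩
  have hη1 : η ≤ ε / (3 * M) := hηη.trans (by rw [hη₀]; exact min_le_left _ _)
  have hη2 : η ≤ ε / (3 * (z₀ + z₁ + 2)) := hηη.trans (by rw [hη₀]; exact min_le_right _ _)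
  rw [le_div_iff₀ (by positivity)] at hη1 hη2
  obtain ⟨u, hu⟩ : ∃ u : ℝ, u = (s * kap + ε / 3) / η := ⟨_, rfl⟩
  obtain ⟨z, hz⟩ : ∃ z : ℕ, z = ⌈Real.exp u⌉₊ := ⟨_, rfl⟩
  have hzge : Real.exp u ≤ z := by rw [hz]; exact Nat.le_ceil _
  have hzlt : (z : ℝ) < Real.exp u + 1 := by rw [hz]; exact Nat.ceil_lt_add_one (Real.exp_pos _).le
  have hulow : (z₀ : ℝ) + z₁ + 2 ≤ u := by
    rw [hu, le_div_iff₀ hη]
    linarith
  have hu0 : 0 < u := by
    have h1 : (0 : ℝ) ≤ z₀ := Nat.cast_nonneg _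
    have h2 : (0 : ℝ) ≤ z₁ := Nat.cast_nonneg _
    linarith
  have hzbig : (z₀ : ℝ) + z₁ + 2 ≤ z := by
    have := Real.add_one_le_exp u
    linarith
  have hzbig' : z₀ + z₁ + 2 ≤ z := by exact_mod_cast hzbig
  have hz2 : 2 ≤ z := by omega
  have hzR : (2 : ℝ) ≤ z := by exact_mod_cast hz2
  obtain ⟨T, hTa, hTne, hTc, hTgood⟩ := hgood z (by omega) hz2
  have hWpos := Wp_pos z
  have hW1 : (1 : ℝ) ≤ Wp z := by exact_mod_cast hWpos
  have hWR : (0 : ℝ) < Wp z := by linarith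
  have htot : (0 : ℝ) < (Wp z).totient := by exact_mod_cast Nat.totient_pos.mpr hWpos
  -- density
  have hdens : (1 + (a / b - 1)) * ((T.card : ℝ) / (Wp z).totient) ≤ η := by
    have h1 := hz₁ z (by omega)
    rw [← hb] at h1
    have hlogz : u ≤ Real.log z := by
      rw [← Real.log_exp u]
      exact Real.log_le_log (Real.exp_pos _) hzge
    have h2 : (T.card : ℝ) / (Wp z).totient ≤
        s * twinPartial (z + 1) * V z + 1 / (Wp z).totient := by
      rw [div_le_iff₀ htot]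
      refine hTc.trans (le_of_eq ?_)
      rw [adm_card_eq hz2]
      field_simp
    have hlog0 : 0 < Real.log z := Real.log_pos (by linarith)
    have h3 : u * ((T.card : ℝ) / (Wp z).totient) ≤
        Real.log z * (s * twinPartial (z + 1) * V z + 1 / (Wp z).totient) :=
      mul_le_mul hlogz h2 (by positivity) hlog0.le
    have h4 : u * ((T.card : ℝ) / (Wp z).totient) ≤ b := h3.trans h1.le
    have h5 : a * ((T.card : ℝ) / (Wp z).totient) ≤ b * η := by
      have h6 : a = u * η := by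
        rw [hu, ha]
        field_simp
      rw [h6]
      have := mul_le_mul_of_nonneg_right h4 hη.le
      linarith
    have h7 : (1 + (a / b - 1)) * ((T.card : ℝ) / (Wp z).totient) =
        (a * ((T.card : ℝ) / (Wp z).totient)) / b := by ring
    rw [h7, div_le_iff₀ hb0]
    linarith
  obtain ⟨Q, hQ⟩ : ∃ Q : ℝ, Q = Real.exp ((t * kap + ε) / η) := ⟨_, rfl⟩
  have hMQ : M * Real.exp u ≤ Q := by
    have h8 : M ≤ Real.exp (ε / (3 * η)) := by
      have h9 := Real.add_one_le_exp (ε / (3 * η))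
      have h10 : M ≤ ε / (3 * η) := by
        rw [le_div_iff₀ (by positivity)]
        linarith
      linarith
    calc M * Real.exp u ≤ Real.exp (ε / (3 * η)) * Real.exp u :=
          mul_le_mul_of_nonneg_right h8 (Real.exp_pos _).le
      _ = Real.exp (ε / (3 * η) + u) := by rw [Real.exp_add]
      _ ≤ Real.exp ((t * kap + ε) / η) := by
          apply Real.exp_le_exp.mpr
          rw [hu]
          have e3 : ε / (3 * η) + (s * kap + ε / 3) / η = (s * kap + 2 * (ε / 3)) / η := by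
            field_simp
            ring
          rw [e3]
          apply div_le_div_of_nonneg_right _ hη.le
          linarith
      _ = Q := hQ.symm
  rw [← hQ]
  refine ⟨BT z T, fun X hX hXQ => ?_⟩
  have hL1 : 1 ≤ Real.log X := (hX₃ X (by omega)).1
  obtain ⟨L, hL⟩ : ∃ L, L = Real.log X := ⟨_, rfl⟩
  have hXR : (8 : ℝ) ≤ X := by exact_mod_cast (by omega : 8 ≤ X)
  have hX0 : (0 : ℝ) < X := by linarith
  have hlogX : Real.log X ≤ X := Real.log_le_self hX0.le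
  have hQL := ru9_log (by linarith) hXQ
  obtain ⟨hW8, hW64⟩ := ru9_size hu0.le hzlt hMQ hM5 hA hMA (by linarith : 0 < Real.log X) hQL
  obtain ⟨E, hEc, hEg⟩ := hX₁ X (by omega)
  rw [← hL] at hL1 hlogX hW64 hEc hEg
  have hW8L : 8 * (Wp z : ℝ) ≤ L := by
    have h1 : 8 * (Wp z : ℝ) ≤ (8 * (Wp z : ℝ)) ^ 2 := le_self_pow₀ (by linarith) (by norm_num)
    linarith
  constructor
  · intro y hy
    have hyY : Y₀ ≤ y := by
      by_contra hcon
      have h1 : y ^ 2 < Y₀ ^ 2 := Nat.pow_lt_pow_left (not_le.1 hcon) (by norm_num)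
      omega
    have hy0 : 0 < y := by
      rcases Nat.eq_zero_or_pos y with h | h
      · rw [h] at hy
        omega
      · exact h
    have hlogy : L ≤ 2 * Real.log y := by
      rw [hL]
      have h1 : (X : ℝ) ≤ (y : ℝ) ^ 2 := by exact_mod_cast hy
      have h2 := Real.log_le_log hX0 h1
      rw [Real.log_pow] at h2
      exact_mod_cast h2
    have h1 := hY₀ y hyY z hz2 (by linarith) T hTa hTne
    unfold SpAt at h1 ⊢
    exact h1.trans (mul_le_mul_of_nonneg_right hdens (Nat.cast_nonneg _))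
  · have hXW : 8 * Wp z ≤ X := by
      have h1 : (8 : ℝ) * Wp z ≤ X := hW8L.trans hlogX
      exact_mod_cast h1
    have h2 := card_class_one hWpos hXW
    obtain ⟨G, hG⟩ : ∃ G, G = (Finset.Icc 1 X).filter
      (fun n => 0 < reps n ∧ t * reps n ≤ hits (BT z T) n) := ⟨_, rfl⟩
    obtain ⟨D, hD⟩ : ∃ D, D = (Finset.Ioc (X / 2) X).filter (fun n => n % Wp z = 1 % Wp z) :=
      ⟨_, rfl⟩
    have hsub : D ⊆ G ∪ E := by
      intro n hn
      rw [hD, Finset.mem_filter, Finset.mem_Ioc] at hn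
      obtain ⟨⟨hn1, hn2⟩, hn3⟩ := hn
      rw [Finset.mem_union]
      by_cases hnE : n ∈ E
      · exact Or.inr hnE
      · left
        have hmod : (2 * n) % Wp z = 2 % Wp z := by
          have h3 : n ≡ 1 [MOD Wp z] := hn3
          have h4 := Nat.ModEq.mul_left 2 h3
          rw [Nat.mul_one] at h4
          exact h4
        have hn0 : (0 : ℝ) ≤ n := Nat.cast_nonneg n
        obtain ⟨h5, h6⟩ := hEg n (by omega) hn2 hnE
        have h7 := h6 z hz2 (by linarith) hmod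
        have h8 : C2 * n ≤ RR (2 * n) := by
          have h9 : (1 / 2) * (2 * C2) * (2 * n) ≤ (1 - κ') * (2 * C2) * (2 * n) := by
            refine mul_le_mul_of_nonneg_right ?_ (by linarith)
            exact mul_le_mul_of_nonneg_right (by linarith) (by linarith)
          have h10 : 0 ≤ C2 * n := by positivity
          linarith
        have hRR0 : 0 ≤ RR (2 * n) := le_trans (by positivity) h8
        rw [hG, Finset.mem_filter, Finset.mem_Icc]
        refine ⟨⟨by omega, hn2⟩, hTgood n (by omega) hmod h8 fun T' hT' => ?_⟩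
        refine le_trans ?_ (h7 T' hT')
        refine mul_le_mul_of_nonneg_right ?_ hRR0
        exact mul_le_mul_of_nonneg_right (by linarith) (by positivity)
    have hcard := (Finset.card_le_card hsub).trans (Finset.card_union_le _ _)
    have hcardR : (D.card : ℝ) ≤ G.card + E.card := by exact_mod_cast hcard
    rw [← hD] at h2
    rw [← hG]
    have hE8 : (E.card : ℝ) ≤ X / (8 * Wp z) := by
      refine hEc.trans ?_
      refine div_le_div_of_nonneg_left hX0.le (by positivity) ?_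
      have h1 : L ≤ L ^ 2 := le_self_pow₀ hL1 (by norm_num)
      linarith
    have h3 : (X : ℝ) / (8 * Wp z) ≤ G.card := by
      have h4 : (X : ℝ) / (4 * Wp z) = X / (8 * Wp z) + X / (8 * Wp z) := by
        field_simp
        norm_num
      linarith
    refine le_trans ?_ h3
    rw [le_div_iff₀ (by positivity)]
    have h4 : Real.exp (-Q) * (8 * Wp z) ≤ 1 := by
      rw [Real.exp_neg, inv_mul_le_iff₀ (Real.exp_pos _), mul_one]
      exact hW8
    calc Real.exp (-Q) * X * (8 * Wp z) = (Real.exp (-Q) * (8 * Wp z)) * X := by ring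
      _ ≤ 1 * X := mul_le_mul_of_nonneg_right h4 hX0.le
      _ = X := one_mul _

end Pool.Agent.Lib.MP_7b7e48_nt.RU
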